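import Pool.Agent.Helper46_Sig3.TypeTwo

/-!
# Classification of the solutions
-/

open Finset ArithmeticFunction

namespace Pool.Agent.Sig3

lemma sigma_dvd_unitary {a c : ℕ} (h : Nat.Coprime a c) : sigma 3 a ∣ sigma 3 (a * c) := by
  rw [isMultiplicative_sigma.map_mul_of_coprime h]
  exact Dvd.intro _ rfl

/-- A divisor of the square-free part is unitary. -/
lemma sigma_dvd_of_dvd {a n N : ℕ} (hn : Squarefree n) (hnN : Nat.Coprime n N) (ha : a ∣ n) :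
    sigma 3 a ∣ sigma 3 (n * N) := by
  obtain ⟨c, rfl⟩ := ha
  rw [mul_assoc]
  apply sigma_dvd_unitary
  exact Nat.Coprime.mul_right (Nat.coprime_of_squarefree_mul hn) (hnN.coprime_mul_right)

lemma adj_coprime {z a b u v : ℕ} (hz : 9 ≤ z) (hadj : Adj u v) (ha : GoodSq z a) (hau : a ∣ u)
    (hbv : b ∣ v) : Nat.Coprime a b := by
  by_contra hcon
  obtain ⟨p, hp, hpa, hpb⟩ := Nat.Prime.not_coprime_iff_dvd.mp hcon
  have h1 : p ∣ 2 := by
    have hpu := hpa.trans hau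
    have hpv := hpb.trans hbv
    rcases hadj with h | h
    · rw [h] at hpv
      exact (Nat.dvd_add_right hpu).mp hpv
    · rw [h] at hpu
      exact (Nat.dvd_add_right hpv).mp hpu
  have h2 : p = 2 := (Nat.prime_dvd_prime_iff_eq hp Nat.prime_two).mp h1
  subst h2
  have h3 := (ha.2 2 (Nat.mem_primeFactors.mpr ⟨Nat.prime_two, hpa, ha.1.ne_zero⟩)).2
  have h4 : rgh z (2 ^ 3 + 1) = 1 := by
    by_contra h5
    obtain ⟨q, hq, hqd⟩ := Nat.exists_prime_and_dvd h5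
    have h6 := lt_of_dvd_rgh hq hqd
    have h7 : q ∣ 2 ^ 3 + 1 := hqd.trans (rgh_dvd z (by norm_num))
    have h8 := Nat.le_of_dvd (by norm_num) h7
    omega
  rw [h4] at h3
  omega

lemma le_gcd_mul_gcd {D s t : ℕ} (hD : 0 < D) (h : D ∣ s * t) :
    D ≤ Nat.gcd D s * Nat.gcd D t := by
  apply Nat.le_of_dvd
  · exact Nat.mul_pos (Nat.gcd_pos_of_pos_left _ hD) (Nat.gcd_pos_of_pos_left _ hD)
  · have h1 : D = Nat.gcd D (s * t) := (Nat.gcd_eq_left h).symm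
    conv_lhs => rw [h1]
    exact Nat.gcd_mul_right_dvd_mul_gcd D s t

lemma gcd_prod_dvd (D : ℕ) (T : Finset ℕ) (f : ℕ → ℕ) :
    Nat.gcd D (∏ q ∈ T, f q) ∣ ∏ q ∈ T, Nat.gcd D (f q) := by
  classical
  induction T using Finset.induction_on with
  | empty => simp
  | insert q T hq ih =>
    rw [prod_insert hq, prod_insert hq]
    exact (Nat.gcd_mul_right_dvd_mul_gcd _ _ _).trans (Nat.mul_dvd_mul_left _ ih)

/-- Splitting into two factors of bounded size. -/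
lemma split_two {n X : ℕ} {U : ℝ} (hn : 0 < n) (hnX : n ≤ X) (hU1 : 1 ≤ U)
    (hXU : (X : ℝ) ^ 2 ≤ U ^ 3) (hpr : ∀ p : ℕ, p.Prime → p ∣ n → (p : ℝ) ≤ U) :
    ∃ b1 b2 : ℕ, n = b1 * b2 ∧ (b1 : ℝ) ≤ U ∧ (b2 : ℝ) ≤ U := by
  classical
  have hne : (n.divisors.filter (fun d : ℕ => (d : ℝ) ≤ U)).Nonempty :=
    ⟨1, mem_filter.mpr ⟨Nat.mem_divisors.mpr ⟨one_dvd n, hn.ne'⟩, by simpa using hU1⟩⟩
  obtain ⟨b1, hb1, hmax⟩ := exists_max_image _ (fun d : ℕ => d) hne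
  rw [mem_filter, Nat.mem_divisors] at hb1
  obtain ⟨b2, hb2⟩ := hb1.1.1
  refine ⟨b1, b2, hb2, hb1.2, ?_⟩
  by_contra hcon
  have hcon' : U < (b2 : ℝ) := not_le.mp hcon
  have hb20 : 0 < b2 := by
    have : (0 : ℝ) < b2 := by linarith
    exact_mod_cast this
  have hb10 : 0 < b1 := Nat.pos_of_dvd_of_pos hb1.1.1 hn
  have hb2n1 : b2 ≠ 1 := by
    intro h
    rw [h] at hcon'
    push_cast at hcon'
    linarith
  set p := b2.minFac with hp
  have hpp : p.Prime := Nat.minFac_prime hb2n1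
  have hpb2 : p ∣ b2 := Nat.minFac_dvd b2
  have hb2n : b2 ∣ n := Dvd.intro_left b1 hb2.symm
  have hnotp : ¬ b2.Prime := by
    intro h
    have := hpr b2 h hb2n
    linarith
  have hsq : p ^ 2 ≤ b2 := Nat.minFac_sq_le_self hb20 hnotp
  have hgt : U < ((b1 * p : ℕ) : ℝ) := by
    by_contra h
    have h1 : b1 * p ∈ n.divisors.filter (fun d : ℕ => (d : ℝ) ≤ U) := by
      rw [mem_filter, Nat.mem_divisors]
      refine ⟨⟨?_, hn.ne'⟩, not_lt.mp h⟩
      rw [hb2]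
      exact Nat.mul_dvd_mul_left b1 hpb2
    have h2 := hmax _ h1
    have h3 := hpp.two_le
    nlinarith
  push_cast at hgt
  have hpr1 : (2 : ℝ) ≤ p := by exact_mod_cast hpp.two_le
  have hsqr : (p : ℝ) ^ 2 ≤ b2 := by exact_mod_cast hsq
  have hb1r : (0 : ℝ) < b1 := by exact_mod_cast hb10
  have hnr : (n : ℝ) = b1 * b2 := by exact_mod_cast hb2
  have hnXr : (n : ℝ) ≤ X := by exact_mod_cast hnX
  have h4 : U ^ 3 < (n : ℝ) ^ 2 := by
    have h5 : U ^ 2 < ((b1 : ℝ) * p) ^ 2 := pow_lt_pow_left₀ hgt (by linarith) (by norm_num)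
    have h6 : (b1 : ℝ) ^ 2 * p ^ 2 ≤ (b1 : ℝ) ^ 2 * b2 :=
      mul_le_mul_of_nonneg_left hsqr (by positivity)
    have h7 : U ^ 2 < (b1 : ℝ) ^ 2 * b2 := by
      calc U ^ 2 < ((b1 : ℝ) * p) ^ 2 := h5
        _ = (b1 : ℝ) ^ 2 * p ^ 2 := by ring
        _ ≤ _ := h6
    have h8 : U ^ 2 * U < (b1 : ℝ) ^ 2 * b2 * b2 :=
      mul_lt_mul'' h7 hcon' (by positivity) (by linarith)
    rw [hnr]
    calc U ^ 3 = U ^ 2 * U := by ring
      _ < (b1 : ℝ) ^ 2 * b2 * b2 := h8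
      _ = _ := by ring
  have h9 : (n : ℝ) ^ 2 ≤ (X : ℝ) ^ 2 := pow_le_pow_left₀ (Nat.cast_nonneg _) hnXr 2
  linarith

/-- The number `u` has a prime factor above `T`. -/
def Big (T : ℝ) (u : ℕ) : Prop := ∃ p : ℕ, p.Prime ∧ p ∣ u ∧ T < (p : ℝ)

lemma big_split {X u : ℕ} {T M : ℝ} (hu0 : 0 < u) (huX : u ≤ X) (hTM : (X : ℝ) ≤ T * M)
    (hM0 : 0 ≤ M) (hMT : M < T) (hbig : Big T u) :
    ∃ p m : ℕ, p.Prime ∧ u = p * m ∧ Nat.Coprime p m ∧ (m : ℝ) ≤ M ∧ 0 < m := by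
  obtain ⟨p, hp, hpu, hT⟩ := hbig
  obtain ⟨m, hm⟩ := hpu
  have hm0 : 0 < m := by
    rcases Nat.eq_zero_or_pos m with h0 | h0
    · rw [h0] at hm; omega
    · exact h0
  have hmr : (0 : ℝ) < m := by exact_mod_cast hm0
  have h1 : (p : ℝ) * m ≤ X := by
    have : p * m ≤ X := by rw [← hm]; exact huX
    exact_mod_cast this
  have hmM : (m : ℝ) ≤ M := by
    by_contra h
    have h2 : M < m := not_le.mp h
    have h3 : T * M < p * m := by
      have hT0 : 0 ≤ T := by linarith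
      nlinarith
    linarith
  refine ⟨p, m, hp, hm, ?_, hmM, hm0⟩
  rw [Nat.Prime.coprime_iff_not_dvd hp]
  intro hdvd
  have h4 : p ≤ m := Nat.le_of_dvd hm0 hdvd
  have h5 : (p : ℝ) ≤ m := by exact_mod_cast h4
  linarith

/-- The data attached to a number. -/
structure Dec (z X : ℕ) (N0 Low : ℝ) (u a N : ℕ) : Prop where
  pos : 0 < u
  le : u ≤ X
  low : Low ≤ (u : ℝ)
  eq : u = a * N
  cop : Nat.Coprime a N
  good : GoodSq z a
  Npos : 0 < N
  Nle : (N : ℝ) ≤ N0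

lemma Dec.a_ge {z X : ℕ} {N0 Low : ℝ} {u a N : ℕ} (h : Dec z X N0 Low u a N) {B : ℝ}
    (hBL : B * N0 ≤ Low) (hN0 : 0 < N0) : B ≤ (a : ℝ) := by
  have h1 : (u : ℝ) = a * N := by exact_mod_cast h.eq
  have h2 : B * N0 ≤ (a : ℝ) * N0 := by
    calc B * N0 ≤ Low := hBL
      _ ≤ u := h.low
      _ = a * N := h1
      _ ≤ a * N0 := mul_le_mul_of_nonneg_left h.Nle (Nat.cast_nonneg a)
  exact le_of_mul_le_mul_right h2 hN0

lemma case_two {z X : ℕ} {N0 Low U U' A2 B M : ℝ} {u v au Nu : ℕ}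
    (hσ : sigma 3 u = sigma 3 v) (hu : Dec z X N0 Low u au Nu) (hv0 : 0 < v) (hvX : v ≤ X)
    (hN0 : 0 < N0) (hA2 : 1 ≤ A2) (hA2L : A2 * N0 ≤ Low) (hXU : (X : ℝ) ≤ U * M) (hM0 : 0 ≤ M)
    (hMU : M < U) (hU'B : U' ≤ B) (hAB : A2 ^ 2 ≤ B) (hbv : Big U v) (hbu : ¬ Big U' u) :
    TypeTwo z A2 B M v := by
  obtain ⟨q, m, hq, hvq, hqm, hmM, hm0⟩ := big_split hv0 hvX hXU hM0 hMU hbv
  have hau : A2 ≤ (au : ℝ) := hu.a_ge hA2L hN0
  obtain ⟨a, hadvd, hAa, hmin⟩ := exists_min_divisor au hu.good.pos A2 hau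
  have ha : GoodSq z a := hu.good.of_dvd hadvd
  refine ⟨a, q, m, ha, hAa, ?_, hq, hvq, hmM, ?_⟩
  · -- a ≤ B
    by_cases h1 : a = 1
    · rw [h1]
      push_cast
      nlinarith
    obtain ⟨p, hp, m', hm'0, hm'a, ham'⟩ := exists_prime_mul ha.pos h1
    have hpa : p ∣ a := Dvd.intro _ ham'.symm
    by_cases hpe : p = a
    · have : ¬ U' < (a : ℝ) := by
        intro h
        apply hbu
        refine ⟨a, hpe ▸ hp, ?_, h⟩
        exact (hadvd.trans (Dvd.intro _ hu.eq.symm))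
      linarith [not_lt.mp this]
    · have hplt : p < a := lt_of_le_of_ne (Nat.le_of_dvd ha.pos hpa) hpe
      have hp2 : (p : ℝ) < A2 := by
        by_contra h
        have := hmin p (hpa.trans hadvd) (not_lt.mp h)
        omega
      have hm2 : (m' : ℝ) < A2 := by
        by_contra h
        have := hmin m' ((Dvd.intro_left _ ham'.symm).trans hadvd) (not_lt.mp h)
        omega
      have h3 : (a : ℝ) = p * m' := by exact_mod_cast ham'
      rw [h3]
      have hp0 : (0 : ℝ) ≤ p := Nat.cast_nonneg p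
      have hm0' : (0 : ℝ) ≤ m' := Nat.cast_nonneg m'
      calc (p : ℝ) * m' ≤ A2 * A2 := mul_le_mul hp2.le hm2.le hm0' (by linarith)
        _ = A2 ^ 2 := by ring
        _ ≤ B := hAB
  · -- divisibility
    have h1 : DD z a ∣ sigma 3 u := by
      have h2 : sigma 3 a ∣ sigma 3 u := by
        rw [hu.eq]
        exact sigma_dvd_of_dvd hu.good.1 hu.cop hadvd
      exact (DD_dvd_sigma z ha.1).trans h2
    rw [hσ, hvq, isMultiplicative_sigma.map_mul_of_coprime hqm, sigma_three_prime hq] at h1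
    have hg : 0 < Nat.gcd (DD z a) (sigma 3 m) := Nat.gcd_pos_of_pos_left _ (DD_pos z a)
    have h3 : DD z a / Nat.gcd (DD z a) (sigma 3 m) ∣
        (q ^ 3 + 1) * (sigma 3 m / Nat.gcd (DD z a) (sigma 3 m)) := by
      rw [← Nat.mul_div_assoc _ (Nat.gcd_dvd_right _ _)]
      exact Nat.div_dvd_div (Nat.gcd_dvd_left _ _) h1
    exact (Nat.coprime_div_gcd_div_gcd hg).dvd_of_dvd_mul_right h3

lemma case_one {z X J : ℕ} {N0 Low U A δ : ℝ} {u v au Nu av Nv a a' : ℕ} (hz : 9 ≤ z)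
    (hadj : Adj u v) (hσ : sigma 3 u = sigma 3 v) (hu : Dec z X N0 Low u au Nu)
    (hv : Dec z X N0 Low v av Nv) (hN0 : 1 ≤ N0) (hNA : N0 ^ 4 ≤ A)
    (hU1 : 1 ≤ U) (hXU : (X : ℝ) ^ 2 ≤ U ^ 3) (hAU : A ^ 4 * U ≤ X) (hlow : N0 * A * U < Low)
    (hJ : 1 ≤ J) (hJX : (X : ℝ) < (A ^ 4) ^ (J + 1)) (hδ0 : 0 ≤ δ) (hδ : δ * (2 * J) ≤ 1)
    (hbv : ¬ Big U v)
    (haau : a ∣ au) (hAa : A ≤ (a : ℝ))
    (ha'v : a' ∣ av) (hmin' : ∀ e : ℕ, e ∣ av → A ≤ (e : ℝ) → a' ≤ e) (haa' : a ≤ a') :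
    TypeOne z X A δ u v := by
  classical
  have hA1 : 1 ≤ A := (one_le_pow₀ hN0).trans hNA
  have ha : GoodSq z a := hu.good.of_dvd haau
  have har : (1 : ℝ) ≤ a := by exact_mod_cast ha.pos
  have har0 : (0 : ℝ) < a := by linarith
  have hau : a ∣ u := haau.trans (Dvd.intro _ hu.eq.symm)
  have hD0 := DD_pos z a
  have hDsq : (a : ℝ) ^ 2 ≤ (DD z a : ℝ) := by exact_mod_cast sq_le_DD ha
  have hDv : DD z a ∣ sigma 3 v := by
    rw [← hσ]
    refine (DD_dvd_sigma z ha.1).trans ?_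
    rw [hu.eq]
    exact sigma_dvd_of_dvd hu.good.1 hu.cop haau
  have hprv : ∀ p : ℕ, p.Prime → p ∣ v → (p : ℝ) ≤ U := by
    intro p hp hpv
    by_contra h
    exact hbv ⟨p, hp, hpv, not_le.mp h⟩
  have havv : av ∣ v := Dvd.intro _ hv.eq.symm
  have havX : av ≤ X := (Nat.le_of_dvd hv.pos havv).trans hv.le
  have hgN : (Nat.gcd (DD z a) (sigma 3 Nv) : ℝ) ≤ N0 ^ 4 := by
    have h1 : Nat.gcd (DD z a) (sigma 3 Nv) ≤ Nv ^ 4 :=
      (Nat.le_of_dvd (sigma_pos 3 Nv hv.Npos.ne') (Nat.gcd_dvd_right _ _)).trans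
        (sigma_le_pow_succ 3 Nv)
    have h2 : (Nat.gcd (DD z a) (sigma 3 Nv) : ℝ) ≤ (Nv : ℝ) ^ 4 := by exact_mod_cast h1
    exact h2.trans (pow_le_pow_left₀ (Nat.cast_nonneg _) hv.Nle 4)
  have hδhalf : δ ≤ 1 / 2 := by
    have hJr : (1 : ℝ) ≤ J := by exact_mod_cast hJ
    nlinarith
  have hsqrt : ((a : ℝ) ^ (1 / 2 : ℝ)) ^ 2 = a := by
    rw [← Real.rpow_natCast, ← Real.rpow_mul har0.le]
    norm_num
  by_cases hcase : (a : ℝ) ≤ A ^ 4
  · -- small `a`: split `av`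
    obtain ⟨b1, b2, hb, hb1, hb2⟩ := split_two hv.good.pos havX hU1 hXU
      (fun p hp hpa => hprv p hp (hpa.trans havv))
    have hcop12 : Nat.Coprime b1 b2 := Nat.coprime_of_squarefree_mul (hb ▸ hv.good.1)
    have h1 : sigma 3 v = sigma 3 Nv * (sigma 3 b1 * sigma 3 b2) := by
      rw [hv.eq, isMultiplicative_sigma.map_mul_of_coprime hv.cop, hb,
        isMultiplicative_sigma.map_mul_of_coprime hcop12]
      ring
    rw [h1] at hDv
    set g1 := Nat.gcd (DD z a) (sigma 3 b1) with hg1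
    set g2 := Nat.gcd (DD z a) (sigma 3 b2) with hg2
    have h2 := le_gcd_mul_gcd hD0 hDv
    have h3 : Nat.gcd (DD z a) (sigma 3 b1 * sigma 3 b2) ≤ g1 * g2 := by
      apply Nat.le_of_dvd
      · exact Nat.mul_pos (Nat.gcd_pos_of_pos_left _ hD0) (Nat.gcd_pos_of_pos_left _ hD0)
      · exact Nat.gcd_mul_right_dvd_mul_gcd _ _ _
    have h4 : (DD z a : ℝ) ≤ (Nat.gcd (DD z a) (sigma 3 Nv) : ℝ) * ((g1 : ℝ) * g2) := by
      have : DD z a ≤ Nat.gcd (DD z a) (sigma 3 Nv) * (g1 * g2) :=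
        h2.trans (Nat.mul_le_mul_left _ h3)
      exact_mod_cast this
    have h5 : (a : ℝ) ≤ (g1 : ℝ) * g2 := by
      have h6 : (Nat.gcd (DD z a) (sigma 3 Nv) : ℝ) ≤ a := hgN.trans (hNA.trans hAa)
      have h7 : (a : ℝ) ^ 2 ≤ a * ((g1 : ℝ) * g2) := by
        refine hDsq.trans (h4.trans ?_)
        exact mul_le_mul_of_nonneg_right h6 (by positivity)
      have h8 : (a : ℝ) * a ≤ a * ((g1 : ℝ) * g2) := by nlinarith
      exact le_of_mul_le_mul_left h8 har0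
    have hfin : ∀ b g : ℕ, b ∣ av → (b : ℝ) ≤ U → g = Nat.gcd (DD z a) (sigma 3 b) →
        (a : ℝ) ^ (1 / 2 : ℝ) ≤ g → TypeOne z X A δ u v := by
      intro b g hbav hbU hg hag
      refine ⟨a, b, g, ha, hAa, hau, hv.good.1.squarefree_of_dvd hbav, hbav.trans havv,
        adj_coprime hz hadj ha hau (hbav.trans havv), ?_, ?_, ?_, ?_⟩
      · have h9 : (a : ℝ) * b ≤ X := by
          calc (a : ℝ) * b ≤ A ^ 4 * U := mul_le_mul hcase hbU (Nat.cast_nonneg _) (by positivity)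
            _ ≤ X := hAU
        exact_mod_cast h9
      · rw [hg]; exact Nat.gcd_dvd_left _ _
      · rw [hg]; exact Nat.gcd_dvd_right _ _
      · exact (Real.rpow_le_rpow_of_exponent_le har hδhalf).trans hag
    by_cases h10 : (a : ℝ) ^ (1 / 2 : ℝ) ≤ g1
    · exact hfin b1 g1 (hb ▸ Dvd.intro _ rfl) hb1 hg1 h10
    · by_cases h11 : (a : ℝ) ^ (1 / 2 : ℝ) ≤ g2
      · exact hfin b2 g2 (hb ▸ Dvd.intro_left _ rfl) hb2 hg2 h11
      · exfalso
        have h12 := not_le.mp h10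
        have h13 := not_le.mp h11
        have h14 : (g1 : ℝ) * g2 < (a : ℝ) ^ (1 / 2 : ℝ) * (a : ℝ) ^ (1 / 2 : ℝ) :=
          mul_lt_mul'' h12 h13 (Nat.cast_nonneg _) (Nat.cast_nonneg _)
        rw [← sq, hsqrt] at h14
        linarith
  · -- large `a`
    have hcase' : A ^ 4 < (a : ℝ) := not_le.mp hcase
    set T1 := av.primeFactors.filter (fun p : ℕ => (p : ℝ) < A) with hT1
    set T2 := av.primeFactors.filter (fun p : ℕ => ¬ (p : ℝ) < A) with hT2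
    have hprod : (∏ p ∈ T1, p) * (∏ p ∈ T2, p) = av := by
      rw [hT1, hT2, prod_filter_mul_prod_filter_not]
      exact Nat.prod_primeFactors_of_squarefree hv.good.1
    have hT1p : ∀ p ∈ T1, p.Prime := fun p hp => Nat.prime_of_mem_primeFactors (mem_filter.mp hp).1
    have hT2p : ∀ p ∈ T2, p.Prime := fun p hp => Nat.prime_of_mem_primeFactors (mem_filter.mp hp).1
    set b0 := ∏ p ∈ T1, p with hb0
    have hb0pos : 0 < b0 := prod_pos (fun p hp => (hT1p p hp).pos)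
    have hA24 : A ^ 2 ≤ A ^ 4 := pow_le_pow_right₀ hA1 (by norm_num)
    have hb0av : b0 ∣ av := Dvd.intro _ hprod
    have hb0A : (b0 : ℝ) < A := by
      by_contra hcon
      obtain ⟨e, he, hAe, hemin⟩ := exists_min_divisor b0 hb0pos A (not_lt.mp hcon)
      have he0 : 0 < e := Nat.pos_of_dvd_of_pos he hb0pos
      have hlt : (e : ℝ) ≤ A ^ 2 := by
        by_cases h1 : e = 1
        · rw [h1]; push_cast; nlinarith
        obtain ⟨p, hp, m', hm'0, hm'e, hem'⟩ := exists_prime_mul he0 h1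
        have hpe : p ∣ e := Dvd.intro _ hem'.symm
        have hpb0 : p ∣ b0 := hpe.trans he
        have hpA : (p : ℝ) < A := by
          rw [hb0] at hpb0
          obtain ⟨r, hr, hpr⟩ := (hp.prime.dvd_finsetProd_iff _).mp hpb0
          have : p = r := (Nat.prime_dvd_prime_iff_eq hp (hT1p r hr)).mp hpr
          rw [this]
          exact (mem_filter.mp hr).2
        have hmA : (m' : ℝ) < A := by
          by_contra h
          have := hemin m' ((Dvd.intro_left _ hem'.symm).trans he) (not_lt.mp h)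
          omega
        have h3 : (e : ℝ) = p * m' := by exact_mod_cast hem'
        rw [h3]
        calc (p : ℝ) * m' ≤ A * A := mul_le_mul hpA.le hmA.le (Nat.cast_nonneg _) (by linarith)
          _ = A ^ 2 := by ring
      have h4 := hmin' e (he.trans hb0av) hAe
      have h5 : (a : ℝ) ≤ e := by exact_mod_cast haa'.trans h4
      linarith
    have hT2ge : ∀ p ∈ T2, a ≤ p := by
      intro p hp
      have h1 := mem_filter.mp hp
      exact haa'.trans (hmin' p (Nat.dvd_of_mem_primeFactors h1.1) (not_lt.mp h1.2))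
    have hcard : T2.card ≤ J := by
      by_contra hcon
      have h1 : J + 1 ≤ T2.card := by omega
      have h2 : a ^ T2.card ≤ ∏ p ∈ T2, p := by
        rw [← prod_const]
        exact prod_le_prod' hT2ge
      have h3 : ∏ p ∈ T2, p ≤ X := by
        have : ∏ p ∈ T2, p ∣ av := Dvd.intro_left _ hprod
        exact (Nat.le_of_dvd hv.good.pos this).trans havX
      have h4 : (a : ℝ) ^ T2.card ≤ X := by exact_mod_cast h2.trans h3
      have h5 : (A ^ 4) ^ (J + 1) ≤ (a : ℝ) ^ (J + 1) :=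
        pow_le_pow_left₀ (by positivity) hcase'.le _
      have h6 : (a : ℝ) ^ (J + 1) ≤ (a : ℝ) ^ T2.card := pow_le_pow_right₀ har h1
      linarith
    have hcard2 : 2 ≤ T2.card := by
      by_contra hcon
      have h1 : T2.card ≤ 1 := by omega
      have h2 : ((∏ p ∈ T2, p : ℕ) : ℝ) ≤ U := by
        rcases Nat.lt_or_ge T2.card 1 with h0 | h0
        · have : T2 = ∅ := card_eq_zero.mp (by omega)
          rw [this]
          simpa using hU1
        · obtain ⟨p, hp⟩ := card_eq_one.mp (le_antisymm h1 h0)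
          rw [hp, prod_singleton]
          have hpT : p ∈ T2 := by rw [hp]; exact mem_singleton_self p
          exact hprv p (hT2p p hpT)
            ((Nat.dvd_of_mem_primeFactors (mem_filter.mp hpT).1).trans havv)
      have h3 : (v : ℝ) = (b0 : ℝ) * ((∏ p ∈ T2, p : ℕ) : ℝ) * Nv := by
        have h30 : v = b0 * (∏ p ∈ T2, p) * Nv := by rw [hprod]; exact hv.eq
        exact_mod_cast h30
      have h4 : (v : ℝ) ≤ A * U * N0 := by
        rw [h3]
        apply mul_le_mul _ hv.Nle (Nat.cast_nonneg _) (by positivity)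
        exact mul_le_mul hb0A.le h2 (Nat.cast_nonneg _) (by linarith)
      have h5 := hv.low
      nlinarith
    have hne : T2.Nonempty := card_pos.mp (by omega)
    have hcop : Nat.Coprime b0 (∏ p ∈ T2, p) :=
      Nat.coprime_of_squarefree_mul (hprod ▸ hv.good.1)
    have h1 : sigma 3 v = sigma 3 Nv * (sigma 3 b0 * ∏ q ∈ T2, (q ^ 3 + 1)) := by
      rw [hv.eq, isMultiplicative_sigma.map_mul_of_coprime hv.cop]
      conv_lhs => rw [← hprod]
      rw [isMultiplicative_sigma.map_mul_of_coprime hcop, sigma_three_prod T2 hT2p]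
      ring
    rw [h1] at hDv
    have h2 := le_gcd_mul_gcd hD0 hDv
    have h3 : Nat.gcd (DD z a) (sigma 3 b0 * ∏ q ∈ T2, (q ^ 3 + 1))
        ≤ Nat.gcd (DD z a) (sigma 3 b0) * ∏ q ∈ T2, Nat.gcd (DD z a) (q ^ 3 + 1) := by
      apply Nat.le_of_dvd
      · exact Nat.mul_pos (Nat.gcd_pos_of_pos_left _ hD0)
          (prod_pos (fun q _ => Nat.gcd_pos_of_pos_left _ hD0))
      · exact (Nat.gcd_mul_right_dvd_mul_gcd _ _ _).trans
          (Nat.mul_dvd_mul_left _ (gcd_prod_dvd _ _ _))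
    have hgb0 : (Nat.gcd (DD z a) (sigma 3 b0) : ℝ) ≤ A ^ 4 := by
      have h4 : Nat.gcd (DD z a) (sigma 3 b0) ≤ b0 ^ 4 :=
        (Nat.le_of_dvd (sigma_pos 3 b0 hb0pos.ne') (Nat.gcd_dvd_right _ _)).trans
          (sigma_le_pow_succ 3 b0)
      have h5 : (Nat.gcd (DD z a) (sigma 3 b0) : ℝ) ≤ (b0 : ℝ) ^ 4 := by exact_mod_cast h4
      exact h5.trans (pow_le_pow_left₀ (Nat.cast_nonneg _) hb0A.le 4)
    have h6 : (DD z a : ℝ) ≤ (Nat.gcd (DD z a) (sigma 3 Nv) : ℝ) *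
        ((Nat.gcd (DD z a) (sigma 3 b0) : ℝ) *
          ∏ q ∈ T2, (Nat.gcd (DD z a) (q ^ 3 + 1) : ℝ)) := by
      have := h2.trans (Nat.mul_le_mul_left _ h3)
      exact_mod_cast this
    have hPi0 : (0 : ℝ) ≤ ∏ q ∈ T2, (Nat.gcd (DD z a) (q ^ 3 + 1) : ℝ) :=
      prod_nonneg (fun _ _ => Nat.cast_nonneg _)
    have h7 : (a : ℝ) ^ (1 / 2 : ℝ) ≤ ∏ q ∈ T2, (Nat.gcd (DD z a) (q ^ 3 + 1) : ℝ) := by
      have h8 : (a : ℝ) ^ 2 ≤ A ^ 6 * ∏ q ∈ T2, (Nat.gcd (DD z a) (q ^ 3 + 1) : ℝ) := by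
        refine hDsq.trans (h6.trans ?_)
        calc (Nat.gcd (DD z a) (sigma 3 Nv) : ℝ) * ((Nat.gcd (DD z a) (sigma 3 b0) : ℝ) *
              ∏ q ∈ T2, (Nat.gcd (DD z a) (q ^ 3 + 1) : ℝ))
            ≤ A * (A ^ 4 * ∏ q ∈ T2, (Nat.gcd (DD z a) (q ^ 3 + 1) : ℝ)) := by
              apply mul_le_mul (hgN.trans hNA) _ (by positivity) (by linarith)
              exact mul_le_mul_of_nonneg_right hgb0 hPi0
          _ = A ^ 5 * ∏ q ∈ T2, (Nat.gcd (DD z a) (q ^ 3 + 1) : ℝ) := by ring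
          _ ≤ A ^ 6 * ∏ q ∈ T2, (Nat.gcd (DD z a) (q ^ 3 + 1) : ℝ) := by
              apply mul_le_mul_of_nonneg_right _ hPi0
              exact pow_le_pow_right₀ hA1 (by norm_num)
      set s := (a : ℝ) ^ (1 / 2 : ℝ) with hs
      have hs0 : 0 < s := Real.rpow_pos_of_pos har0 _
      have h9 : A ^ 2 ≤ s := by
        have h10 : (A ^ 2) ^ 2 ≤ s ^ 2 := by
          rw [hsqrt]
          calc (A ^ 2) ^ 2 = A ^ 4 := by ring
            _ ≤ (a : ℝ) := hcase'.le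
        exact le_of_pow_le_pow_left₀ (by norm_num) hs0.le h10
      have h11 : A ^ 6 ≤ s ^ 3 := by
        calc A ^ 6 = (A ^ 2) ^ 3 := by ring
          _ ≤ s ^ 3 := pow_le_pow_left₀ (by positivity) h9 3
      have h12 : s ^ 3 * s ≤ s ^ 3 * ∏ q ∈ T2, (Nat.gcd (DD z a) (q ^ 3 + 1) : ℝ) := by
        have e1 : s ^ 3 * s = (s ^ 2) ^ 2 := by ring
        rw [e1]
        calc (s ^ 2) ^ 2 = (a : ℝ) ^ 2 := by rw [hsqrt]
          _ ≤ A ^ 6 * ∏ q ∈ T2, (Nat.gcd (DD z a) (q ^ 3 + 1) : ℝ) := h8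
          _ ≤ _ := mul_le_mul_of_nonneg_right h11 hPi0
      exact le_of_mul_le_mul_left h12 (by positivity)
    -- some factor is large
    have h8 : ∃ q ∈ T2, (a : ℝ) ^ δ ≤ (Nat.gcd (DD z a) (q ^ 3 + 1) : ℝ) := by
      by_contra hcon
      push_neg at hcon
      have h9 : ∏ q ∈ T2, (Nat.gcd (DD z a) (q ^ 3 + 1) : ℝ) < ∏ q ∈ T2, (a : ℝ) ^ δ := by
        apply prod_lt_prod_of_nonempty
        · intro q _
          exact_mod_cast Nat.gcd_pos_of_pos_left _ hD0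
        · exact hcon
        · exact hne
      rw [prod_const] at h9
      have h10 : ((a : ℝ) ^ δ) ^ T2.card ≤ (a : ℝ) ^ (1 / 2 : ℝ) := by
        rw [← Real.rpow_natCast, ← Real.rpow_mul har0.le]
        apply Real.rpow_le_rpow_of_exponent_le har
        have h11 : (T2.card : ℝ) ≤ J := by exact_mod_cast hcard
        nlinarith
      linarith
    obtain ⟨q, hq, hqd⟩ := h8
    have hqp := hT2p q hq
    have hqav : q ∣ av := Nat.dvd_of_mem_primeFactors (mem_filter.mp hq).1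
    refine ⟨a, q, Nat.gcd (DD z a) (q ^ 3 + 1), ha, hAa, hau, hqp.prime.squarefree,
      hqav.trans havv, adj_coprime hz hadj ha hau (hqav.trans havv), ?_, Nat.gcd_dvd_left _ _,
      ?_, hqd⟩
    · obtain ⟨q', hq', hqq'⟩ := exists_mem_ne (by omega : 1 < T2.card) q
      have h9 : q' * q ∣ av := by
        apply Nat.Coprime.mul_dvd_of_dvd_of_dvd
        · exact (Nat.coprime_primes (hT2p q' hq') hqp).mpr hqq'
        · exact Nat.dvd_of_mem_primeFactors (mem_filter.mp hq').1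
        · exact hqav
      calc a * q ≤ q' * q := Nat.mul_le_mul_right q (hT2ge q' hq')
        _ ≤ av := Nat.le_of_dvd hv.good.pos h9
        _ ≤ X := havX
    · rw [sigma_three_prime hqp]
      exact Nat.gcd_dvd_right _ _

theorem classify {z X J : ℕ} {N0 Low U U' A A2 B M M' δ : ℝ} {u v au Nu av Nv : ℕ} (hz : 9 ≤ z)
    (hadj : Adj u v) (hσ : sigma 3 u = sigma 3 v) (hu : Dec z X N0 Low u au Nu)
    (hv : Dec z X N0 Low v av Nv) (hN0 : 1 ≤ N0) (hNA : N0 ^ 4 ≤ A) (hA2 : 1 ≤ A2)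
    (hA2L : A2 * N0 ≤ Low) (hAL : A * N0 ≤ Low)
    (hU1 : 1 ≤ U) (hUU : U' ≤ U) (hXM : (X : ℝ) ≤ U * M) (hM0 : 0 ≤ M) (hMU : M < U)
    (hXM' : (X : ℝ) ≤ U' * M') (hM0' : 0 ≤ M') (hMU' : M' < U') (hU'B : U' ≤ B)
    (hAB : A2 ^ 2 ≤ B) (hXU : (X : ℝ) ^ 2 ≤ U ^ 3) (hAU : A ^ 4 * U ≤ X)
    (hlow : N0 * A * U < Low) (hJ : 1 ≤ J) (hJX : (X : ℝ) < (A ^ 4) ^ (J + 1)) (hδ0 : 0 ≤ δ)
    (hδ : δ * (2 * J) ≤ 1) :
    TypeZero M' u v ∨ TypeTwo z A2 B M v ∨ TypeTwo z A2 B M u ∨ TypeOne z X A δ u v ∨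
      TypeOne z X A δ v u := by
  have hA1 : 1 ≤ A := (one_le_pow₀ hN0).trans hNA
  have hN0' : 0 < N0 := by linarith
  have hbig : ∀ w : ℕ, Big U w → Big U' w := by
    rintro w ⟨p, hp, hpw, h⟩
    exact ⟨p, hp, hpw, by linarith⟩
  by_cases hbv : Big U v
  · by_cases hbu : Big U' u
    · left
      obtain ⟨p, m, hp, h1, h2, h3, _⟩ := big_split hu.pos hu.le hXM' hM0' hMU' hbu
      obtain ⟨q, m', hq, h4, h5, h6, _⟩ := big_split hv.pos hv.le hXM' hM0' hMU' (hbig v hbv)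
      exact ⟨p, m, q, m', hp, hq, h1, h4, h2, h5, h3, h6⟩
    · right; left
      exact case_two hσ hu hv.pos hv.le hN0' hA2 hA2L hXM hM0 hMU hU'B hAB hbv hbu
  · by_cases hbu : Big U u
    · by_cases hbv' : Big U' v
      · left
        obtain ⟨p, m, hp, h1, h2, h3, _⟩ := big_split hu.pos hu.le hXM' hM0' hMU' (hbig u hbu)
        obtain ⟨q, m', hq, h4, h5, h6, _⟩ := big_split hv.pos hv.le hXM' hM0' hMU' hbv'
        exact ⟨p, m, q, m', hp, hq, h1, h4, h2, h5, h3, h6⟩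
      · right; right; left
        exact case_two hσ.symm hv hu.pos hu.le hN0' hA2 hA2L hXM hM0 hMU hU'B hAB hbu hbv'
    · right; right; right
      have hau : A ≤ (au : ℝ) := hu.a_ge hAL hN0'
      have hav : A ≤ (av : ℝ) := hv.a_ge hAL hN0'
      obtain ⟨a, ha, hAa, hmin⟩ := exists_min_divisor au hu.good.pos A hau
      obtain ⟨a', ha', hAa', hmin'⟩ := exists_min_divisor av hv.good.pos A hav
      rcases le_total a a' with h | h
      · left
        exact case_one hz hadj hσ hu hv hN0 hNA hU1 hXU hAU hlow hJ hJX hδ0 hδ hbv ha hAa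
          ha' hmin' h
      · right
        exact case_one hz hadj.symm hσ.symm hv hu hN0 hNA hU1 hXU hAU hlow hJ hJX hδ0 hδ hbu
          ha' hAa' ha hmin h

end Pool.Agent.Sig3
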