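import Pool.Agent.Helper46_Sig3.Classify

/-!
# The counting bound with explicit parameters
-/

open Finset ArithmeticFunction

namespace Pool.Agent.Sig3

/-- The solutions `n ≤ X - 2`. -/
def sols (X : ℕ) : Finset ℕ := (Icc 1 (X - 2)).filter (fun n => sigma 3 n = sigma 3 (n + 2))

lemma mem_sols {X n : ℕ} : n ∈ sols X ↔ (1 ≤ n ∧ n ≤ X - 2) ∧ sigma 3 n = sigma 3 (n + 2) := by
  rw [sols, mem_filter, mem_Icc]

lemma card_real_le_of_subset {ι : Type*} {S T : Finset ι} {c : ℝ} (h : S ⊆ T)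
    (hT : (T.card : ℝ) ≤ c) : (S.card : ℝ) ≤ c :=
  le_trans (by exact_mod_cast card_le_card h) hT

lemma card_real_le_of_inj {ι κ : Type*} {S : Finset ι} {T : Finset κ} {c : ℝ} (f : ι → κ)
    (hf : ∀ a ∈ S, f a ∈ T) (hinj : ∀ a ∈ S, ∀ b ∈ S, f a = f b → a = b)
    (hT : (T.card : ℝ) ≤ c) : (S.card : ℝ) ≤ c := by
  have h1 : S.card ≤ T.card := card_le_card_of_injOn f hf (fun a ha b hb h => hinj a ha b hb h)
  exact le_trans (by exact_mod_cast h1) hT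

lemma rpow_pow' {x : ℝ} (hx : 0 ≤ x) (a : ℝ) (n : ℕ) : (x ^ a) ^ n = x ^ (a * n) := by
  rw [← Real.rpow_natCast, ← Real.rpow_mul hx]

open Classical in
theorem count_le (X z : ℕ) (hX : 2 ≤ X)
    (hz : ((18 * (3 + Real.log X)) * (6 * Real.log X)) ^ 12 ≤ (z : ℝ)) (hz9 : 9 ≤ z)
    (hz3 : 3 ^ 160 ≤ z) (s Sb Pr : ℝ) (hs : 0 < s)
    (hSb : ∑ p ∈ badP z X, (p : ℝ) ^ (-1 + s) ≤ Sb)
    (hPr : ∏ r ∈ PP X, (1 + (1 : ℝ) / r) ≤ Pr) :
    ((sols X).card : ℝ) ≤ (X : ℝ) ^ (49 / 50 : ℝ) +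
      2 * (3 * X * ((X : ℝ) ^ (1 / 640 : ℝ)) ^ (-(1 / 6) : ℝ)) +
      2 * (X * ((X : ℝ) ^ (1 / 640 : ℝ)) ^ (-s) * Real.exp Sb) +
      6 * ((X : ℝ) ^ (3 / 20 : ℝ)) ^ 2 +
      2 * (2 * (X : ℝ) ^ (1 / 40 : ℝ) * (5 * X * (1 + Real.log X) *
        ((X : ℝ) ^ (2 / 5 : ℝ)) ^ (-(1 / 4) : ℝ) + (X : ℝ) ^ (17 / 20 : ℝ) *
          (X : ℝ) ^ (1 / 20 : ℝ))) +
      2 * (12 * X * Pr * ((X : ℝ) ^ (1 / 80 : ℝ)) ^ (-((1 / 40) / 4) : ℝ) * (1 + Real.log X)) := by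
  have hX1 : 1 ≤ X := by omega
  have hXr : (2 : ℝ) ≤ X := by exact_mod_cast hX
  have hXp : (0 : ℝ) < X := by linarith
  have hXn : (0 : ℝ) ≤ X := hXp.le
  have hX1r : (1 : ℝ) < X := by linarith
  have hlog : 0 < Real.log X := Real.log_pos hX1r
  -- abbreviations
  set Y : ℝ := (X : ℝ) ^ (1 / 640 : ℝ) with hY
  have hY0 : 0 < Y := Real.rpow_pos_of_pos hXp _
  have hY1 : 1 ≤ Y := Real.one_le_rpow hX1r.le (by norm_num)
  set N0 : ℝ := (X : ℝ) ^ (1 / 320 : ℝ) with hN0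
  have hYN : Y * Y = N0 := by
    rw [hY, hN0, ← Real.rpow_add hXp]; norm_num
  set Low : ℝ := (X : ℝ) ^ (49 / 50 : ℝ) with hLow
  set U : ℝ := (X : ℝ) ^ (19 / 20 : ℝ) with hU
  set U' : ℝ := (X : ℝ) ^ (17 / 20 : ℝ) with hU'
  set A : ℝ := (X : ℝ) ^ (1 / 80 : ℝ) with hA
  set A2 : ℝ := (X : ℝ) ^ (2 / 5 : ℝ) with hA2
  set M : ℝ := (X : ℝ) ^ (1 / 20 : ℝ) with hM
  set M' : ℝ := (X : ℝ) ^ (3 / 20 : ℝ) with hM'
  have le1 : ∀ a : ℝ, 0 ≤ a → (1 : ℝ) ≤ (X : ℝ) ^ a := fun a ha => Real.one_le_rpow hX1r.le ha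
  have mono : ∀ a b : ℝ, a ≤ b → (X : ℝ) ^ a ≤ (X : ℝ) ^ b := fun a b hab =>
    Real.rpow_le_rpow_of_exponent_le hX1r.le hab
  have smono : ∀ a b : ℝ, a < b → (X : ℝ) ^ a < (X : ℝ) ^ b := fun a b hab =>
    Real.rpow_lt_rpow_of_exponent_lt hX1r hab
  -- the exceptional sets
  set S := sols X with hS
  set E0 := S.filter (fun n : ℕ => (n : ℝ) < Low) with hE0
  set E1 := S.filter (fun n : ℕ => Y ≤ (sfp n : ℝ)) with hE1
  set E1' := S.filter (fun n : ℕ => Y ≤ (sfp (n + 2) : ℝ)) with hE1'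
  set E2 := S.filter (fun n : ℕ => Y ≤ (bdp z X n : ℝ)) with hE2
  set E2' := S.filter (fun n : ℕ => Y ≤ (bdp z X (n + 2) : ℝ)) with hE2'
  set F0 := S.filter (fun n : ℕ => TypeZero M' n (n + 2)) with hF0
  set F1 := S.filter (fun n : ℕ => TypeTwo z A2 U' M (n + 2)) with hF1
  set F1' := S.filter (fun n : ℕ => TypeTwo z A2 U' M n) with hF1'
  set F2 := S.filter (fun n : ℕ => TypeOne z X A (1 / 40) n (n + 2)) with hF2
  set F2' := S.filter (fun n : ℕ => TypeOne z X A (1 / 40) (n + 2) n) with hF2'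
  have hmemX : ∀ n ∈ S, 1 ≤ n ∧ n + 2 ≤ X ∧ sigma 3 n = sigma 3 (n + 2) := by
    intro n hn
    rw [hS, mem_sols] at hn
    exact ⟨hn.1.1, by omega, hn.2⟩
  have hcov : S ⊆ E0 ∪ (E1 ∪ (E1' ∪ (E2 ∪ (E2' ∪ (F0 ∪ (F1 ∪ (F1' ∪ (F2 ∪ F2')))))))) := by
    intro n hn
    obtain ⟨hn1, hn2, hσ⟩ := hmemX n hn
    simp only [mem_union, hE0, hE1, hE1', hE2, hE2', hF0, hF1, hF1', hF2, hF2', mem_filter, hn,
      true_and]
    by_cases h0 : (n : ℝ) < Low
    · exact Or.inl h0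
    by_cases h1 : Y ≤ (sfp n : ℝ)
    · exact Or.inr (Or.inl h1)
    by_cases h1' : Y ≤ (sfp (n + 2) : ℝ)
    · exact Or.inr (Or.inr (Or.inl h1'))
    by_cases h2 : Y ≤ (bdp z X n : ℝ)
    · exact Or.inr (Or.inr (Or.inr (Or.inl h2)))
    by_cases h2' : Y ≤ (bdp z X (n + 2) : ℝ)
    · exact Or.inr (Or.inr (Or.inr (Or.inr (Or.inl h2'))))
    refine Or.inr (Or.inr (Or.inr (Or.inr (Or.inr ?_))))
    have hdec : ∀ w : ℕ, 0 < w → w ≤ X → Low ≤ (w : ℝ) → ¬ Y ≤ (sfp w : ℝ) →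
        ¬ Y ≤ (bdp z X w : ℝ) → ∃ a N, Dec z X N0 Low w a N := by
      intro w hw hwX hwL hw1 hw2
      obtain ⟨a, N, h3, h4, h5, h6, h7⟩ := exists_dec z X w hw hwX
      refine ⟨a, N, hw, hwX, hwL, h3, h4, h5, h6, ?_⟩
      have h8 : (N : ℝ) ≤ (sfp w : ℝ) * (bdp z X w : ℝ) := by exact_mod_cast h7
      rw [← hYN]
      exact h8.trans (mul_le_mul (not_le.mp hw1).le (not_le.mp hw2).le (Nat.cast_nonneg _) hY0.le)
    obtain ⟨au, Nu, hu⟩ := hdec n (by omega) (by omega) (not_lt.mp h0) h1 h2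
    obtain ⟨av, Nv, hv⟩ := hdec (n + 2) (by omega) hn2
      ((not_lt.mp h0).trans (by exact_mod_cast (by omega : n ≤ n + 2))) h1' h2'
    exact classify (J := 20) (U := U) (U' := U') (A := A) (A2 := A2) (B := U') (M := M)
      (M' := M') (δ := 1 / 40) hz9 (Or.inl rfl) hσ hu hv (le1 _ (by norm_num))
      (by rw [hN0, hA, rpow_pow' hXn]; exact mono _ _ (by norm_num))
      (le1 _ (by norm_num))
      (by rw [hA2, hN0, hLow, ← Real.rpow_add hXp]; exact mono _ _ (by norm_num))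
      (by rw [hA, hN0, hLow, ← Real.rpow_add hXp]; exact mono _ _ (by norm_num))
      (le1 _ (by norm_num)) (mono _ _ (by norm_num))
      (by
        rw [hU, hM, ← Real.rpow_add hXp]
        norm_num)
      (Real.rpow_nonneg hXn _) (smono _ _ (by norm_num))
      (by
        rw [hU', hM', ← Real.rpow_add hXp]
        norm_num)
      (Real.rpow_nonneg hXn _) (smono _ _ (by norm_num)) (le_refl _)
      (by rw [hA2, hU', rpow_pow' hXn]; exact mono _ _ (by norm_num))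
      (by
        rw [hU, rpow_pow' hXn, ← Real.rpow_natCast]
        exact mono _ _ (by norm_num))
      (by
        rw [hA, hU, rpow_pow' hXn, ← Real.rpow_add hXp]
        norm_num)
      (by
        rw [hN0, hA, hU, hLow, ← Real.rpow_add hXp, ← Real.rpow_add hXp]
        exact smono _ _ (by norm_num))
      (by norm_num)
      (by
        rw [hA, rpow_pow' hXn, rpow_pow' hXn]
        conv_lhs => rw [← Real.rpow_one (X : ℝ)]
        exact smono _ _ (by norm_num))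
      (by norm_num) (by norm_num)
  -- bounds of the pieces
  have hSX : ∀ n ∈ S, n ∈ Icc 1 X ∧ n + 2 ∈ Icc 1 X := by
    intro n hn
    obtain ⟨h1, h2, _⟩ := hmemX n hn
    rw [mem_Icc, mem_Icc]
    omega
  have hprs : ∀ n ∈ S, (n, n + 2) ∈ prs X ∧ (n + 2, n) ∈ prs X := by
    intro n hn
    obtain ⟨h1, h2⟩ := hSX n hn
    rw [prs, mem_product, mem_product]
    exact ⟨⟨h1, h2⟩, h2, h1⟩
  have hLow0 : 0 ≤ Low := Real.rpow_nonneg hXn _
  have bE0 : (E0.card : ℝ) ≤ Low := by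
    apply card_real_le_of_subset (T := Icc 1 ⌊Low⌋₊)
    · intro n hn
      rw [hE0, mem_filter] at hn
      rw [mem_Icc]
      exact ⟨(hmemX n hn.1).1, Nat.le_floor hn.2.le⟩
    · rw [Nat.card_Icc, Nat.add_sub_cancel]
      exact Nat.floor_le hLow0
  have bs := card_sfp_large X Y hY0
  have bE1 : (E1.card : ℝ) ≤ 3 * X * Y ^ (-(1 / 6) : ℝ) := by
    apply card_real_le_of_subset _ bs
    intro n hn
    rw [hE1, mem_filter] at hn
    rw [mem_filter]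
    exact ⟨(hSX n hn.1).1, hn.2⟩
  have bE1' : (E1'.card : ℝ) ≤ 3 * X * Y ^ (-(1 / 6) : ℝ) := by
    apply card_real_le_of_inj (fun n => n + 2) _ (fun a _ b _ h => by omega) bs
    intro n hn
    rw [hE1', mem_filter] at hn
    rw [mem_filter]
    exact ⟨(hSX n hn.1).2, hn.2⟩
  have bb0 : (((Icc 1 X).filter (fun u => Y ≤ (bdp z X u : ℝ))).card : ℝ)
      ≤ X * Y ^ (-s) * Real.exp Sb := by
    have h1 := card_large_part (badP z X) (fun p hp => badP_prime hp) X Y s hY0 hs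
    refine le_trans ?_ (h1.trans ?_)
    · apply le_of_eq
      congr 2
    · apply mul_le_mul_of_nonneg_left (Real.exp_le_exp.mpr hSb)
      have := Real.rpow_nonneg hY0.le (-s)
      positivity
  have bE2 : (E2.card : ℝ) ≤ X * Y ^ (-s) * Real.exp Sb := by
    apply card_real_le_of_subset _ bb0
    intro n hn
    rw [hE2, mem_filter] at hn
    rw [mem_filter]
    exact ⟨(hSX n hn.1).1, hn.2⟩
  have bE2' : (E2'.card : ℝ) ≤ X * Y ^ (-s) * Real.exp Sb := by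
    apply card_real_le_of_inj (fun n => n + 2) _ (fun a _ b _ h => by omega) bb0
    intro n hn
    rw [hE2', mem_filter] at hn
    rw [mem_filter]
    exact ⟨(hSX n hn.1).2, hn.2⟩
  have bF0 : (F0.card : ℝ) ≤ 6 * M' ^ 2 := by
    apply card_real_le_of_inj (fun n => (n, n + 2)) _ (fun a _ b _ h => (Prod.mk.inj h).1)
      (typeZero_card X M' (Real.rpow_nonneg hXn _))
    intro n hn
    rw [hF0, mem_filter] at hn
    rw [mem_filter]
    exact ⟨(hprs n hn.1).1, Or.inl rfl, (hmemX n hn.1).2.2, hn.2⟩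
  have hR : ∀ e : ℕ, 0 < e → (∀ q : ℕ, q.Prime → q ∣ e → z < q) → e ≤ X ^ 4 →
      (3 : ℝ) ^ (cardFactors e) ≤ (X : ℝ) ^ (1 / 40 : ℝ) := by
    intro e he hq heX
    have h1 := pow_cardFactors_le e he hq
    have h2 : ((3 : ℝ) ^ (cardFactors e)) ^ 160 ≤ (X : ℝ) ^ 4 := by
      have h3 : (3 ^ 160) ^ (cardFactors e) ≤ X ^ 4 :=
        (Nat.pow_le_pow_left hz3 _).trans (h1.trans heX)
      have h4 : (3 ^ (cardFactors e)) ^ 160 ≤ X ^ 4 := by
        rw [← pow_mul, mul_comm, pow_mul]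
        exact h3
      exact_mod_cast h4
    have h5 := Real.rpow_le_rpow (by positivity) h2 (show (0 : ℝ) ≤ 1 / 160 by norm_num)
    rw [← Real.rpow_natCast _ 160, ← Real.rpow_mul (by positivity), ← Real.rpow_natCast _ 4,
      ← Real.rpow_mul hXn] at h5
    norm_num at h5
    exact h5
  have hT2 := typeTwo_card (z := z) hX1 A2 U' M ((X : ℝ) ^ (1 / 40 : ℝ)) (le1 _ (by norm_num))
    (Real.rpow_nonneg hXn _) (Real.rpow_nonneg hXn _)
    (by rw [hM, hA2, rpow_pow' hXn]; exact mono _ _ (by norm_num))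
    (by
      rw [hU']
      conv_rhs => rw [← Real.rpow_one (X : ℝ)]
      exact mono _ _ (by norm_num)) hR
  have bF1 : (F1.card : ℝ) ≤ 2 * (X : ℝ) ^ (1 / 40 : ℝ) * (5 * X * (1 + Real.log X) *
      A2 ^ (-(1 / 4) : ℝ) + U' * M) := by
    apply card_real_le_of_inj (fun n => (n, n + 2)) _ (fun a _ b _ h => (Prod.mk.inj h).1) hT2
    intro n hn
    rw [hF1, mem_filter] at hn
    rw [mem_filter]
    exact ⟨(hprs n hn.1).1, Or.inl rfl, hn.2⟩
  have bF1' : (F1'.card : ℝ) ≤ 2 * (X : ℝ) ^ (1 / 40 : ℝ) * (5 * X * (1 + Real.log X) *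
      A2 ^ (-(1 / 4) : ℝ) + U' * M) := by
    apply card_real_le_of_inj (fun n => (n + 2, n)) _ (fun a _ b _ h => (Prod.mk.inj h).2) hT2
    intro n hn
    rw [hF1', mem_filter] at hn
    rw [mem_filter]
    exact ⟨(hprs n hn.1).2, Or.inr rfl, hn.2⟩
  have hT1 := typeOne_card (z := z) hX _ _ rfl rfl hz A (1 / 40) (Real.rpow_pos_of_pos hXp _)
    (by norm_num)
  have hT1' : (((prs X).filter (fun w => Adj w.1 w.2 ∧ TypeOne z X A (1 / 40) w.1 w.2)).card : ℝ)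
      ≤ 12 * X * Pr * A ^ (-((1 / 40) / 4) : ℝ) * (1 + Real.log X) := by
    refine hT1.trans ?_
    apply mul_le_mul_of_nonneg_right _ (by linarith)
    apply mul_le_mul_of_nonneg_right _ (Real.rpow_nonneg (Real.rpow_nonneg hXn _) _)
    exact mul_le_mul_of_nonneg_left hPr (by positivity)
  have bF2 : (F2.card : ℝ) ≤ 12 * X * Pr * A ^ (-((1 / 40) / 4) : ℝ) * (1 + Real.log X) := by
    apply card_real_le_of_inj (fun n => (n, n + 2)) _ (fun a _ b _ h => (Prod.mk.inj h).1) hT1'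
    intro n hn
    rw [hF2, mem_filter] at hn
    rw [mem_filter]
    exact ⟨(hprs n hn.1).1, Or.inl rfl, hn.2⟩
  have bF2' : (F2'.card : ℝ) ≤ 12 * X * Pr * A ^ (-((1 / 40) / 4) : ℝ) * (1 + Real.log X) := by
    apply card_real_le_of_inj (fun n => (n + 2, n)) _ (fun a _ b _ h => (Prod.mk.inj h).2) hT1'
    intro n hn
    rw [hF2', mem_filter] at hn
    rw [mem_filter]
    exact ⟨(hprs n hn.1).2, Or.inr rfl, hn.2⟩
  have hcard : (S.card : ℝ) ≤ E0.card + (E1.card + (E1'.card + (E2.card + (E2'.card + (F0.card +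
      (F1.card + (F1'.card + (F2.card + F2'.card)))))))) := by
    have c0 := card_le_card hcov
    have c1 := card_union_le E0 (E1 ∪ (E1' ∪ (E2 ∪ (E2' ∪ (F0 ∪ (F1 ∪ (F1' ∪ (F2 ∪ F2'))))))))
    have c2 := card_union_le E1 (E1' ∪ (E2 ∪ (E2' ∪ (F0 ∪ (F1 ∪ (F1' ∪ (F2 ∪ F2')))))))
    have c3 := card_union_le E1' (E2 ∪ (E2' ∪ (F0 ∪ (F1 ∪ (F1' ∪ (F2 ∪ F2'))))))
    have c4 := card_union_le E2 (E2' ∪ (F0 ∪ (F1 ∪ (F1' ∪ (F2 ∪ F2')))))
    have c5 := card_union_le E2' (F0 ∪ (F1 ∪ (F1' ∪ (F2 ∪ F2'))))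
    have c6 := card_union_le F0 (F1 ∪ (F1' ∪ (F2 ∪ F2')))
    have c7 := card_union_le F1 (F1' ∪ (F2 ∪ F2'))
    have c8 := card_union_le F1' (F2 ∪ F2')
    have c9 := card_union_le F2 F2'
    have : S.card ≤ E0.card + (E1.card + (E1'.card + (E2.card + (E2'.card + (F0.card +
      (F1.card + (F1'.card + (F2.card + F2'.card)))))))) := by omega
    exact_mod_cast this
  linarith

end Pool.Agent.Sig3
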