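import Pool.Agent.Helper46_Sig3.Smooth

/-!
# The square-full part and the decomposition `u = a * N`
-/

open Finset ArithmeticFunction

namespace Pool.Agent.Sig3

/-- The square-full part of `u`. -/
noncomputable def sfp (u : ℕ) : ℕ :=
  ∏ p ∈ u.primeFactors.filter (fun p => ¬ u.factorization p = 1), p ^ u.factorization p

lemma exists_square_dvd (u : ℕ) (hu : u ≠ 0) : ∃ d : ℕ, 0 < d ∧ d ^ 2 ∣ u ∧ sfp u ≤ d ^ 3 := by
  refine ⟨∏ p ∈ u.primeFactors.filter (fun p => ¬ u.factorization p = 1),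
    p ^ (u.factorization p / 2), ?_, ?_, ?_⟩
  · apply prod_pos
    intro p hp
    rw [mem_filter] at hp
    exact pow_pos (Nat.prime_of_mem_primeFactors hp.1).pos _
  · rw [← prod_pow]
    have h1 : ∏ p ∈ u.primeFactors, p ^ u.factorization p = u := Nat.prod_factorization_pow_eq_self hu
    conv_rhs => rw [← h1]
    refine dvd_trans ?_ (prod_dvd_prod_of_subset _ _ _
      (filter_subset (fun p => ¬ u.factorization p = 1) _))
    apply prod_dvd_prod_of_dvd
    intro p _
    rw [← pow_mul]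
    exact pow_dvd_pow p (Nat.div_mul_le_self _ 2)
  · rw [sfp, ← prod_pow]
    apply prod_le_prod'
    intro p hp
    rw [mem_filter] at hp
    have hp1 := (Nat.prime_of_mem_primeFactors hp.1)
    have h0 : 1 ≤ u.factorization p :=
      (hp1.dvd_iff_one_le_factorization hu).mp (Nat.dvd_of_mem_primeFactors hp.1)
    rw [← pow_mul]
    apply Nat.pow_le_pow_right hp1.pos
    omega

lemma card_sfp_large (X : ℕ) (Y : ℝ) (hY : 0 < Y) :
    (((Icc 1 X).filter (fun u => Y ≤ (sfp u : ℝ))).card : ℝ) ≤ 3 * X * Y ^ (-(1 / 6) : ℝ) := by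
  classical
  set D := (Icc 1 X).filter (fun d : ℕ => Y ≤ (d : ℝ) ^ 3) with hD
  have hsub : (Icc 1 X).filter (fun u => Y ≤ (sfp u : ℝ))
      ⊆ D.biUnion (fun d => (Ioc 0 X).filter (fun u => d ^ 2 ∣ u)) := by
    intro u hu
    rw [mem_filter, mem_Icc] at hu
    obtain ⟨d, hd0, hdu, hd⟩ := exists_square_dvd u (by omega)
    rw [mem_biUnion]
    refine ⟨d, ?_, ?_⟩
    · rw [hD, mem_filter, mem_Icc]
      refine ⟨⟨hd0, ?_⟩, ?_⟩
      · have h1 : d ^ 2 ≤ u := Nat.le_of_dvd (by omega) hdu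
        have h2 : d ≤ d ^ 2 := Nat.le_self_pow (by norm_num) d
        omega
      · refine hu.2.trans ?_
        exact_mod_cast hd
    · rw [mem_filter, mem_Ioc]
      exact ⟨⟨by omega, hu.1.2⟩, hdu⟩
  calc (((Icc 1 X).filter (fun u => Y ≤ (sfp u : ℝ))).card : ℝ)
      ≤ ((D.biUnion (fun d => (Ioc 0 X).filter (fun u => d ^ 2 ∣ u))).card : ℝ) := by
        exact_mod_cast card_le_card hsub
    _ ≤ ∑ d ∈ D, (((Ioc 0 X).filter (fun u => d ^ 2 ∣ u)).card : ℝ) := by
        exact_mod_cast card_biUnion_le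
    _ ≤ ∑ d ∈ D, (X : ℝ) * Y ^ (-(1 / 6) : ℝ) * (d : ℝ) ^ (-1 - (1 / 2) : ℝ) := by
        apply sum_le_sum
        intro d hd
        rw [hD, mem_filter, mem_Icc] at hd
        have hdr : (0 : ℝ) < d := by exact_mod_cast hd.1.1
        rw [Nat.Ioc_filter_dvd_card_eq_div]
        have h1 : (((X / d ^ 2 : ℕ)) : ℝ) ≤ X / ((d ^ 2 : ℕ) : ℝ) := Nat.cast_div_le
        refine h1.trans ?_
        push_cast
        rw [div_eq_mul_inv, mul_assoc]
        apply mul_le_mul_of_nonneg_left _ (Nat.cast_nonneg X)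
        have h2 : ((d : ℝ) ^ 2)⁻¹ = (d : ℝ) ^ (-(1 / 2) : ℝ) * (d : ℝ) ^ (-1 - (1 / 2) : ℝ) := by
          rw [← Real.rpow_add hdr, ← Real.rpow_natCast, ← Real.rpow_neg hdr.le]
          norm_num
        rw [h2]
        apply mul_le_mul_of_nonneg_right _ (Real.rpow_nonneg hdr.le _)
        have h3 : (d : ℝ) ^ (-(1 / 2) : ℝ) = ((d : ℝ) ^ 3) ^ (-(1 / 6) : ℝ) := by
          rw [← Real.rpow_natCast, ← Real.rpow_mul hdr.le]
          norm_num
        rw [h3]
        exact Real.rpow_le_rpow_of_nonpos hY hd.2 (by norm_num)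
    _ ≤ ∑ d ∈ Icc 1 X, (X : ℝ) * Y ^ (-(1 / 6) : ℝ) * (d : ℝ) ^ (-1 - (1 / 2) : ℝ) := by
        apply sum_le_sum_of_subset_of_nonneg (filter_subset _ _)
        intro d _ _
        have h1 : 0 ≤ Y ^ (-(1 / 6) : ℝ) := Real.rpow_nonneg hY.le _
        have h2 : 0 ≤ (d : ℝ) ^ (-1 - (1 / 2) : ℝ) := Real.rpow_nonneg (Nat.cast_nonneg d) _
        positivity
    _ = (X : ℝ) * Y ^ (-(1 / 6) : ℝ) * ∑ d ∈ Icc 1 X, (d : ℝ) ^ (-1 - (1 / 2) : ℝ) := by
        rw [mul_sum]
    _ ≤ (X : ℝ) * Y ^ (-(1 / 6) : ℝ) * 3 := by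
        apply mul_le_mul_of_nonneg_left
        · have := zeta_sum_le (s := 1 / 2) (by norm_num) X
          norm_num at this ⊢
          exact this
        · have h1 : 0 ≤ Y ^ (-(1 / 6) : ℝ) := Real.rpow_nonneg hY.le _
          positivity
    _ = _ := by ring

/-- The bad primes up to `X`. -/
noncomputable def badP (z X : ℕ) : Finset ℕ :=
  (Icc 1 X).filter (fun p => p.Prime ∧ ¬ p ^ 2 ≤ rgh z (p ^ 3 + 1))

/-- The product of the bad primes dividing `u`. -/
noncomputable def bdp (z X u : ℕ) : ℕ := ∏ p ∈ (badP z X).filter (fun p => p ∣ u), p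

lemma badP_prime {z X p : ℕ} (h : p ∈ badP z X) : p.Prime := by
  rw [badP, mem_filter] at h
  exact h.2.1

lemma exists_dec (z X u : ℕ) (hu : 0 < u) (huX : u ≤ X) :
    ∃ a N : ℕ, u = a * N ∧ Nat.Coprime a N ∧ GoodSq z a ∧ 0 < N ∧ N ≤ sfp u * bdp z X u := by
  classical
  set E := u.primeFactors.filter (fun p => u.factorization p = 1) with hE
  set G := E.filter (fun p => p ^ 2 ≤ rgh z (p ^ 3 + 1)) with hG
  set H := E.filter (fun p => ¬ p ^ 2 ≤ rgh z (p ^ 3 + 1)) with hH
  have hEp : ∀ p ∈ E, p.Prime := fun p hp =>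
    Nat.prime_of_mem_primeFactors (mem_filter.mp hp).1
  have hprod : u = (∏ p ∈ G, p) * ((∏ p ∈ H, p) * sfp u) := by
    have h1 : ∏ p ∈ u.primeFactors, p ^ u.factorization p = u :=
      Nat.prod_factorization_pow_eq_self hu.ne'
    have h2 : (∏ p ∈ E, p ^ u.factorization p) * sfp u = u := by
      rw [hE, sfp, prod_filter_mul_prod_filter_not]
      exact h1
    have h3 : ∏ p ∈ E, p ^ u.factorization p = ∏ p ∈ E, p := by
      apply prod_congr rfl
      intro p hp
      rw [(mem_filter.mp hp).2, pow_one]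
    have h4 : (∏ p ∈ G, p) * (∏ p ∈ H, p) = ∏ p ∈ E, p := by
      rw [hG, hH, prod_filter_mul_prod_filter_not]
    rw [← mul_assoc, h4, ← h3, h2]
  have hGp : ∀ p ∈ G, p.Prime := fun p hp => hEp p (mem_filter.mp hp).1
  have hHp : ∀ p ∈ H, p.Prime := fun p hp => hEp p (mem_filter.mp hp).1
  have hGsq : Squarefree (∏ p ∈ G, p) := by
    apply Finset.squarefree_prod_of_pairwise_isCoprime
    · intro p hp q hq hpq
      have h1 := (Nat.coprime_primes (hGp p hp) (hGp q hq)).mpr hpq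
      exact Nat.coprime_iff_isRelPrime.mp h1
    · intro p hp
      exact (hGp p hp).prime.squarefree
  refine ⟨∏ p ∈ G, p, (∏ p ∈ H, p) * sfp u, hprod, ?_, ⟨hGsq, ?_⟩, ?_, ?_⟩
  · apply Nat.Coprime.prod_left
    intro p hp
    have hpp := hGp p hp
    apply Nat.Coprime.mul_right
    · apply Nat.Coprime.prod_right
      intro q hq
      refine (Nat.coprime_primes hpp (hHp q hq)).mpr ?_
      intro hpq
      subst hpq
      exact (mem_filter.mp hq).2 (mem_filter.mp hp).2
    · apply Nat.Coprime.prod_right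
      intro q hq
      rw [mem_filter] at hq
      apply Nat.Coprime.pow_right
      refine (Nat.coprime_primes hpp (Nat.prime_of_mem_primeFactors hq.1)).mpr ?_
      intro hpq
      subst hpq
      have := (mem_filter.mp (mem_filter.mp hp).1).2
      exact hq.2 this
  · intro p hp
    rw [Nat.primeFactors_prod hGp] at hp
    exact ⟨hGp p hp, (mem_filter.mp hp).2⟩
  · apply Nat.mul_pos
    · exact prod_pos (fun p hp => (hHp p hp).pos)
    · rw [sfp]
      apply prod_pos
      intro p hp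
      rw [mem_filter] at hp
      exact pow_pos (Nat.prime_of_mem_primeFactors hp.1).pos _
  · rw [mul_comm]
    apply Nat.mul_le_mul_left
    rw [bdp]
    apply prod_le_prod_of_subset_of_one_le'
    · intro p hp
      have hpE := (mem_filter.mp hp).1
      have hpp := hHp p hp
      have hpu : p ∣ u := Nat.dvd_of_mem_primeFactors (mem_filter.mp hpE).1
      rw [mem_filter, badP, mem_filter, mem_Icc]
      exact ⟨⟨⟨hpp.one_le, (Nat.le_of_dvd hu hpu).trans huX⟩, hpp, (mem_filter.mp hp).2⟩, hpu⟩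
    · intro p hp _
      exact (badP_prime (mem_filter.mp hp).1).one_le

end Pool.Agent.Sig3
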