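import Pool.Agent.Helper46_Sig3.Count
import Pool.Agent.Helper45_DivisorSieve.PrimeSums

/-!
# Asymptotic form of the counting bound
-/

open Finset ArithmeticFunction Filter

namespace Pool.Agent.Sig3

/-- The sum of the reciprocals of the primes up to `n`. -/
lemma sum_primes_le {n : ℕ} {lam : ℝ} (hn : (n : ℝ) ≤ Real.exp lam) (hlam : 1 ≤ lam) :
    ∑ p ∈ Nat.primesBelow (n + 1), (1 : ℝ) / p ≤ 5 + 4 * Real.log (3 * lam) := by
  set K : ℕ := ⌈2 * lam⌉₊ with hK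
  have hK1 : 2 * lam ≤ K := Nat.le_ceil _
  have hK2 : (K : ℝ) < 2 * lam + 1 := Nat.ceil_lt_add_one (by linarith)
  have hKr : (0 : ℝ) < K := by linarith
  have hKpos : 1 ≤ K := by exact_mod_cast hKr
  have h1 := Pool.Agent.Helper45_DivisorSieve.sum_inv_primes_le K hKpos
  have hpow : Real.exp lam ≤ (2 : ℝ) ^ K := by
    rw [← Real.exp_log (show (0 : ℝ) < 2 ^ K by positivity), Real.log_pow]
    apply Real.exp_le_exp.mpr
    have := Real.log_two_gt_d9
    nlinarith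
  have hn2 : n ≤ 2 ^ K := by
    have : (n : ℝ) ≤ ((2 ^ K : ℕ) : ℝ) := by push_cast; exact hn.trans hpow
    exact_mod_cast this
  have h2 : ∑ p ∈ Nat.primesBelow (n + 1), (1 : ℝ) / p
      ≤ ∑ p ∈ Nat.primesBelow (2 ^ K + 1), (1 : ℝ) / p := by
    apply sum_le_sum_of_subset_of_nonneg
    · intro p hp
      rw [Nat.mem_primesBelow] at hp ⊢
      exact ⟨by omega, hp.2⟩
    · intro p _ _; positivity
  have h4 : Real.log K ≤ Real.log (3 * lam) := Real.log_le_log hKr (by linarith)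
  linarith

lemma exp_sum_primes_le {n : ℕ} {lam : ℝ} (hn : (n : ℝ) ≤ Real.exp lam) (hlam : 1 ≤ lam) (m : ℕ) :
    Real.exp (m * ∑ p ∈ Nat.primesBelow (n + 1), (1 : ℝ) / p)
      ≤ Real.exp (5 * m) * (3 * lam) ^ (4 * m) := by
  have h1 := sum_primes_le hn hlam
  have h2 : (0 : ℝ) < 3 * lam := by linarith
  calc Real.exp (m * ∑ p ∈ Nat.primesBelow (n + 1), (1 : ℝ) / p)
      ≤ Real.exp (m * (5 + 4 * Real.log (3 * lam))) := by
        apply Real.exp_le_exp.mpr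
        exact mul_le_mul_of_nonneg_left h1 (Nat.cast_nonneg _)
    _ = Real.exp (5 * m) * Real.exp (((4 * m : ℕ) : ℝ) * Real.log (3 * lam)) := by
        rw [← Real.exp_add]
        congr 1
        push_cast
        ring
    _ = Real.exp (5 * m) * (3 * lam) ^ (4 * m) := by
        rw [Real.exp_nat_mul, Real.exp_log h2]

/-- The sum over the bad primes. -/
lemma bad_total {z X : ℕ} {lam : ℝ} (hz : 2 ≤ z) (hzl : Real.log z = lam) (hlam : 9 ≤ lam) :
    ∑ p ∈ badP z X, (p : ℝ) ^ (-1 + 1 / (8 * lam))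
      ≤ (9 + 9 * (Real.exp 105 * 3 ^ 84)) * lam ^ 85 := by
  set s : ℝ := 1 / (8 * lam) with hs
  have hs0 : 0 < s := by positivity
  have hs1 : s * lam = 1 / 8 := by
    rw [hs]
    have : lam ≠ 0 := by linarith
    field_simp
  have hs7 : 7 * s ≤ 1 / 10 := by
    rw [hs, mul_one_div, div_le_div_iff₀ (by positivity) (by norm_num)]
    linarith
  have hz0 : (0 : ℝ) < z := by exact_mod_cast (by omega : 0 < z)
  have hz1 : (1 : ℝ) ≤ z := by exact_mod_cast (by omega : 1 ≤ z)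
  have hzexp : (z : ℝ) = Real.exp lam := by rw [← hzl, Real.exp_log hz0]
  have hsplit : badP z X ⊆ Icc 1 (z ^ 4) ∪
      (Icc 1 X).filter (fun m => z ^ 4 < m ∧ ¬ m ^ 2 ≤ rgh z (m ^ 3 + 1)) := by
    intro p hp
    rw [badP, mem_filter, mem_Icc] at hp
    rw [mem_union, mem_Icc, mem_filter, mem_Icc]
    by_cases h : p ≤ z ^ 4
    · exact Or.inl ⟨hp.1.1, h⟩
    · exact Or.inr ⟨hp.1, not_le.mp h, hp.2.2⟩
  have hnn : ∀ m : ℕ, 0 ≤ (m : ℝ) ^ (-1 + s) := fun m => Real.rpow_nonneg (Nat.cast_nonneg _) _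
  -- small integers
  have h1 : ∑ m ∈ Icc 1 (z ^ 4), (m : ℝ) ^ (-1 + s) ≤ 2 * (1 + 4 * lam) := by
    have h2 : ∀ m ∈ Icc 1 (z ^ 4), (m : ℝ) ^ (-1 + s) ≤ 2 * (1 / (m : ℝ)) := by
      intro m hm
      rw [mem_Icc] at hm
      have hm0 : (0 : ℝ) < m := by exact_mod_cast hm.1
      have hm4 : (m : ℝ) ≤ (z : ℝ) ^ 4 := by exact_mod_cast hm.2
      have h3 : (m : ℝ) ^ s ≤ 2 := by
        calc (m : ℝ) ^ s ≤ ((z : ℝ) ^ 4) ^ s := Real.rpow_le_rpow hm0.le hm4 hs0.le
          _ = Real.exp (1 / 2) := by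
              rw [hzexp, ← Real.exp_nat_mul, ← Real.exp_mul]
              congr 1
              push_cast
              linear_combination 4 * hs1
          _ ≤ 2 := by
              have h4 : Real.exp (1 / 2) ^ 2 ≤ 2 ^ 2 := by
                rw [← Real.exp_nat_mul]
                norm_num
                linarith [Real.exp_one_lt_d9]
              exact le_of_pow_le_pow_left₀ (by norm_num) (by norm_num) h4
      rw [Real.rpow_add hm0, Real.rpow_neg_one, one_div]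
      have : 0 < ((m : ℝ))⁻¹ := by positivity
      nlinarith
    refine (sum_le_sum h2).trans ?_
    rw [← mul_sum]
    apply mul_le_mul_of_nonneg_left _ (by norm_num)
    have h5 : ∑ a ∈ Icc 1 (z ^ 4), (1 / (a : ℝ)) = ((harmonic (z ^ 4) : ℚ) : ℝ) := by
      rw [harmonic_eq_sum_Icc]
      push_cast
      apply sum_congr rfl
      intro a _
      rw [one_div]
    rw [h5]
    refine (harmonic_le_one_add_log (z ^ 4)).trans ?_
    push_cast
    rw [Real.log_pow, hzl]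
    norm_num
  -- large integers
  have h6 := bad_sum (X := X) hz hs0 hs7
  have h7 : ∑ p ∈ Nat.primesBelow (z + 1), (p : ℝ) ^ (-1 + 7 * s)
      ≤ 3 * ∑ p ∈ Nat.primesBelow (z + 1), (1 : ℝ) / p := by
    rw [mul_sum]
    apply sum_le_sum
    intro p hp
    rw [Nat.mem_primesBelow] at hp
    have hp0 : (0 : ℝ) < p := by exact_mod_cast hp.2.pos
    have hpz : (p : ℝ) ≤ z := by exact_mod_cast (by omega : p ≤ z)
    have h8 : (p : ℝ) ^ (7 * s) ≤ 3 := by
      calc (p : ℝ) ^ (7 * s) ≤ (z : ℝ) ^ (7 * s) := Real.rpow_le_rpow hp0.le hpz (by positivity)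
        _ = Real.exp (7 / 8) := by
            rw [hzexp, ← Real.exp_mul]
            congr 1
            linear_combination 7 * hs1
        _ ≤ Real.exp 1 := Real.exp_le_exp.mpr (by norm_num)
        _ ≤ 3 := by linarith [Real.exp_one_lt_d9]
    rw [Real.rpow_add hp0, Real.rpow_neg_one, one_div]
    have : 0 < ((p : ℝ))⁻¹ := by positivity
    nlinarith
  have h9 : Real.exp (7 * ∑ p ∈ Nat.primesBelow (z + 1), (p : ℝ) ^ (-1 + 7 * s))
      ≤ Real.exp 105 * (3 * lam) ^ 84 := by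
    have h10 := exp_sum_primes_le (n := z) (lam := lam) hzexp.le (by linarith) 21
    norm_num at h10
    refine le_trans (Real.exp_le_exp.mpr ?_) h10
    norm_num at h7
    linarith
  have h11 : 1 + 1 / s = 1 + 8 * lam := by
    rw [hs, one_div_one_div]
  have hl1 : (1 : ℝ) ≤ lam := by linarith
  calc ∑ p ∈ badP z X, (p : ℝ) ^ (-1 + s)
      ≤ ∑ p ∈ Icc 1 (z ^ 4) ∪
          (Icc 1 X).filter (fun m => z ^ 4 < m ∧ ¬ m ^ 2 ≤ rgh z (m ^ 3 + 1)),
          (p : ℝ) ^ (-1 + s) := by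
        apply sum_le_sum_of_subset_of_nonneg hsplit
        intro m _ _
        exact hnn m
    _ ≤ ∑ m ∈ Icc 1 (z ^ 4), (m : ℝ) ^ (-1 + s) +
          ∑ m ∈ (Icc 1 X).filter (fun m => z ^ 4 < m ∧ ¬ m ^ 2 ≤ rgh z (m ^ 3 + 1)),
            (m : ℝ) ^ (-1 + s) := by
        have h := sum_union_inter (s₁ := Icc 1 (z ^ 4))
          (s₂ := (Icc 1 X).filter (fun m => z ^ 4 < m ∧ ¬ m ^ 2 ≤ rgh z (m ^ 3 + 1)))
          (f := fun m : ℕ => (m : ℝ) ^ (-1 + s))
        have h2 : 0 ≤ ∑ e ∈ Icc 1 (z ^ 4) ∩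
            (Icc 1 X).filter (fun m => z ^ 4 < m ∧ ¬ m ^ 2 ≤ rgh z (m ^ 3 + 1)),
            (e : ℝ) ^ (-1 + s) := sum_nonneg (fun e _ => hnn e)
        linarith
    _ ≤ 2 * (1 + 4 * lam) + (1 + 8 * lam) * (Real.exp 105 * (3 * lam) ^ 84) := by
        apply add_le_add h1
        refine h6.trans ?_
        rw [h11]
        exact mul_le_mul_of_nonneg_left h9 (by linarith)
    _ ≤ (9 + 9 * (Real.exp 105 * 3 ^ 84)) * lam ^ 85 := by
        have e1 : (3 * lam) ^ 84 = 3 ^ 84 * lam ^ 84 := mul_pow _ _ _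
        rw [e1]
        set C := Real.exp 105 * 3 ^ 84 with hC
        have hC0 : 0 < C := by positivity
        have e2 : (1 + 8 * lam) * (Real.exp 105 * (3 ^ 84 * lam ^ 84)) ≤ 9 * C * lam ^ 85 := by
          have e3 : Real.exp 105 * (3 ^ 84 * lam ^ 84) = C * lam ^ 84 := by rw [hC]; ring
          rw [e3]
          have e4 : (1 + 8 * lam) ≤ 9 * lam := by linarith
          have e5 : 0 ≤ C * lam ^ 84 := by positivity
          calc (1 + 8 * lam) * (C * lam ^ 84) ≤ 9 * lam * (C * lam ^ 84) :=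
                mul_le_mul_of_nonneg_right e4 e5
            _ = 9 * C * lam ^ 85 := by ring
        have e6 : 2 * (1 + 4 * lam) ≤ 9 * lam ^ 85 := by
          have : lam ≤ lam ^ 85 := le_self_pow₀ hl1 (by norm_num)
          linarith
        calc 2 * (1 + 4 * lam) + (1 + 8 * lam) * (Real.exp 105 * (3 ^ 84 * lam ^ 84))
            ≤ 9 * lam ^ 85 + 9 * C * lam ^ 85 := add_le_add e6 e2
          _ = _ := by ring

lemma prod_PP_le {X : ℕ} {L : ℝ} (hX : 1 ≤ X) (hL : Real.log X = L) (hL1 : 1 ≤ L) :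
    ∏ r ∈ PP X, (1 + (1 : ℝ) / r) ≤ Real.exp 5 * (3 * L) ^ 4 := by
  have hX0 : (0 : ℝ) < X := by exact_mod_cast hX
  have hXexp : (X : ℝ) = Real.exp L := by rw [← hL, Real.exp_log hX0]
  have h1 : ∏ r ∈ PP X, (1 + (1 : ℝ) / r) ≤ Real.exp (∑ r ∈ PP X, (1 : ℝ) / r) := by
    rw [Real.exp_sum]
    apply Finset.prod_le_prod
    · intro r _; positivity
    · intro r _
      rw [add_comm]
      exact Real.add_one_le_exp _
  have h2 : PP X = Nat.primesBelow (X + 1) := by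
    ext p
    rw [PP, mem_filter, mem_Icc, Nat.mem_primesBelow]
    constructor
    · rintro ⟨⟨h3, h4⟩, h5⟩; exact ⟨by omega, h5⟩
    · rintro ⟨h3, h4⟩; exact ⟨⟨h4.one_le, by omega⟩, h4⟩
  have h3 := exp_sum_primes_le (n := X) (lam := L) hXexp.le hL1 1
  norm_num at h3
  refine h1.trans ?_
  rw [h2]
  simpa using h3

lemma ev_log_pow (C : ℝ) (hC : 0 < C) (n : ℕ) : ∀ᶠ L : ℝ in atTop, C * (Real.log L) ^ n ≤ L := by
  have h := (Real.isLittleO_pow_log_id_atTop (n := n)).def (show (0 : ℝ) < 1 / C by positivity)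
  filter_upwards [h, eventually_ge_atTop (1 : ℝ)] with L hL hL1
  rw [Real.norm_eq_abs, Real.norm_eq_abs, id, abs_of_nonneg (pow_nonneg (Real.log_nonneg hL1) n),
    abs_of_nonneg (by linarith : (0 : ℝ) ≤ L)] at hL
  rw [div_mul_eq_mul_div, one_mul, le_div_iff₀ hC] at hL
  linarith

lemma ev_poly_exp (C b : ℝ) (hC : 0 < C) (hb : 0 < b) (n : ℕ) :
    ∀ᶠ L : ℝ in atTop, C * L ^ n ≤ Real.exp (b * L) := by
  have h := (isLittleO_pow_exp_pos_mul_atTop (k := n) hb).def (show (0 : ℝ) < 1 / C by positivity)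
  filter_upwards [h, eventually_ge_atTop (1 : ℝ)] with L hL hL1
  rw [Real.norm_eq_abs, Real.norm_eq_abs, abs_of_nonneg (by positivity : (0 : ℝ) ≤ L ^ n),
    abs_of_nonneg (Real.exp_pos _).le] at hL
  rw [div_mul_eq_mul_div, one_mul, le_div_iff₀ hC] at hL
  linarith

/-- The bound for `sols X`. -/
theorem sols_bound : ∀ᶠ X : ℕ in atTop, ((sols X).card : ℝ) ≤
    X * Real.exp (-(1 / 300000 * (Real.log X / Real.log (Real.log X)))) := by
  have hlogt : Tendsto (fun X : ℕ => Real.log (X : ℝ)) atTop atTop :=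
    Real.tendsto_log_atTop.comp tendsto_natCast_atTop_atTop
  set C0 : ℝ := 9 + 9 * (Real.exp 105 * 3 ^ 84) with hC0
  have hC0pos : 0 < C0 := by positivity
  have e1 : ∀ᶠ L : ℝ in atTop, (2 * 216 ^ 12 : ℝ) ≤ L := eventually_ge_atTop _
  have e2 := ev_log_pow (C0 * 25 ^ 86 * 10240) (by positivity) 86
  have e3 := ev_poly_exp (200 * 2 ^ 5 * (1 + Real.exp 5 * 3 ^ 4)) (1 / 40000) (by positivity)
    (by norm_num) 5
  have e4 := ev_log_pow (2 ^ 22) (by norm_num) 1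
  filter_upwards [hlogt.eventually e1, hlogt.eventually e2, hlogt.eventually e3,
    hlogt.eventually e4, eventually_ge_atTop 3] with X h1 h2 h3 h4 hX3
  set L := Real.log (X : ℝ) with hL
  have hLbig : (10 ^ 20 : ℝ) ≤ L := le_trans (by norm_num) h1
  have hL1 : 1 ≤ L := by linarith
  have hL0 : 0 < L := by linarith
  have hX0 : (0 : ℝ) < X := by exact_mod_cast (by omega : 0 < X)
  have hXexp : (X : ℝ) = Real.exp L := by rw [hL, Real.exp_log hX0]
  have hlogL1 : 1 ≤ Real.log L := by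
    rw [Real.le_log_iff_exp_le hL0]
    linarith [Real.exp_one_lt_d9]
  have hlogL0 : 0 < Real.log L := by linarith
  -- the parameter `z`
  set FY : ℝ := ((18 * (3 + L)) * (6 * L)) ^ 12 with hFY
  set z : ℕ := ⌈FY⌉₊ with hz
  have hFY1 : L ^ 12 ≤ FY := by
    rw [hFY]
    apply pow_le_pow_left₀ hL0.le
    nlinarith
  have hFY2 : FY ≤ 216 ^ 12 * L ^ 24 := by
    have : (18 * (3 + L)) * (6 * L) ≤ 216 * L ^ 2 := by nlinarith
    calc FY ≤ (216 * L ^ 2) ^ 12 := pow_le_pow_left₀ (by positivity) this 12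
      _ = 216 ^ 12 * L ^ 24 := by ring
  have hL12 : (3 : ℝ) ^ 160 ≤ L ^ 12 := by
    calc (3 : ℝ) ^ 160 ≤ (10 ^ 20) ^ 12 := by norm_num
      _ ≤ L ^ 12 := pow_le_pow_left₀ (by norm_num) hLbig 12
  have hzFY : FY ≤ z := Nat.le_ceil _
  have hz3r : (3 : ℝ) ^ 160 ≤ z := hL12.trans (hFY1.trans hzFY)
  have hz3 : 3 ^ 160 ≤ z := by exact_mod_cast hz3r
  have hz9 : 9 ≤ z := le_trans (by norm_num) hz3
  have hz0 : (0 : ℝ) < z := by linarith [show (0 : ℝ) < 3 ^ 160 by positivity]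
  have hzle : (z : ℝ) ≤ L ^ 25 := by
    have h5 : (z : ℝ) < FY + 1 := Nat.ceil_lt_add_one (by positivity)
    have h6 : (1 : ℝ) ≤ 216 ^ 12 * L ^ 24 := by
      have : (1 : ℝ) ≤ L ^ 24 := one_le_pow₀ hL1
      have : (1 : ℝ) ≤ 216 ^ 12 := by norm_num
      nlinarith
    calc (z : ℝ) ≤ 2 * 216 ^ 12 * L ^ 24 := by linarith
      _ ≤ L * L ^ 24 := mul_le_mul_of_nonneg_right h1 (by positivity)
      _ = L ^ 25 := by ring
  set lam : ℝ := Real.log z with hlam
  have hlam1 : lam ≤ 25 * Real.log L := by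
    have := Real.log_le_log hz0 hzle
    rw [Real.log_pow] at this
    exact_mod_cast this
  have hlam9 : 9 ≤ lam := by
    have h5 : Real.log ((3 : ℝ) ^ 160) ≤ lam := Real.log_le_log (by positivity) hz3r
    rw [Real.log_pow] at h5
    have h6 : 1 ≤ Real.log 3 := by
      rw [Real.le_log_iff_exp_le (by norm_num)]
      linarith [Real.exp_one_lt_d9]
    push_cast at h5
    linarith
  have hlam0 : 0 < lam := by linarith
  have hbad := bad_total (X := X) (lam := lam) (by omega : 2 ≤ z) rfl hlam9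
  have hprod := prod_PP_le (X := X) (L := L) (by omega) rfl hL1
  have hmain := count_le X z (by omega) hzFY hz9 hz3 (1 / (8 * lam)) (C0 * lam ^ 85)
    (Real.exp 5 * (3 * L) ^ 4) (by positivity) hbad hprod
  refine hmain.trans ?_
  -- rewrite the powers of `X`
  have hXpow : ∀ a : ℝ, (X : ℝ) ^ a = Real.exp (a * L) := by
    intro a
    rw [hXexp, ← Real.exp_mul, mul_comm]
  -- the exceptional term
  have hterm2 : (X : ℝ) * ((X : ℝ) ^ (1 / 640 : ℝ)) ^ (-(1 / (8 * lam))) *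
      Real.exp (C0 * lam ^ 85) ≤ X * Real.exp (-(L / (256000 * Real.log L))) := by
    rw [mul_assoc]
    apply mul_le_mul_of_nonneg_left _ hX0.le
    rw [hXpow, ← Real.exp_mul, ← Real.exp_add]
    apply Real.exp_le_exp.mpr
    have h5 : C0 * lam ^ 85 ≤ L / (10240 * lam) := by
      rw [le_div_iff₀ (by positivity)]
      have h6 : lam ^ 86 ≤ (25 * Real.log L) ^ 86 := pow_le_pow_left₀ hlam0.le hlam1 86
      calc C0 * lam ^ 85 * (10240 * lam) = C0 * 10240 * lam ^ 86 := by ring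
        _ ≤ C0 * 10240 * (25 * Real.log L) ^ 86 := mul_le_mul_of_nonneg_left h6 (by positivity)
        _ = C0 * 25 ^ 86 * 10240 * (Real.log L) ^ 86 := by ring
        _ ≤ L := h2
    have h7 : 1 / 640 * L * -(1 / (8 * lam)) = -(L / (5120 * lam)) := by
      field_simp
      norm_num
    have h8 : L / (256000 * Real.log L) ≤ L / (10240 * lam) := by
      apply div_le_div_of_nonneg_left hL0.le (by positivity)
      linarith
    have h9 : L / (5120 * lam) = 2 * (L / (10240 * lam)) := by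
      field_simp
      norm_num
    rw [h7, h9]
    linarith
  -- the power terms
  set T : ℝ := Real.exp (-(L / 12800)) with hT
  have hT0 : 0 < T := Real.exp_pos _
  have hpowle : ∀ a : ℝ, a ≤ 1 - 1 / 12800 → (X : ℝ) ^ a ≤ X * T := by
    intro a ha
    rw [hXpow, hT]
    conv_rhs => rw [hXexp]
    rw [← Real.exp_add]
    apply Real.exp_le_exp.mpr
    nlinarith
  have hX1 : (X : ℝ) = (X : ℝ) ^ (1 : ℝ) := (Real.rpow_one _).symm
  have t1 : (X : ℝ) ^ (49 / 50 : ℝ) ≤ X * T := hpowle _ (by norm_num)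
  have t2 : (X : ℝ) * ((X : ℝ) ^ (1 / 640 : ℝ)) ^ (-(1 / 6) : ℝ) ≤ X * T := by
    rw [← Real.rpow_mul hX0.le]
    have : (X : ℝ) * (X : ℝ) ^ (1 / 640 * (-(1 / 6)) : ℝ) = (X : ℝ) ^ (1 + 1 / 640 * (-(1 / 6)) : ℝ) := by
      rw [Real.rpow_add hX0, Real.rpow_one]
    rw [this]
    exact hpowle _ (by norm_num)
  have t3 : ((X : ℝ) ^ (3 / 20 : ℝ)) ^ 2 ≤ X * T := by
    rw [rpow_pow' hX0.le]
    exact hpowle _ (by norm_num)
  have t4 : (X : ℝ) ^ (1 / 40 : ℝ) * (X * ((X : ℝ) ^ (2 / 5 : ℝ)) ^ (-(1 / 4) : ℝ)) ≤ X * T := by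
    rw [← Real.rpow_mul hX0.le]
    have : (X : ℝ) ^ (1 / 40 : ℝ) * (X * (X : ℝ) ^ (2 / 5 * (-(1 / 4)) : ℝ))
        = (X : ℝ) ^ (1 / 40 + 1 + 2 / 5 * (-(1 / 4)) : ℝ) := by
      rw [Real.rpow_add hX0, Real.rpow_add hX0, Real.rpow_one]
      ring
    rw [this]
    exact hpowle _ (by norm_num)
  have t5 : (X : ℝ) ^ (1 / 40 : ℝ) * ((X : ℝ) ^ (17 / 20 : ℝ) * (X : ℝ) ^ (1 / 20 : ℝ)) ≤ X * T := by
    rw [← Real.rpow_add hX0, ← Real.rpow_add hX0]
    exact hpowle _ (by norm_num)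
  have t6 : (X : ℝ) * ((X : ℝ) ^ (1 / 80 : ℝ)) ^ (-((1 / 40) / 4) : ℝ) ≤ X * T := by
    rw [← Real.rpow_mul hX0.le]
    have : (X : ℝ) * (X : ℝ) ^ (1 / 80 * (-((1 / 40) / 4)) : ℝ)
        = (X : ℝ) ^ (1 + 1 / 80 * (-((1 / 40) / 4)) : ℝ) := by
      rw [Real.rpow_add hX0, Real.rpow_one]
    rw [this]
    exact hpowle _ (by norm_num)
  have hXT0 : 0 ≤ X * T := by positivity
  have hPr0 : 0 ≤ Real.exp 5 * (3 * L) ^ 4 := by positivity
  have hsum : (X : ℝ) ^ (49 / 50 : ℝ) +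
      2 * (3 * X * ((X : ℝ) ^ (1 / 640 : ℝ)) ^ (-(1 / 6) : ℝ)) +
      2 * (X * ((X : ℝ) ^ (1 / 640 : ℝ)) ^ (-(1 / (8 * lam))) * Real.exp (C0 * lam ^ 85)) +
      6 * ((X : ℝ) ^ (3 / 20 : ℝ)) ^ 2 +
      2 * (2 * (X : ℝ) ^ (1 / 40 : ℝ) * (5 * X * (1 + L) *
        ((X : ℝ) ^ (2 / 5 : ℝ)) ^ (-(1 / 4) : ℝ) + (X : ℝ) ^ (17 / 20 : ℝ) *
          (X : ℝ) ^ (1 / 20 : ℝ))) +
      2 * (12 * X * (Real.exp 5 * (3 * L) ^ 4) * ((X : ℝ) ^ (1 / 80 : ℝ)) ^ (-((1 / 40) / 4) : ℝ) *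
        (1 + L))
      ≤ (17 + 20 * (1 + L) + 24 * (Real.exp 5 * (3 * L) ^ 4) * (1 + L)) * (X * T) +
        2 * (X * Real.exp (-(L / (256000 * Real.log L)))) := by
    have u4 : (1 + L) * ((X : ℝ) ^ (1 / 40 : ℝ) *
        (X * ((X : ℝ) ^ (2 / 5 : ℝ)) ^ (-(1 / 4) : ℝ))) ≤ (1 + L) * (X * T) :=
      mul_le_mul_of_nonneg_left t4 (by linarith)
    have u6 : ((Real.exp 5 * (3 * L) ^ 4) * (1 + L)) *
        ((X : ℝ) * ((X : ℝ) ^ (1 / 80 : ℝ)) ^ (-((1 / 40) / 4) : ℝ)) ≤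
        ((Real.exp 5 * (3 * L) ^ 4) * (1 + L)) * (X * T) :=
      mul_le_mul_of_nonneg_left t6 (by positivity)
    linarith
  refine hsum.trans ?_
  -- polynomial factor
  have hpoly : 17 + 20 * (1 + L) + 24 * (Real.exp 5 * (3 * L) ^ 4) * (1 + L) ≤
      200 * 2 ^ 5 * (1 + Real.exp 5 * 3 ^ 4) * L ^ 5 := by
    have a1 : 1 + L ≤ 2 * L := by linarith
    have a2 : L ≤ L ^ 5 := le_self_pow₀ hL1 (by norm_num)
    have a3 : 24 * (Real.exp 5 * (3 * L) ^ 4) * (1 + L) ≤ 48 * (Real.exp 5 * 3 ^ 4) * L ^ 5 := by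
      calc 24 * (Real.exp 5 * (3 * L) ^ 4) * (1 + L)
          ≤ 24 * (Real.exp 5 * (3 * L) ^ 4) * (2 * L) :=
            mul_le_mul_of_nonneg_left a1 (by positivity)
        _ = 48 * (Real.exp 5 * 3 ^ 4) * L ^ 5 := by ring
    have a4 : 0 ≤ (Real.exp 5 * 3 ^ 4) * L ^ 5 := by positivity
    nlinarith
  have hpolyT : (17 + 20 * (1 + L) + 24 * (Real.exp 5 * (3 * L) ^ 4) * (1 + L)) * T ≤
      Real.exp (-(L / (256000 * Real.log L))) := by
    calc (17 + 20 * (1 + L) + 24 * (Real.exp 5 * (3 * L) ^ 4) * (1 + L)) * T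
        ≤ Real.exp (1 / 40000 * L) * T :=
          mul_le_mul_of_nonneg_right (hpoly.trans h3) hT0.le
      _ = Real.exp (1 / 40000 * L - L / 12800) := by
          rw [hT, ← Real.exp_add]; congr 1
      _ ≤ Real.exp (-(L / (256000 * Real.log L))) := by
          apply Real.exp_le_exp.mpr
          have : L / (256000 * Real.log L) ≤ L / 256000 := by
            apply div_le_div_of_nonneg_left hL0.le (by norm_num)
            linarith
          linarith
  have hfin : (17 + 20 * (1 + L) + 24 * (Real.exp 5 * (3 * L) ^ 4) * (1 + L)) * (X * T) +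
      2 * (X * Real.exp (-(L / (256000 * Real.log L)))) ≤
      X * (3 * Real.exp (-(L / (256000 * Real.log L)))) := by
    have : (17 + 20 * (1 + L) + 24 * (Real.exp 5 * (3 * L) ^ 4) * (1 + L)) * (X * T)
        = X * ((17 + 20 * (1 + L) + 24 * (Real.exp 5 * (3 * L) ^ 4) * (1 + L)) * T) := by ring
    rw [this]
    have := mul_le_mul_of_nonneg_left hpolyT hX0.le
    linarith
  refine hfin.trans ?_
  apply mul_le_mul_of_nonneg_left _ hX0.le
  -- absorb the constant 3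
  rw [pow_one] at h4
  have hq : (2 ^ 22 : ℝ) ≤ L / Real.log L := by
    rw [le_div_iff₀ hlogL0]
    exact h4
  have h3e : (3 : ℝ) ≤ Real.exp (L / Real.log L * (1 / 256000 - 1 / 300000)) := by
    have h5 : (2 : ℝ) ≤ L / Real.log L * (1 / 256000 - 1 / 300000) := by
      have : (0 : ℝ) < 1 / 256000 - 1 / 300000 := by norm_num
      calc (2 : ℝ) ≤ 2 ^ 22 * (1 / 256000 - 1 / 300000) := by norm_num
        _ ≤ _ := mul_le_mul_of_nonneg_right hq this.le
    linarith [Real.add_one_le_exp (L / Real.log L * (1 / 256000 - 1 / 300000))]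
  calc 3 * Real.exp (-(L / (256000 * Real.log L)))
      ≤ Real.exp (L / Real.log L * (1 / 256000 - 1 / 300000)) *
          Real.exp (-(L / (256000 * Real.log L))) :=
        mul_le_mul_of_nonneg_right h3e (Real.exp_pos _).le
    _ = Real.exp (-(1 / 300000 * (L / Real.log L))) := by
        rw [← Real.exp_add]
        congr 1
        field_simp
        ring

end Pool.Agent.Sig3
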