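import Mathlib

/-!
# Roots of `r ^ 3 + 1` modulo `d`
-/

open Finset

namespace Pool.Agent.Sig3

/-- The residues `r < d` with `d ∣ r ^ 3 + 1`. -/
def rts (d : ℕ) : Finset ℕ := (range d).filter (fun r => d ∣ r ^ 3 + 1)

lemma mem_rts {d r : ℕ} : r ∈ rts d ↔ r < d ∧ d ∣ r ^ 3 + 1 := by
  simp [rts]

lemma dvd_mod {d r : ℕ} (h : d ∣ r ^ 3 + 1) : d ∣ (r % d) ^ 3 + 1 := by
  have h1 : (r % d) ^ 3 + 1 ≡ r ^ 3 + 1 [MOD d] :=
    Nat.ModEq.add_right 1 ((Nat.mod_modEq r d).pow 3)
  exact (Nat.modEq_zero_iff_dvd.mp (h1.trans (Nat.modEq_zero_iff_dvd.mpr h)))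

lemma mod_mem_rts {d r : ℕ} (hd : 0 < d) (h : d ∣ r ^ 3 + 1) : r % d ∈ rts d :=
  mem_rts.mpr ⟨Nat.mod_lt _ hd, dvd_mod h⟩

lemma card_rts_mul {a b : ℕ} (ha : 0 < a) (hb : 0 < b) (hab : Nat.Coprime a b) :
    (rts (a * b)).card ≤ (rts a).card * (rts b).card := by
  rw [← card_product]
  apply card_le_card_of_injOn (fun r => (r % a, r % b))
  · intro r hr
    rw [Finset.mem_coe, mem_rts] at hr
    rw [Finset.mem_coe, mem_product]
    exact ⟨mod_mem_rts ha ((Dvd.intro _ rfl).trans hr.2),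
      mod_mem_rts hb ((Dvd.intro_left _ rfl).trans hr.2)⟩
  · intro r hr s hs hrs
    rw [Finset.mem_coe, mem_rts] at hr hs
    simp only [Prod.mk.injEq] at hrs
    have h1 : r ≡ s [MOD a * b] := (Nat.modEq_and_modEq_iff_modEq_mul hab).mp hrs
    exact Nat.ModEq.eq_of_lt_of_lt h1 hr.1 hs.1

lemma card_cube_roots (G : Type*) [CommGroup G] [Fintype G] [DecidableEq G] [IsCyclic G] :
    (univ.filter (fun a : G => a ^ 3 = 1)).card ≤ 3 :=
  IsCyclic.card_pow_eq_one_le (by norm_num)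

lemma cube_roots_units (p e : ℕ) (hp : p.Prime) (he : e ≠ 0) [NeZero (p ^ e)] :
    (univ.filter (fun a : (ZMod (p ^ e))ˣ => a ^ 3 = 1)).card ≤ 3 := by
  by_cases h2 : p = 2
  · subst h2
    have h1 : (univ.filter (fun a : (ZMod (2 ^ e))ˣ => a ^ 3 = 1)) ⊆ {1} := by
      intro a ha
      rw [mem_filter] at ha
      rw [mem_singleton]
      have hcard : Fintype.card (ZMod (2 ^ e))ˣ = 2 ^ (e - 1) := by
        rw [ZMod.card_units_eq_totient, Nat.totient_prime_pow Nat.prime_two (Nat.pos_of_ne_zero he)]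
        simp
      have h3 : orderOf a ∣ 3 := orderOf_dvd_of_pow_eq_one ha.2
      have h4 : orderOf a ∣ 2 ^ (e - 1) := hcard ▸ orderOf_dvd_card
      have h5 : Nat.Coprime 3 (2 ^ (e - 1)) := Nat.Coprime.pow_right _ (by norm_num)
      have h6 : orderOf a ∣ 1 := by
        have := Nat.dvd_gcd h3 h4
        rwa [h5] at this
      exact orderOf_eq_one_iff.mp (Nat.dvd_one.mp h6)
    exact (card_le_card h1).trans (by simp)
  · have : Fact p.Prime := ⟨hp⟩
    have : IsCyclic (ZMod (p ^ e))ˣ := ZMod.isCyclic_units_of_prime_pow p hp h2 e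
    exact card_cube_roots _

lemma card_rts_prime_pow {p e : ℕ} (hp : p.Prime) (he : e ≠ 0) :
    (rts (p ^ e)).card ≤ 3 := by
  classical
  have : NeZero (p ^ e) := ⟨(pow_pos hp.pos e).ne'⟩
  rcases (rts (p ^ e)).eq_empty_or_nonempty with h | ⟨r0, hr0⟩
  · rw [h]; simp
  refine le_trans ?_ (cube_roots_units p e hp he)
  have hcube : ∀ r ∈ rts (p ^ e), ((r : ZMod (p ^ e))) ^ 3 = -1 := by
    intro r hr
    rw [mem_rts] at hr
    have h1 : (((r ^ 3 + 1 : ℕ)) : ZMod (p ^ e)) = 0 :=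
      (ZMod.natCast_eq_zero_iff _ _).mpr hr.2
    push_cast at h1
    exact eq_neg_of_add_eq_zero_left h1
  have h0 := hcube r0 hr0
  -- the unit attached to a root
  have hunit : ∀ r ∈ rts (p ^ e), (r : ZMod (p ^ e)) * (-(r : ZMod (p ^ e)) ^ 2) = 1 := by
    intro r hr
    have := hcube r hr
    linear_combination -this
  let f : ℕ → (ZMod (p ^ e))ˣ := fun r =>
    if hr : r ∈ rts (p ^ e) then
      Units.mkOfMulEqOne (r : ZMod (p ^ e)) (-(r : ZMod (p ^ e)) ^ 2) (hunit r hr)
    else 1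
  have hf : ∀ r ∈ rts (p ^ e), ((f r : (ZMod (p ^ e))ˣ) : ZMod (p ^ e)) = r := by
    intro r hr
    simp only [f, dif_pos hr, Units.val_mkOfMulEqOne]
  apply card_le_card_of_injOn (fun r => f r / f r0)
  · intro r hr
    rw [Finset.mem_coe] at hr
    rw [Finset.mem_coe, mem_filter]
    refine ⟨mem_univ _, ?_⟩
    rw [div_pow, div_eq_one]
    ext
    push_cast
    rw [hf r hr, hf r0 hr0, hcube r hr, h0]
  · intro r hr s hs hrs
    rw [Finset.mem_coe] at hr hs
    have h1 : f r = f s := by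
      have := div_left_injective (b := f r0) hrs
      exact this
    have h2 : (r : ZMod (p ^ e)) = s := by rw [← hf r hr, ← hf s hs, h1]
    have h3 := (ZMod.natCast_eq_natCast_iff r s (p ^ e)).mp h2
    exact Nat.ModEq.eq_of_lt_of_lt h3 (mem_rts.mp hr).1 (mem_rts.mp hs).1

lemma card_rts_le {d : ℕ} (hd : 0 < d) : (rts d).card ≤ 3 ^ d.primeFactors.card := by
  induction d using Nat.recOnPosPrimePosCoprime with
  | prime_pow p n hp hn =>
    rw [Nat.primeFactors_prime_pow hn.ne' hp]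
    simpa using card_rts_prime_pow hp hn.ne'
  | zero => omega
  | one =>
    have : (rts 1).card ≤ 1 := by
      refine le_trans (card_filter_le _ _) ?_
      simp
    simpa using this
  | coprime a b ha hb hab iha ihb =>
    refine (card_rts_mul (by omega) (by omega) hab).trans ?_
    rw [hab.primeFactors_mul, card_union_of_disjoint hab.disjoint_primeFactors, pow_add]
    exact Nat.mul_le_mul (iha (by omega)) (ihb (by omega))

lemma card_rts_le' {d : ℕ} (hd : 0 < d) :
    (rts d).card ≤ 3 ^ ArithmeticFunction.cardFactors d := by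
  refine (card_rts_le hd).trans (Nat.pow_le_pow_right (by norm_num) ?_)
  rw [ArithmeticFunction.cardFactors_apply]
  exact List.toFinset_card_le _

/-- Number of `r ≤ Y` with `d ∣ r ^ 3 + 1`. -/
lemma card_cube_le {d : ℕ} (hd : 0 < d) (Y : ℕ) :
    ((range (Y + 1)).filter (fun r => d ∣ r ^ 3 + 1)).card ≤ (rts d).card * (Y / d + 1) := by
  rw [← card_range (Y / d + 1), ← card_product]
  apply card_le_card_of_injOn (fun r => (r % d, r / d))
  · intro r hr
    rw [Finset.mem_coe, mem_filter, mem_range] at hr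
    rw [Finset.mem_coe, mem_product, mem_range]
    refine ⟨mod_mem_rts hd hr.2, ?_⟩
    have : r / d ≤ Y / d := Nat.div_le_div_right (by omega)
    simp only
    omega
  · intro r _ s _ hrs
    simp only [Prod.mk.injEq] at hrs
    rw [← Nat.mod_add_div r d, ← Nat.mod_add_div s d, hrs.1, hrs.2]

/-- The weighted sum over `r ≤ X` with `d ∣ r ^ 3 + 1`. -/
lemma sum_cube_le {d : ℕ} (hd : 0 < d) (X : ℕ) :
    ∑ r ∈ (Icc 1 X).filter (fun r => d ∣ r ^ 3 + 1), (1 : ℝ) / r
      ≤ (rts d).card * ((3 + Real.log X) * (d : ℝ) ^ (-(1 / 3) : ℝ)) := by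
  have hdr : (1 : ℝ) ≤ d := by exact_mod_cast hd
  have hdpos : (0 : ℝ) < d := by linarith
  set w : ℝ := (d : ℝ) ^ (-(1 / 3) : ℝ) with hw
  have hwpos : 0 < w := Real.rpow_pos_of_pos hdpos _
  have hdw : 1 / (d : ℝ) ≤ w := by
    rw [hw, one_div, ← Real.rpow_neg_one]
    exact Real.rpow_le_rpow_of_exponent_le hdr (by norm_num)
  let g : ℕ → ℝ := fun i => if i = 0 then 2 * w else w / i
  have hg0 : ∀ i, 0 ≤ g i := by
    intro i
    simp only [g]
    split_ifs <;> positivity
  have hterm : ∀ r ∈ (Icc 1 X).filter (fun r => d ∣ r ^ 3 + 1), (1 : ℝ) / r ≤ g (r / d) := by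
    intro r hr
    rw [mem_filter, mem_Icc] at hr
    have hr1 : (1 : ℝ) ≤ r := by exact_mod_cast hr.1.1
    simp only [g]
    split_ifs with h
    · -- `d ≤ r ^ 3 + 1 ≤ 2 r ^ 3`
      have h1 : d ≤ r ^ 3 + 1 := Nat.le_of_dvd (by positivity) hr.2
      have h2 : (d : ℝ) ≤ r ^ 3 + 1 := by exact_mod_cast h1
      have h3 : (1 : ℝ) ≤ (r : ℝ) ^ 3 := one_le_pow₀ hr1
      have h4 : (d : ℝ) ≤ (2 * r) ^ 3 := by nlinarith
      have h5 : (d : ℝ) ^ ((1 / 3) : ℝ) ≤ 2 * r := by
        have h6 := Real.rpow_le_rpow hdpos.le h4 (show (0 : ℝ) ≤ 1 / 3 by norm_num)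
        rw [← Real.rpow_natCast, ← Real.rpow_mul (by positivity)] at h6
        norm_num at h6
        convert h6 using 2
      have h7 : w = ((d : ℝ) ^ ((1 / 3) : ℝ))⁻¹ := by
        rw [hw, Real.rpow_neg hdpos.le]
      have h8 : 0 < (d : ℝ) ^ ((1 / 3) : ℝ) := Real.rpow_pos_of_pos hdpos _
      rw [h7, ← div_eq_mul_inv, div_le_div_iff₀ (by linarith) h8]
      linarith
    · have hi : (0 : ℝ) < ((r / d : ℕ) : ℝ) := by
        exact_mod_cast Nat.pos_of_ne_zero h
      have h1 : d * (r / d) ≤ r := Nat.mul_div_le r d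
      have h2 : (d : ℝ) * ((r / d : ℕ) : ℝ) ≤ r := by exact_mod_cast h1
      calc (1 : ℝ) / r ≤ 1 / ((d : ℝ) * ((r / d : ℕ) : ℝ)) :=
            one_div_le_one_div_of_le (by positivity) h2
        _ = (1 / d) / ((r / d : ℕ) : ℝ) := by field_simp
        _ ≤ w / ((r / d : ℕ) : ℝ) := by gcongr
  calc ∑ r ∈ (Icc 1 X).filter (fun r => d ∣ r ^ 3 + 1), (1 : ℝ) / r
      ≤ ∑ r ∈ (Icc 1 X).filter (fun r => d ∣ r ^ 3 + 1), g (r / d) := sum_le_sum hterm
    _ = ∑ q ∈ ((Icc 1 X).filter (fun r => d ∣ r ^ 3 + 1)).image (fun r => (r % d, r / d)),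
          g q.2 := by
        rw [sum_image]
        intro r _ s _ hrs
        simp only [Prod.mk.injEq] at hrs
        rw [← Nat.mod_add_div r d, ← Nat.mod_add_div s d, hrs.1, hrs.2]
    _ ≤ ∑ q ∈ rts d ×ˢ range (X + 1), g q.2 := by
        apply sum_le_sum_of_subset_of_nonneg
        · intro q hq
          rw [mem_image] at hq
          obtain ⟨r, hr, rfl⟩ := hq
          rw [mem_filter, mem_Icc] at hr
          rw [mem_product, mem_range]
          refine ⟨mod_mem_rts hd hr.2, ?_⟩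
          have : r / d ≤ r := Nat.div_le_self r d
          simp only
          omega
        · intro q _ _
          exact hg0 _
    _ = (rts d).card * ∑ i ∈ range (X + 1), g i := by
        rw [sum_product]
        simp only
        rw [sum_const, nsmul_eq_mul]
    _ ≤ (rts d).card * ((3 + Real.log X) * w) := by
        apply mul_le_mul_of_nonneg_left _ (Nat.cast_nonneg _)
        rw [sum_range_succ']
        have h1 : g 0 = 2 * w := by simp [g]
        have h2 : ∑ i ∈ range X, g (i + 1) = w * ((harmonic X : ℚ) : ℝ) := by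
          rw [harmonic, Rat.cast_sum, mul_sum]
          apply sum_congr rfl
          intro i _
          simp only [g, Nat.succ_ne_zero, if_false]
          push_cast
          rw [div_eq_mul_inv]
        rw [h1, h2]
        have h3 := harmonic_le_one_add_log X
        nlinarith [mul_le_mul_of_nonneg_left h3 hwpos.le]

end Pool.Agent.Sig3
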