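import Mathlib

/-!
# Rough and smooth parts, good primes
-/

open Finset ArithmeticFunction

namespace Pool.Agent.Sig3

/-- The `z`-rough part of `m`. -/
noncomputable def rgh (z m : ℕ) : ℕ :=
  ∏ p ∈ m.primeFactors.filter (fun p => z < p), p ^ m.factorization p

/-- The `z`-smooth part of `m`. -/
noncomputable def smt (z m : ℕ) : ℕ :=
  ∏ p ∈ m.primeFactors.filter (fun p => ¬ z < p), p ^ m.factorization p

lemma rgh_mul_smt (z : ℕ) {m : ℕ} (hm : m ≠ 0) : rgh z m * smt z m = m := by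
  rw [rgh, smt, prod_filter_mul_prod_filter_not]
  exact Nat.prod_factorization_pow_eq_self hm

lemma rgh_dvd (z : ℕ) {m : ℕ} (hm : m ≠ 0) : rgh z m ∣ m :=
  Dvd.intro _ (rgh_mul_smt z hm)

lemma rgh_pos (z m : ℕ) : 0 < rgh z m := by
  apply prod_pos
  intro p hp
  rw [mem_filter] at hp
  exact pow_pos (Nat.prime_of_mem_primeFactors hp.1).pos _

lemma smt_pos (z m : ℕ) : 0 < smt z m := by
  apply prod_pos
  intro p hp
  rw [mem_filter] at hp
  exact pow_pos (Nat.prime_of_mem_primeFactors hp.1).pos _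

lemma lt_of_dvd_rgh {z m q : ℕ} (hq : q.Prime) (h : q ∣ rgh z m) : z < q := by
  obtain ⟨p, hp, hqp⟩ := (hq.prime.dvd_finsetProd_iff _).mp h
  rw [mem_filter] at hp
  have h1 := hq.dvd_of_dvd_pow hqp
  have h2 := (Nat.prime_dvd_prime_iff_eq hq (Nat.prime_of_mem_primeFactors hp.1)).mp h1
  rw [h2]
  exact hp.2

lemma le_of_dvd_smt {z m q : ℕ} (hq : q.Prime) (h : q ∣ smt z m) : q ≤ z := by
  obtain ⟨p, hp, hqp⟩ := (hq.prime.dvd_finsetProd_iff _).mp h
  rw [mem_filter] at hp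
  have h1 := hq.dvd_of_dvd_pow hqp
  have h2 := (Nat.prime_dvd_prime_iff_eq hq (Nat.prime_of_mem_primeFactors hp.1)).mp h1
  rw [h2]
  exact not_lt.mp hp.2

lemma exists_prime_mul {n : ℕ} (hn : 0 < n) (h1 : n ≠ 1) :
    ∃ p : ℕ, p.Prime ∧ ∃ m, 0 < m ∧ m < n ∧ n = p * m := by
  obtain ⟨m, hm⟩ := Nat.minFac_dvd n
  have hp := Nat.minFac_prime h1
  have hm0 : 0 < m := by
    rcases Nat.eq_zero_or_pos m with h0 | h0
    · rw [h0] at hm; omega
    · exact h0
  refine ⟨n.minFac, hp, m, hm0, ?_, hm⟩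
  calc m < 2 * m := by omega
    _ ≤ n.minFac * m := Nat.mul_le_mul_right _ hp.two_le
    _ = n := hm.symm

/-- `z`-rough numbers have few prime factors. -/
lemma pow_cardFactors_le {z : ℕ} (d : ℕ) (hd : 0 < d)
    (hr : ∀ q : ℕ, q.Prime → q ∣ d → z < q) : z ^ cardFactors d ≤ d := by
  induction d using Nat.strong_induction_on with
  | _ d ih =>
    by_cases h1 : d = 1
    · subst h1; simp
    obtain ⟨p, hp, m, hm0, hmd, hdm⟩ := exists_prime_mul hd h1
    have h2 := ih m hmd hm0 (fun q hq hqm => hr q hq (hqm.trans ⟨p, by rw [hdm]; ring⟩))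
    have h3 : z < p := hr p hp ⟨m, hdm⟩
    have h4 : cardFactors d = 1 + cardFactors m := by
      rw [hdm, cardFactors_mul hp.ne_zero hm0.ne', cardFactors_apply_prime hp]
    rw [h4, pow_add, pow_one, hdm]
    exact Nat.mul_le_mul h3.le h2

lemma two_pow_cardFactors_le (d : ℕ) (hd : 0 < d) : 2 ^ cardFactors d ≤ d := by
  induction d using Nat.strong_induction_on with
  | _ d ih =>
    by_cases h1 : d = 1
    · subst h1; simp
    obtain ⟨p, hp, m, hm0, hmd, hdm⟩ := exists_prime_mul hd h1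
    have h2 := ih m hmd hm0
    have h4 : cardFactors d = 1 + cardFactors m := by
      rw [hdm, cardFactors_mul hp.ne_zero hm0.ne', cardFactors_apply_prime hp]
    rw [h4, pow_add, pow_one, hdm]
    exact Nat.mul_le_mul hp.two_le h2

/-- The least divisor which is at least `w`. -/
lemma exists_min_divisor (n : ℕ) (hn : 0 < n) (w : ℝ) (hw : w ≤ n) :
    ∃ d : ℕ, d ∣ n ∧ w ≤ d ∧ ∀ e : ℕ, e ∣ n → w ≤ e → d ≤ e := by
  classical
  have hne : (n.divisors.filter (fun d : ℕ => w ≤ (d : ℝ))).Nonempty :=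
    ⟨n, mem_filter.mpr ⟨Nat.mem_divisors.mpr ⟨dvd_refl n, hn.ne'⟩, hw⟩⟩
  obtain ⟨d, hd, hmin⟩ := exists_min_image _ (fun d : ℕ => d) hne
  rw [mem_filter, Nat.mem_divisors] at hd
  refine ⟨d, hd.1.1, hd.2, ?_⟩
  intro e he hwe
  exact hmin e (mem_filter.mpr ⟨Nat.mem_divisors.mpr ⟨he, hn.ne'⟩, hwe⟩)

/-- A smooth number has a divisor in every short interval. -/
lemma smooth_divisor {z S : ℕ} (hz : 2 ≤ z) (hS : 0 < S) (hsm : ∀ q : ℕ, q.Prime → q ∣ S → q ≤ z)
    (w : ℝ) (hw1 : 1 ≤ w) (hw : w ≤ S) : ∃ d : ℕ, d ∣ S ∧ w ≤ d ∧ (d : ℝ) < w * z := by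
  obtain ⟨d, hdS, hwd, hmin⟩ := exists_min_divisor S hS w hw
  refine ⟨d, hdS, hwd, ?_⟩
  have hzr : (2 : ℝ) ≤ z := by exact_mod_cast hz
  by_cases h1 : d = 1
  · subst h1
    push_cast
    nlinarith
  have hd0 : 0 < d := Nat.pos_of_dvd_of_pos hdS hS
  obtain ⟨p, hp, m, hm0, hmd, hdm⟩ := exists_prime_mul hd0 h1
  have hmS : m ∣ S := (Dvd.intro_left p hdm.symm).trans hdS
  have hmw : (m : ℝ) < w := by
    by_contra hcon
    have := hmin m hmS (not_lt.mp hcon)
    omega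
  have hpz : (p : ℝ) ≤ z := by exact_mod_cast hsm p hp ((Dvd.intro m hdm.symm).trans hdS)
  have hm1 : (0 : ℝ) < m := by exact_mod_cast hm0
  rw [hdm]
  push_cast
  calc (p : ℝ) * m ≤ z * m := by gcongr
    _ < z * w := by
      apply mul_lt_mul_of_pos_left hmw
      linarith
    _ = w * z := by ring

/-- Good primes: the `z`-rough part of `p ^ 3 + 1` is at least `p ^ 2`. -/
def Good (z p : ℕ) : Prop := p.Prime ∧ p ^ 2 ≤ rgh z (p ^ 3 + 1)

/-- Square-free products of good primes. -/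
def GoodSq (z a : ℕ) : Prop := Squarefree a ∧ ∀ p ∈ a.primeFactors, Good z p

/-- The rough divisor of `σ₃(a)`. -/
noncomputable def DD (z a : ℕ) : ℕ := ∏ p ∈ a.primeFactors, rgh z (p ^ 3 + 1)

lemma GoodSq.pos {z a : ℕ} (h : GoodSq z a) : 0 < a := Nat.pos_of_ne_zero h.1.ne_zero

lemma DD_pos (z a : ℕ) : 0 < DD z a := prod_pos (fun _ _ => rgh_pos _ _)

lemma lt_of_dvd_DD {z a q : ℕ} (hq : q.Prime) (h : q ∣ DD z a) : z < q := by
  obtain ⟨p, hp, hqp⟩ := (hq.prime.dvd_finsetProd_iff _).mp h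
  exact lt_of_dvd_rgh hq hqp

lemma sigma_three_prime {p : ℕ} (hp : p.Prime) : sigma 3 p = p ^ 3 + 1 := by
  rw [sigma_apply, hp.divisors, sum_pair hp.one_lt.ne]
  ring

lemma sigma_three_prod (T : Finset ℕ) (hT : ∀ p ∈ T, p.Prime) :
    sigma 3 (∏ p ∈ T, p) = ∏ p ∈ T, (p ^ 3 + 1) := by
  classical
  induction T using Finset.induction_on with
  | empty => simp
  | insert p T hpT ih =>
    rw [prod_insert hpT, prod_insert hpT]
    have h1 : Nat.Coprime p (∏ q ∈ T, q) := by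
      apply Nat.Coprime.prod_right
      intro q hq
      have hpq : p ≠ q := fun h => hpT (h ▸ hq)
      exact (Nat.coprime_primes (hT p (mem_insert_self _ _)) (hT q (mem_insert_of_mem hq))).mpr hpq
    rw [isMultiplicative_sigma.map_mul_of_coprime h1, ih (fun q hq => hT q (mem_insert_of_mem hq)),
      sigma_three_prime (hT p (mem_insert_self _ _))]

lemma sigma_three_squarefree {a : ℕ} (ha : Squarefree a) :
    sigma 3 a = ∏ p ∈ a.primeFactors, (p ^ 3 + 1) := by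
  conv_lhs => rw [← Nat.prod_primeFactors_of_squarefree ha]
  exact sigma_three_prod _ (fun p hp => Nat.prime_of_mem_primeFactors hp)

lemma DD_dvd_sigma (z : ℕ) {a : ℕ} (ha : Squarefree a) : DD z a ∣ sigma 3 a := by
  rw [sigma_three_squarefree ha]
  exact prod_dvd_prod_of_dvd _ _ (fun p _ => rgh_dvd z (by positivity))

lemma sq_le_DD {z a : ℕ} (ha : GoodSq z a) : a ^ 2 ≤ DD z a := by
  conv_lhs => rw [← Nat.prod_primeFactors_of_squarefree ha.1]
  rw [← prod_pow, DD]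
  exact prod_le_prod' (fun p hp => (ha.2 p hp).2)

lemma DD_le {z a : ℕ} (ha : Squarefree a) : DD z a ≤ a ^ 4 := by
  have h0 : 0 < a := Nat.pos_of_ne_zero ha.ne_zero
  exact (Nat.le_of_dvd (sigma_pos 3 a h0.ne') (DD_dvd_sigma z ha)).trans (sigma_le_pow_succ 3 a)

lemma GoodSq.of_dvd {z a b : ℕ} (h : GoodSq z a) (hb : b ∣ a) : GoodSq z b :=
  ⟨h.1.squarefree_of_dvd hb, fun p hp => h.2 p
    (Nat.primeFactors_mono hb h.pos.ne' hp)⟩

end Pool.Agent.Sig3
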