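import Pool.Agent.Helper46_Sig3.Roots
import Pool.Agent.Helper46_Sig3.Rough

/-!
# Sums over smooth numbers and over bad primes
-/

open Finset ArithmeticFunction

namespace Pool.Agent.Sig3

lemma two_rpow_le {α : ℝ} (hα : 9 / 10 ≤ α) {p : ℕ} (hp : p.Prime) :
    (p : ℝ) ^ (-α) ≤ 4 / 7 := by
  have hp2 : (2 : ℝ) ≤ p := by exact_mod_cast hp.two_le
  have h1 : (7 / 4 : ℝ) ≤ (p : ℝ) ^ α := by
    have h2 : ((7 / 4 : ℝ) ^ (10 : ℕ)) ≤ (2 : ℝ) ^ (9 : ℕ) := by norm_num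
    have h3 : ((7 / 4 : ℝ) ^ (10 : ℕ)) ^ ((1 / 10 : ℝ)) ≤ ((2 : ℝ) ^ (9 : ℕ)) ^ ((1 / 10 : ℝ)) :=
      Real.rpow_le_rpow (by positivity) h2 (by norm_num)
    rw [← Real.rpow_natCast, ← Real.rpow_natCast, ← Real.rpow_mul (by norm_num),
      ← Real.rpow_mul (by norm_num)] at h3
    norm_num at h3
    calc (7 / 4 : ℝ) ≤ (2 : ℝ) ^ (9 / 10 : ℝ) := h3
      _ ≤ (2 : ℝ) ^ α := Real.rpow_le_rpow_of_exponent_le (by norm_num) hα
      _ ≤ (p : ℝ) ^ α := Real.rpow_le_rpow (by norm_num) hp2 (by linarith)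
  rw [Real.rpow_neg (by linarith)]
  rw [inv_le_comm₀ (by linarith) (by norm_num)]
  norm_num
  linarith

/-- The weight `3 ^ ω(d) d ^ (-α)`. -/
noncomputable def wt (α : ℝ) (d : ℕ) : ℝ := (3 : ℝ) ^ (d.primeFactors.card) * (d : ℝ) ^ (-α)

lemma wt_nonneg (α : ℝ) (d : ℕ) : 0 ≤ wt α d :=
  mul_nonneg (by positivity) (Real.rpow_nonneg (Nat.cast_nonneg d) _)

lemma wt_one (α : ℝ) : wt α 1 = 1 := by simp [wt]

lemma wt_mul (α : ℝ) {m n : ℕ} (h : Nat.Coprime m n) : wt α (m * n) = wt α m * wt α n := by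
  rw [wt, wt, wt, h.primeFactors_mul, card_union_of_disjoint h.disjoint_primeFactors, pow_add]
  push_cast
  rw [Real.mul_rpow (Nat.cast_nonneg m) (Nat.cast_nonneg n)]
  ring

lemma wt_prime_pow (α : ℝ) {p : ℕ} (hp : p.Prime) (n : ℕ) :
    wt α (p ^ n) = 3 * ((p : ℝ) ^ (-α)) ^ n - (if n = 0 then 2 else 0) := by
  have hp0 : (0 : ℝ) ≤ p := Nat.cast_nonneg p
  split_ifs with h
  · subst h
    norm_num [wt]
  · rw [wt, Nat.primeFactors_prime_pow h hp, card_singleton, pow_one, sub_zero]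
    congr 1
    push_cast
    rw [← Real.rpow_natCast, ← Real.rpow_natCast, ← Real.rpow_mul hp0, ← Real.rpow_mul hp0]
    congr 1
    ring

lemma hasSum_wt {α : ℝ} (hα : 9 / 10 ≤ α) {p : ℕ} (hp : p.Prime) :
    HasSum (fun n : ℕ => wt α (p ^ n)) (3 * (1 - (p : ℝ) ^ (-α))⁻¹ - 2) := by
  have h1 : HasSum (fun n : ℕ => 3 * ((p : ℝ) ^ (-α)) ^ n) (3 * (1 - (p : ℝ) ^ (-α))⁻¹) := by
    apply HasSum.mul_left
    apply hasSum_geometric_of_lt_one (Real.rpow_nonneg (Nat.cast_nonneg p) _)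
    linarith [two_rpow_le hα hp]
  have h2 : HasSum (fun n : ℕ => if n = 0 then (2 : ℝ) else 0) 2 := hasSum_ite_eq 0 2
  have h3 := h1.sub h2
  refine h3.congr_fun ?_ |> fun h => h
  intro n
  exact wt_prime_pow α hp n

lemma tsum_wt_le {α : ℝ} (hα : 9 / 10 ≤ α) {p : ℕ} (hp : p.Prime) :
    ∑' n : ℕ, wt α (p ^ n) ≤ Real.exp (7 * (p : ℝ) ^ (-α)) := by
  rw [(hasSum_wt hα hp).tsum_eq]
  have h1 := two_rpow_le hα hp
  have h0 : 0 ≤ (p : ℝ) ^ (-α) := Real.rpow_nonneg (Nat.cast_nonneg p) _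
  set x := (p : ℝ) ^ (-α)
  have h2 : 3 * (1 - x)⁻¹ - 2 ≤ 7 * x + 1 := by
    have h3 : 0 < 1 - x := by linarith
    rw [sub_le_iff_le_add, ← div_eq_mul_inv, div_le_iff₀ h3]
    nlinarith
  exact h2.trans (Real.add_one_le_exp _)

lemma smooth_sum (z : ℕ) (S : Finset ℕ)
    (hS : ∀ d ∈ S, ∀ q : ℕ, q.Prime → q ∣ d → q ≤ z) {α : ℝ} (hα : 9 / 10 ≤ α) :
    ∑ d ∈ S, wt α d
      ≤ Real.exp (7 * ∑ p ∈ Nat.primesBelow (z + 1), (p : ℝ) ^ (-α)) := by
  have hH := EulerProduct.summable_and_hasSum_smoothNumbers_prod_primesBelow_tsum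
    (f := wt α) (wt_one α) (fun {m n} h => wt_mul α h)
    (fun {p} hp => by
      have := (hasSum_wt hα hp).summable
      simpa [Real.norm_of_nonneg (wt_nonneg α _)] using this) (z + 1)
  have hmem : ∀ d ∈ S, d ∈ Nat.smoothNumbers (z + 1) := by
    intro d hd
    rw [Nat.mem_smoothNumbers']
    intro p hp hpd
    have := hS d hd p hp hpd
    omega
  have h1 : ∑ d ∈ S, wt α d = ∑ d ∈ S.subtype (· ∈ Nat.smoothNumbers (z + 1)), wt α d :=
    (sum_subtype_of_mem (wt α) hmem).symm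
  rw [h1]
  refine (sum_le_hasSum _ (fun _ _ => wt_nonneg α _) hH.2).trans ?_
  rw [mul_sum, Real.exp_sum]
  apply prod_le_prod
  · intro p _
    exact tsum_nonneg (fun _ => wt_nonneg α _)
  · intro p hp
    exact tsum_wt_le hα (Nat.prime_of_mem_primesBelow hp)

/-- `∑ i ^ (-1 - s) ≤ 1 + 1 / s`. -/
lemma zeta_sum_le {s : ℝ} (hs : 0 < s) (N : ℕ) :
    ∑ i ∈ Icc 1 N, (i : ℝ) ^ (-1 - s) ≤ 1 + 1 / s := by
  have hmain : ∀ N : ℕ, 1 ≤ N → ∑ i ∈ Icc 1 N, (i : ℝ) ^ (-1 - s)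
      ≤ 1 + (1 / s) * (1 - (N : ℝ) ^ (-s)) := by
    intro N hN
    induction N, hN using Nat.le_induction with
    | base => simp
    | succ N hN ih =>
      rw [sum_Icc_succ_top (by omega)]
      have hNr : (1 : ℝ) ≤ N := by exact_mod_cast hN
      have hN0 : (0 : ℝ) < N := by linarith
      have hN1 : (0 : ℝ) < (N : ℝ) + 1 := by linarith
      have hkey : ((N : ℝ) + 1) ^ (-1 - s) ≤ (1 / s) * ((N : ℝ) ^ (-s) - ((N : ℝ) + 1) ^ (-s)) := by
        have h1 : (N : ℝ) ^ (-s) = ((N : ℝ) + 1) ^ (-s) * (N / (N + 1)) ^ (-s) := by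
          rw [← Real.mul_rpow hN1.le (by positivity)]
          congr 1
          field_simp
        have h2 : 1 + s / (N + 1) ≤ ((N : ℝ) / (N + 1)) ^ (-s) := by
          rw [Real.rpow_def_of_pos (by positivity)]
          have h3 : s / (N + 1) ≤ Real.log ((N : ℝ) / (N + 1)) * -s := by
            have h4 : Real.log ((N : ℝ) / (N + 1)) ≤ (N : ℝ) / (N + 1) - 1 :=
              Real.log_le_sub_one_of_pos (by positivity)
            have h5 : (N : ℝ) / (N + 1) - 1 = - (1 / (N + 1)) := by field_simp; ring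
            rw [h5] at h4
            have h6 : s / (N + 1) = -(1 / ((N : ℝ) + 1)) * -s := by ring
            rw [h6]
            nlinarith
          have := Real.add_one_le_exp (Real.log ((N : ℝ) / (N + 1)) * -s)
          linarith
        have h7 : ((N : ℝ) + 1) ^ (-1 - s) = ((N : ℝ) + 1) ^ (-s) / (N + 1) := by
          rw [show (-1 - s : ℝ) = -s - 1 by ring, Real.rpow_sub hN1, Real.rpow_one]
        rw [h7, h1]
        have h8 : 0 < ((N : ℝ) + 1) ^ (-s) := Real.rpow_pos_of_pos hN1 _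
        calc ((N : ℝ) + 1) ^ (-s) / (N + 1)
            = (1 / s) * (((N : ℝ) + 1) ^ (-s) * (1 + s / (N + 1)) - ((N : ℝ) + 1) ^ (-s)) := by
              field_simp
              ring
          _ ≤ _ := by
              apply mul_le_mul_of_nonneg_left _ (by positivity)
              have := mul_le_mul_of_nonneg_left h2 h8.le
              linarith
      push_cast
      have e1 : 1 + 1 / s * (1 - ((N : ℝ) + 1) ^ (-s)) = 1 + 1 / s * (1 - (N : ℝ) ^ (-s))
          + (1 / s) * ((N : ℝ) ^ (-s) - ((N : ℝ) + 1) ^ (-s)) := by ring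
      rw [e1]
      exact add_le_add ih hkey
  rcases Nat.eq_zero_or_pos N with h0 | h0
  · subst h0
    simp
    positivity
  · refine (hmain N h0).trans ?_
    have h1 : 0 ≤ (N : ℝ) ^ (-s) := Real.rpow_nonneg (Nat.cast_nonneg N) _
    have h2 : 0 < 1 / s := by positivity
    nlinarith

lemma inner_sum {d : ℕ} (hd : 0 < d) (X : ℕ) {s : ℝ} (hs : 0 < s) :
    ∑ m ∈ (Icc 1 X).filter (fun m => d ≤ m ∧ d ∣ m ^ 3 + 1), (m : ℝ) ^ (-1 - s)
      ≤ (rts d).card * ((d : ℝ) ^ (-1 - s) * (1 + 1 / s)) := by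
  have hdr : (0 : ℝ) < d := by exact_mod_cast hd
  have hnn : ∀ x : ℝ, 0 ≤ x → 0 ≤ x ^ (-1 - s) := fun x hx => Real.rpow_nonneg hx _
  calc ∑ m ∈ (Icc 1 X).filter (fun m => d ≤ m ∧ d ∣ m ^ 3 + 1), (m : ℝ) ^ (-1 - s)
      ≤ ∑ m ∈ (Icc 1 X).filter (fun m => d ≤ m ∧ d ∣ m ^ 3 + 1),
          (d : ℝ) ^ (-1 - s) * ((m / d : ℕ) : ℝ) ^ (-1 - s) := by
        apply sum_le_sum
        intro m hm
        rw [mem_filter, mem_Icc] at hm
        have h1 : 1 ≤ m / d := (Nat.one_le_div_iff hd).mpr hm.2.1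
        have h2 : (d : ℝ) * ((m / d : ℕ) : ℝ) ≤ m := by exact_mod_cast Nat.mul_div_le m d
        have h3 : (0 : ℝ) < ((m / d : ℕ) : ℝ) := by exact_mod_cast h1
        rw [← Real.mul_rpow hdr.le h3.le]
        exact Real.rpow_le_rpow_of_nonpos (by positivity) h2 (by linarith)
    _ = ∑ q ∈ ((Icc 1 X).filter (fun m => d ≤ m ∧ d ∣ m ^ 3 + 1)).image
          (fun r => (r % d, r / d)), (d : ℝ) ^ (-1 - s) * (q.2 : ℝ) ^ (-1 - s) := by
        rw [sum_image]
        intro r _ t _ hrs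
        simp only [Prod.mk.injEq] at hrs
        rw [← Nat.mod_add_div r d, ← Nat.mod_add_div t d, hrs.1, hrs.2]
    _ ≤ ∑ q ∈ rts d ×ˢ Icc 1 X, (d : ℝ) ^ (-1 - s) * (q.2 : ℝ) ^ (-1 - s) := by
        apply sum_le_sum_of_subset_of_nonneg
        · intro q hq
          rw [mem_image] at hq
          obtain ⟨r, hr, rfl⟩ := hq
          rw [mem_filter, mem_Icc] at hr
          rw [mem_product, mem_Icc]
          refine ⟨mod_mem_rts hd hr.2.2, (Nat.one_le_div_iff hd).mpr hr.2.1, ?_⟩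
          exact (Nat.div_le_self r d).trans hr.1.2
        · intro q _ _
          exact mul_nonneg (hnn _ hdr.le) (hnn _ (Nat.cast_nonneg _))
    _ = (rts d).card * ((d : ℝ) ^ (-1 - s) * ∑ i ∈ Icc 1 X, (i : ℝ) ^ (-1 - s)) := by
        rw [sum_product]
        simp only
        rw [sum_const, nsmul_eq_mul, ← mul_sum]
    _ ≤ _ := by
        apply mul_le_mul_of_nonneg_left _ (Nat.cast_nonneg _)
        exact mul_le_mul_of_nonneg_left (zeta_sum_le hs X) (hnn _ hdr.le)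

lemma bad_divisor {z m : ℕ} (hz : 2 ≤ z) (hm : z ^ 4 < m) (hbad : ¬ m ^ 2 ≤ rgh z (m ^ 3 + 1)) :
    ∃ d : ℕ, 0 < d ∧ d ∣ m ^ 3 + 1 ∧ (∀ q : ℕ, q.Prime → q ∣ d → q ≤ z) ∧ m ≤ d ^ 4 ∧
      d ^ 2 ≤ m := by
  have hm0 : 0 < m := by omega
  have hmr : (1 : ℝ) ≤ m := by exact_mod_cast hm0
  have h1 := rgh_mul_smt z (m := m ^ 3 + 1) (by positivity)
  set S := smt z (m ^ 3 + 1) with hS
  have hSpos : 0 < S := smt_pos _ _
  have hmS : m ≤ S := by
    by_contra hcon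
    have h2 : S ≤ m := (not_le.mp hcon).le
    have h3 : rgh z (m ^ 3 + 1) * S ≤ m ^ 2 * m := Nat.mul_le_mul (not_le.mp hbad).le h2
    have h4 : m ^ 2 * m = m ^ 3 := by ring
    omega
  set w : ℝ := (m : ℝ) ^ ((1 / 4 : ℝ)) with hw
  have hw1 : 1 ≤ w := Real.one_le_rpow hmr (by norm_num)
  have hw4 : w ^ 4 = m := by
    rw [hw, ← Real.rpow_natCast, ← Real.rpow_mul (by linarith)]
    norm_num
  have hwS : w ≤ S := by
    have h5 : w ≤ m := by
      rw [← hw4]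
      exact le_self_pow₀ hw1 (by norm_num)
    exact h5.trans (by exact_mod_cast hmS)
  obtain ⟨d, hdS, hwd, hdw⟩ := smooth_divisor hz hSpos (fun q hq h => le_of_dvd_smt hq h) w hw1 hwS
  have hd0 : 0 < d := Nat.pos_of_dvd_of_pos hdS hSpos
  refine ⟨d, hd0, hdS.trans (Dvd.intro_left _ h1), fun q hq h => le_of_dvd_smt hq (h.trans hdS),
    ?_, ?_⟩
  · have h6 : (m : ℝ) ≤ (d : ℝ) ^ 4 := by
      rw [← hw4]
      exact pow_le_pow_left₀ (by linarith) hwd 4
    exact_mod_cast h6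
  · have hzw : (z : ℝ) ≤ w := by
      have h7 : ((z : ℝ)) ^ 4 ≤ w ^ 4 := by rw [hw4]; exact_mod_cast hm.le
      exact le_of_pow_le_pow_left₀ (by norm_num) (by linarith) h7
    have h8 : (d : ℝ) ≤ w ^ 2 := by nlinarith
    have h9 : (d : ℝ) ^ 2 ≤ m := by
      calc (d : ℝ) ^ 2 ≤ (w ^ 2) ^ 2 := pow_le_pow_left₀ (Nat.cast_nonneg d) h8 2
        _ = m := by rw [← hw4]; ring
    exact_mod_cast h9

/-- Sum over the bad integers above `z ^ 4`. -/
lemma bad_sum {z X : ℕ} (hz : 2 ≤ z) {s : ℝ} (hs : 0 < s) (hs2 : 7 * s ≤ 1 / 10) :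
    ∑ m ∈ (Icc 1 X).filter (fun m => z ^ 4 < m ∧ ¬ m ^ 2 ≤ rgh z (m ^ 3 + 1)),
      (m : ℝ) ^ (-1 + s)
      ≤ (1 + 1 / s) * Real.exp (7 * ∑ p ∈ Nat.primesBelow (z + 1), (p : ℝ) ^ (-1 + 7 * s)) := by
  classical
  set Sm := (Icc 1 X).filter (fun d => ∀ q : ℕ, q.Prime → q ∣ d → q ≤ z) with hSm
  calc ∑ m ∈ (Icc 1 X).filter (fun m => z ^ 4 < m ∧ ¬ m ^ 2 ≤ rgh z (m ^ 3 + 1)),
        (m : ℝ) ^ (-1 + s)
      ≤ ∑ m ∈ (Icc 1 X).filter (fun m => z ^ 4 < m ∧ ¬ m ^ 2 ≤ rgh z (m ^ 3 + 1)),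
          ∑ d ∈ Sm, (if d ≤ m ∧ d ∣ m ^ 3 + 1 then (d : ℝ) ^ (8 * s) * (m : ℝ) ^ (-1 - s)
            else 0) := by
        apply sum_le_sum
        intro m hm
        rw [mem_filter, mem_Icc] at hm
        obtain ⟨d, hd0, hdm, hdsm, hmd, hdd⟩ := bad_divisor hz hm.2.1 hm.2.2
        have hmr : (1 : ℝ) ≤ m := by exact_mod_cast hm.1.1
        have hdr : (1 : ℝ) ≤ d := by exact_mod_cast hd0
        have hdle : d ≤ m := by nlinarith
        have h1 : (m : ℝ) ^ (-1 + s) ≤ (d : ℝ) ^ (8 * s) * (m : ℝ) ^ (-1 - s) := by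
          have h2 : (m : ℝ) ^ (-1 + s) = (m : ℝ) ^ (2 * s) * (m : ℝ) ^ (-1 - s) := by
            rw [← Real.rpow_add (by linarith)]
            congr 1
            ring
          rw [h2]
          apply mul_le_mul_of_nonneg_right _ (Real.rpow_nonneg (by linarith) _)
          have h3 : (m : ℝ) ≤ (d : ℝ) ^ (4 : ℝ) := by
            have : (m : ℝ) ≤ (d : ℝ) ^ (4 : ℕ) := by exact_mod_cast hmd
            rw [← Real.rpow_natCast] at this
            exact_mod_cast this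
          calc (m : ℝ) ^ (2 * s) ≤ ((d : ℝ) ^ (4 : ℝ)) ^ (2 * s) :=
                Real.rpow_le_rpow (by linarith) h3 (by linarith)
            _ = (d : ℝ) ^ (8 * s) := by
                rw [← Real.rpow_mul (by linarith)]
                congr 1
                ring
        have hmemd : d ∈ Sm := by
          rw [hSm, mem_filter, mem_Icc]
          exact ⟨⟨hd0, hdle.trans hm.1.2⟩, hdsm⟩
        have h4 : (if d ≤ m ∧ d ∣ m ^ 3 + 1 then (d : ℝ) ^ (8 * s) * (m : ℝ) ^ (-1 - s) else 0)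
            ≤ ∑ d ∈ Sm, (if d ≤ m ∧ d ∣ m ^ 3 + 1 then (d : ℝ) ^ (8 * s) * (m : ℝ) ^ (-1 - s)
              else 0) := by
          apply single_le_sum (f := fun d : ℕ => if d ≤ m ∧ d ∣ m ^ 3 + 1 then
            (d : ℝ) ^ (8 * s) * (m : ℝ) ^ (-1 - s) else 0)
          · intro e _
            split_ifs
            · exact mul_nonneg (Real.rpow_nonneg (Nat.cast_nonneg _) _)
                (Real.rpow_nonneg (Nat.cast_nonneg _) _)
            · exact le_refl _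
          · exact hmemd
        rw [if_pos ⟨hdle, hdm⟩] at h4
        exact h1.trans h4
    _ ≤ ∑ m ∈ Icc 1 X, ∑ d ∈ Sm, (if d ≤ m ∧ d ∣ m ^ 3 + 1 then
          (d : ℝ) ^ (8 * s) * (m : ℝ) ^ (-1 - s) else 0) := by
        apply sum_le_sum_of_subset_of_nonneg (filter_subset _ _)
        intro m _ _
        apply sum_nonneg
        intro d _
        split_ifs
        · exact mul_nonneg (Real.rpow_nonneg (Nat.cast_nonneg _) _)
            (Real.rpow_nonneg (Nat.cast_nonneg _) _)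
        · exact le_refl _
    _ = ∑ d ∈ Sm, ∑ m ∈ Icc 1 X, (if d ≤ m ∧ d ∣ m ^ 3 + 1 then
          (d : ℝ) ^ (8 * s) * (m : ℝ) ^ (-1 - s) else 0) := sum_comm
    _ ≤ ∑ d ∈ Sm, (1 + 1 / s) * wt (1 - 7 * s) d := by
        apply sum_le_sum
        intro d hd
        rw [hSm, mem_filter, mem_Icc] at hd
        have hd0 : 0 < d := hd.1.1
        have hdr : (0 : ℝ) < d := by exact_mod_cast hd0
        rw [← sum_filter, ← mul_sum]
        have h1 := inner_sum hd0 X hs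
        have h8 : 0 ≤ (d : ℝ) ^ (8 * s) := Real.rpow_nonneg hdr.le _
        have h2 : ((rts d).card : ℝ) ≤ 3 ^ (d.primeFactors.card) := by
          exact_mod_cast card_rts_le hd0
        calc (d : ℝ) ^ (8 * s) * ∑ m ∈ (Icc 1 X).filter (fun m => d ≤ m ∧ d ∣ m ^ 3 + 1),
              (m : ℝ) ^ (-1 - s)
            ≤ (d : ℝ) ^ (8 * s) * ((rts d).card * ((d : ℝ) ^ (-1 - s) * (1 + 1 / s))) :=
              mul_le_mul_of_nonneg_left h1 h8
          _ ≤ (d : ℝ) ^ (8 * s) * (3 ^ (d.primeFactors.card) *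
                ((d : ℝ) ^ (-1 - s) * (1 + 1 / s))) := by
              apply mul_le_mul_of_nonneg_left _ h8
              apply mul_le_mul_of_nonneg_right h2
              have := Real.rpow_nonneg hdr.le (-1 - s)
              positivity
          _ = (1 + 1 / s) * wt (1 - 7 * s) d := by
              rw [wt]
              have h9 : (d : ℝ) ^ (-(1 - 7 * s)) = (d : ℝ) ^ (8 * s) * (d : ℝ) ^ (-1 - s) := by
                rw [← Real.rpow_add hdr]
                congr 1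
                ring
              rw [h9]
              ring
    _ = (1 + 1 / s) * ∑ d ∈ Sm, wt (1 - 7 * s) d := by rw [mul_sum]
    _ ≤ _ := by
        apply mul_le_mul_of_nonneg_left _ (by positivity)
        have h1 := smooth_sum z Sm (fun d hd => (mem_filter.mp hd).2) (α := 1 - 7 * s)
          (by linarith)
        have h2 : (-(1 - 7 * s)) = -1 + 7 * s := by ring
        rw [h2] at h1
        exact h1

/-- Numbers with a large divisor composed of distinct primes of `B`. -/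
lemma card_large_part (B : Finset ℕ) (hB : ∀ p ∈ B, p.Prime) (X : ℕ) (Y s : ℝ) (hY : 0 < Y)
    (hs : 0 < s) :
    (((Icc 1 X).filter (fun u => Y ≤ ((∏ p ∈ B.filter (fun p => p ∣ u), p : ℕ) : ℝ))).card : ℝ)
      ≤ X * Y ^ (-s) * Real.exp (∑ p ∈ B, (p : ℝ) ^ (-1 + s)) := by
  classical
  set TT := B.powerset.filter (fun T => Y ≤ ((∏ p ∈ T, p : ℕ) : ℝ)) with hTT
  have hsub : (Icc 1 X).filter (fun u => Y ≤ ((∏ p ∈ B.filter (fun p => p ∣ u), p : ℕ) : ℝ))
      ⊆ TT.biUnion (fun T => (Ioc 0 X).filter (fun u => (∏ p ∈ T, p) ∣ u)) := by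
    intro u hu
    rw [mem_filter, mem_Icc] at hu
    rw [mem_biUnion]
    refine ⟨B.filter (fun p => p ∣ u), ?_, ?_⟩
    · rw [hTT, mem_filter, mem_powerset]
      exact ⟨filter_subset _ _, hu.2⟩
    · rw [mem_filter, mem_Ioc]
      refine ⟨⟨by omega, hu.1.2⟩, ?_⟩
      apply Finset.prod_primes_dvd
      · intro p hp
        rw [mem_filter] at hp
        exact (hB p hp.1).prime
      · intro p hp
        rw [mem_filter] at hp
        exact hp.2
  have hprodpos : ∀ T ∈ TT, (0 : ℝ) < ((∏ p ∈ T, p : ℕ) : ℝ) := by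
    intro T hT
    rw [hTT, mem_filter, mem_powerset] at hT
    exact_mod_cast prod_pos (fun p hp => (hB p (hT.1 hp)).pos)
  calc (((Icc 1 X).filter (fun u => Y ≤ ((∏ p ∈ B.filter (fun p => p ∣ u), p : ℕ) : ℝ))).card : ℝ)
      ≤ ((TT.biUnion (fun T => (Ioc 0 X).filter (fun u => (∏ p ∈ T, p) ∣ u))).card : ℝ) := by
        exact_mod_cast card_le_card hsub
    _ ≤ ∑ T ∈ TT, (((Ioc 0 X).filter (fun u => (∏ p ∈ T, p) ∣ u)).card : ℝ) := by
        exact_mod_cast card_biUnion_le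
    _ ≤ ∑ T ∈ TT, (X : ℝ) * Y ^ (-s) * ∏ p ∈ T, (p : ℝ) ^ (-1 + s) := by
        apply sum_le_sum
        intro T hT
        have hpos := hprodpos T hT
        rw [hTT, mem_filter, mem_powerset] at hT
        rw [Nat.Ioc_filter_dvd_card_eq_div]
        have h1 : (((X / ∏ p ∈ T, p : ℕ)) : ℝ) ≤ X / ((∏ p ∈ T, p : ℕ) : ℝ) := Nat.cast_div_le
        refine h1.trans ?_
        set Q : ℝ := ((∏ p ∈ T, p : ℕ) : ℝ) with hQ
        have h2 : ∏ p ∈ T, (p : ℝ) ^ (-1 + s) = Q ^ (-1 + s) := by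
          rw [hQ]
          push_cast
          rw [Real.finsetProd_rpow]
          intro i _
          exact Nat.cast_nonneg i
        rw [h2, mul_assoc, div_eq_mul_inv]
        apply mul_le_mul_of_nonneg_left _ (Nat.cast_nonneg X)
        have h3 : Q ^ (-1 + s) = Q⁻¹ * Q ^ s := by
          rw [Real.rpow_add hpos, Real.rpow_neg_one]
        rw [h3]
        have h4 : 1 ≤ Y ^ (-s) * Q ^ s := by
          rw [Real.rpow_neg hY.le, ← div_eq_inv_mul, one_le_div (Real.rpow_pos_of_pos hY _)]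
          exact Real.rpow_le_rpow hY.le hT.2 hs.le
        have h5 : 0 < Q⁻¹ := inv_pos.mpr hpos
        nlinarith
    _ ≤ ∑ T ∈ B.powerset, (X : ℝ) * Y ^ (-s) * ∏ p ∈ T, (p : ℝ) ^ (-1 + s) := by
        apply sum_le_sum_of_subset_of_nonneg (filter_subset _ _)
        intro T _ _
        have h1 : 0 ≤ ∏ p ∈ T, (p : ℝ) ^ (-1 + s) :=
          prod_nonneg (fun p _ => Real.rpow_nonneg (Nat.cast_nonneg p) _)
        have h2 : 0 ≤ Y ^ (-s) := Real.rpow_nonneg hY.le _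
        positivity
    _ = (X : ℝ) * Y ^ (-s) * ∏ p ∈ B, (1 + (p : ℝ) ^ (-1 + s)) := by
        rw [← mul_sum, prod_one_add]
    _ ≤ (X : ℝ) * Y ^ (-s) * Real.exp (∑ p ∈ B, (p : ℝ) ^ (-1 + s)) := by
        apply mul_le_mul_of_nonneg_left
        · rw [Real.exp_sum]
          apply prod_le_prod
          · intro p _
            have := Real.rpow_nonneg (Nat.cast_nonneg (α := ℝ) p) (-1 + s)
            positivity
          · intro p _
            rw [add_comm]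
            exact Real.add_one_le_exp _
        · have h2 : 0 ≤ Y ^ (-s) := Real.rpow_nonneg hY.le _
          positivity

end Pool.Agent.Sig3
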