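import Mathlib

/-!
# Weighted count of square-free numbers `b` with `d ∣ σ₃(b)`
-/

open Finset ArithmeticFunction

namespace Pool.Agent.Sig3

lemma sum_pow_cardFactors_le (t : ℝ) (ht : 0 ≤ t) (n : ℕ) (hn : 0 < n) :
    ∑ e ∈ n.divisors, t ^ (cardFactors e) ≤ (1 + t) ^ (cardFactors n) := by
  induction n using Nat.strong_induction_on with
  | _ n ih =>
    by_cases h1 : n = 1
    · subst h1
      simp
    obtain ⟨p, hp, m, rfl⟩ : ∃ p : ℕ, p.Prime ∧ ∃ m, n = p * m := by
      obtain ⟨m, hm⟩ := Nat.minFac_dvd n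
      exact ⟨n.minFac, Nat.minFac_prime h1, m, hm⟩
    have hm : 0 < m := Nat.pos_of_mul_pos_left hn |> fun h => by
      rcases Nat.eq_zero_or_pos m with h0 | h0
      · subst h0; simp at hn
      · exact h0
    have hlt : m < p * m := by nlinarith [hp.two_le]
    have hih := ih m hlt hm
    have hsub : (p * m).divisors ⊆ m.divisors ∪ m.divisors.image (fun e => p * e) := by
      intro e he
      rw [Nat.mem_divisors] at he
      rw [mem_union, mem_image]
      by_cases hpe : p ∣ e
      · right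
        obtain ⟨e', rfl⟩ := hpe
        refine ⟨e', Nat.mem_divisors.mpr ⟨?_, hm.ne'⟩, rfl⟩
        exact Nat.dvd_of_mul_dvd_mul_left hp.pos he.1
      · left
        refine Nat.mem_divisors.mpr ⟨?_, hm.ne'⟩
        exact ((Nat.Prime.coprime_iff_not_dvd hp).mpr hpe).symm.dvd_of_dvd_mul_left he.1
    have hcp : cardFactors p = 1 := cardFactors_apply_prime hp
    calc ∑ e ∈ (p * m).divisors, t ^ (cardFactors e)
        ≤ ∑ e ∈ m.divisors ∪ m.divisors.image (fun e => p * e), t ^ (cardFactors e) := by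
          apply sum_le_sum_of_subset_of_nonneg hsub
          intro e _ _
          positivity
      _ ≤ ∑ e ∈ m.divisors, t ^ (cardFactors e)
          + ∑ e ∈ m.divisors.image (fun e => p * e), t ^ (cardFactors e) := by
          have h := sum_union_inter (s₁ := m.divisors) (s₂ := m.divisors.image (fun e => p * e))
            (f := fun e => t ^ (cardFactors e))
          have h2 : 0 ≤ ∑ e ∈ m.divisors ∩ m.divisors.image (fun e => p * e),
              t ^ (cardFactors e) := sum_nonneg (fun e _ => by positivity)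
          linarith
      _ = ∑ e ∈ m.divisors, t ^ (cardFactors e) + ∑ e ∈ m.divisors, t * t ^ (cardFactors e) := by
          congr 1
          rw [sum_image]
          · apply sum_congr rfl
            intro e he
            have he0 : e ≠ 0 := (Nat.pos_of_mem_divisors he).ne'
            rw [cardFactors_mul hp.ne_zero he0, hcp, pow_add, pow_one]
          · intro a _ b _ hab
            exact Nat.eq_of_mul_eq_mul_left hp.pos hab
      _ = (1 + t) * ∑ e ∈ m.divisors, t ^ (cardFactors e) := by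
          rw [← mul_sum]; ring
      _ ≤ (1 + t) * (1 + t) ^ (cardFactors m) := by
          apply mul_le_mul_of_nonneg_left hih (by linarith)
      _ = (1 + t) ^ (cardFactors (p * m)) := by
          rw [cardFactors_mul hp.ne_zero hm.ne', hcp, pow_add, pow_one]

/-- Sum over the sets `T ⊆ P` with `d ∣ ∏ (r ^ 3 + 1)` of the weights `∏ 1 / r`. -/
noncomputable def WW (P : Finset ℕ) (d : ℕ) : ℝ :=
  ∑ T ∈ P.powerset.filter (fun T => d ∣ ∏ r ∈ T, (r ^ 3 + 1)), ∏ r ∈ T, (1 : ℝ) / r

lemma WW_nonneg (P : Finset ℕ) (d : ℕ) : 0 ≤ WW P d :=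
  sum_nonneg (fun _ _ => prod_nonneg (fun _ _ => by positivity))

lemma WW_one (P : Finset ℕ) : WW P 1 = ∏ r ∈ P, (1 + (1 : ℝ) / r) := by
  rw [WW, prod_one_add]
  apply sum_congr _ (fun _ _ => rfl)
  ext T
  simp

lemma WW_step (P : Finset ℕ) (d p : ℕ) (hd : 0 < d) (hp : p.Prime) (hpd : p ∣ d) :
    WW P d ≤ ∑ e ∈ d.divisors.filter (fun e => p ∣ e),
      (∑ r ∈ P.filter (fun r => e ∣ r ^ 3 + 1), (1 : ℝ) / r) * WW P (d / e) := by
  classical
  have hw0 : ∀ T : Finset ℕ, 0 ≤ ∏ r ∈ T, (1 : ℝ) / r :=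
    fun T => prod_nonneg (fun _ _ => by positivity)
  set S := P.powerset.filter (fun T => d ∣ ∏ r ∈ T, (r ^ 3 + 1)) with hS
  have h1 : WW P d ≤ ∑ T ∈ S, ∑ r ∈ P.filter (fun r => p ∣ r ^ 3 + 1),
      (if r ∈ T then ∏ r ∈ T, (1 : ℝ) / r else 0) := by
    rw [WW]
    apply sum_le_sum
    intro T hT
    rw [mem_filter, mem_powerset] at hT
    obtain ⟨r, hrT, hr⟩ := (hp.prime.dvd_finsetProd_iff _).mp (hpd.trans hT.2)
    have h2 : (if r ∈ T then ∏ r ∈ T, (1 : ℝ) / r else 0) ≤
        ∑ r ∈ P.filter (fun r => p ∣ r ^ 3 + 1), (if r ∈ T then ∏ r ∈ T, (1 : ℝ) / r else 0) := by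
      apply single_le_sum (f := fun r => if r ∈ T then ∏ r ∈ T, (1 : ℝ) / r else 0)
      · intro i _
        split_ifs
        · exact hw0 T
        · exact le_refl _
      · exact mem_filter.mpr ⟨hT.1 hrT, hr⟩
    rwa [if_pos hrT] at h2
  have h3 : ∀ r ∈ P.filter (fun r => p ∣ r ^ 3 + 1),
      ∑ T ∈ S, (if r ∈ T then ∏ r ∈ T, (1 : ℝ) / r else 0)
        ≤ (1 : ℝ) / r * WW P (d / Nat.gcd d (r ^ 3 + 1)) := by
    intro r hr
    rw [mem_filter] at hr
    rw [← sum_filter, WW, mul_sum]
    have hg : 0 < Nat.gcd d (r ^ 3 + 1) := Nat.gcd_pos_of_pos_left _ hd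
    have hmap : ∀ T ∈ S.filter (fun T => r ∈ T), T.erase r ∈ P.powerset.filter
        (fun T => d / Nat.gcd d (r ^ 3 + 1) ∣ ∏ r ∈ T, (r ^ 3 + 1)) := by
      intro T hT
      rw [mem_filter, hS, mem_filter, mem_powerset] at hT
      rw [mem_filter, mem_powerset]
      refine ⟨(erase_subset _ _).trans hT.1.1, ?_⟩
      have h4 : ∏ r ∈ T, (r ^ 3 + 1) = (r ^ 3 + 1) * ∏ r ∈ T.erase r, (r ^ 3 + 1) :=
        (mul_prod_erase T (fun r => r ^ 3 + 1) hT.2).symm
      rw [h4] at hT
      have h5 : d / Nat.gcd d (r ^ 3 + 1) ∣ (r ^ 3 + 1) / Nat.gcd d (r ^ 3 + 1) *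
          ∏ r ∈ T.erase r, (r ^ 3 + 1) := by
        rw [← Nat.mul_div_right_comm (Nat.gcd_dvd_right _ _)]
        exact Nat.div_dvd_div (Nat.gcd_dvd_left _ _) hT.1.2
      exact (Nat.coprime_div_gcd_div_gcd hg).dvd_of_dvd_mul_left h5
    calc ∑ T ∈ S.filter (fun T => r ∈ T), ∏ r ∈ T, (1 : ℝ) / r
        = ∑ T ∈ S.filter (fun T => r ∈ T), (1 : ℝ) / r * ∏ r ∈ T.erase r, (1 : ℝ) / r := by
          apply sum_congr rfl
          intro T hT
          rw [mem_filter] at hT
          exact (mul_prod_erase T (fun r : ℕ => (1 : ℝ) / r) hT.2).symm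
      _ = ∑ T' ∈ (S.filter (fun T => r ∈ T)).image (fun T => T.erase r),
            (1 : ℝ) / r * ∏ r ∈ T', (1 : ℝ) / r := by
          rw [sum_image]
          intro T hT T' hT' hTT
          rw [Finset.mem_coe, mem_filter] at hT hT'
          simp only at hTT
          rw [← insert_erase hT.2, ← insert_erase hT'.2, hTT]
      _ ≤ _ := by
          apply sum_le_sum_of_subset_of_nonneg
          · intro T' hT'
            rw [mem_image] at hT'
            obtain ⟨T, hT, rfl⟩ := hT'
            exact hmap T hT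
          · intro T' _ _
            have := hw0 T'
            positivity
  calc WW P d ≤ ∑ T ∈ S, ∑ r ∈ P.filter (fun r => p ∣ r ^ 3 + 1),
      (if r ∈ T then ∏ r ∈ T, (1 : ℝ) / r else 0) := h1
    _ = ∑ r ∈ P.filter (fun r => p ∣ r ^ 3 + 1), ∑ T ∈ S,
      (if r ∈ T then ∏ r ∈ T, (1 : ℝ) / r else 0) := sum_comm
    _ ≤ ∑ r ∈ P.filter (fun r => p ∣ r ^ 3 + 1),
        (1 : ℝ) / r * WW P (d / Nat.gcd d (r ^ 3 + 1)) := sum_le_sum h3
    _ ≤ ∑ r ∈ P.filter (fun r => p ∣ r ^ 3 + 1), ∑ e ∈ d.divisors.filter (fun e => p ∣ e),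
        (if e ∣ r ^ 3 + 1 then (1 : ℝ) / r * WW P (d / e) else 0) := by
        apply sum_le_sum
        intro r hr
        rw [mem_filter] at hr
        have h6 : (if Nat.gcd d (r ^ 3 + 1) ∣ r ^ 3 + 1 then
            (1 : ℝ) / r * WW P (d / Nat.gcd d (r ^ 3 + 1)) else 0) ≤
            ∑ e ∈ d.divisors.filter (fun e => p ∣ e),
              (if e ∣ r ^ 3 + 1 then (1 : ℝ) / r * WW P (d / e) else 0) := by
          apply single_le_sum (f := fun e =>
            if e ∣ r ^ 3 + 1 then (1 : ℝ) / r * WW P (d / e) else 0)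
          · intro e _
            split_ifs
            · have := WW_nonneg P (d / e)
              positivity
            · exact le_refl _
          · rw [mem_filter, Nat.mem_divisors]
            exact ⟨⟨Nat.gcd_dvd_left _ _, hd.ne'⟩, Nat.dvd_gcd hpd hr.2⟩
        rwa [if_pos (Nat.gcd_dvd_right _ _)] at h6
    _ = ∑ e ∈ d.divisors.filter (fun e => p ∣ e), ∑ r ∈ P.filter (fun r => p ∣ r ^ 3 + 1),
        (if e ∣ r ^ 3 + 1 then (1 : ℝ) / r * WW P (d / e) else 0) := sum_comm
    _ ≤ _ := by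
        apply sum_le_sum
        intro e he
        rw [← sum_filter, sum_mul]
        apply sum_le_sum_of_subset_of_nonneg
        · intro r hr
          rw [mem_filter, mem_filter] at hr
          rw [mem_filter]
          exact ⟨hr.1.1, hr.2⟩
        · intro r _ _
          have := WW_nonneg P (d / e)
          positivity

/-- The main bound for `WW`. -/
theorem WW_le (P : Finset ℕ) (C F : ℝ) (hF : 0 < F) (hCF : 9 * C ≤ F) (hC : 0 ≤ C)
    (d : ℕ) (hd : 0 < d) (hΩ : 3 * (cardFactors d : ℝ) ≤ F)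
    (hV : ∀ e : ℕ, e ∣ d → ∑ r ∈ P.filter (fun r => e ∣ r ^ 3 + 1), (1 : ℝ) / r
      ≤ C * 3 ^ (cardFactors e) * (e : ℝ) ^ (-(1 / 3) : ℝ)) :
    WW P d ≤ (∏ r ∈ P, (1 + (1 : ℝ) / r)) * F ^ (cardFactors d) * (d : ℝ) ^ (-(1 / 3) : ℝ) := by
  have hPi : 0 ≤ ∏ r ∈ P, (1 + (1 : ℝ) / r) := prod_nonneg (fun _ _ => by positivity)
  induction d using Nat.strong_induction_on with
  | _ d ih =>
    by_cases h1 : d = 1
    · subst h1
      rw [WW_one]
      simp
    have hp : d.minFac.Prime := Nat.minFac_prime h1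
    set p := d.minFac with hpdef
    have hpd : p ∣ d := Nat.minFac_dvd d
    obtain ⟨m, hm⟩ := hpd
    have hm0 : 0 < m := by
      rcases Nat.eq_zero_or_pos m with h0 | h0
      · subst h0; simp at hm; omega
      · exact h0
    have hdr : (0 : ℝ) < d := by exact_mod_cast hd
    refine (WW_step P d p hd hp ⟨m, hm⟩).trans ?_
    set K : ℝ := (∏ r ∈ P, (1 + (1 : ℝ) / r)) * F ^ (cardFactors d) * (d : ℝ) ^ (-(1 / 3) : ℝ)
      with hK
    have hK0 : 0 ≤ K := by
      have := Real.rpow_nonneg hdr.le (-(1 / 3) : ℝ)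
      positivity
    have hterm : ∀ e ∈ d.divisors.filter (fun e => p ∣ e),
        (∑ r ∈ P.filter (fun r => e ∣ r ^ 3 + 1), (1 : ℝ) / r) * WW P (d / e)
          ≤ K * (C * (3 / F) ^ (cardFactors e)) := by
      intro e he
      rw [mem_filter, Nat.mem_divisors] at he
      obtain ⟨⟨hed, _⟩, hpe⟩ := he
      have he0 : 0 < e := Nat.pos_of_dvd_of_pos hed hd
      have he1 : 1 < e := lt_of_lt_of_le hp.one_lt (Nat.le_of_dvd he0 hpe)
      obtain ⟨f, hf⟩ := hed
      have hf0 : 0 < f := by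
        rcases Nat.eq_zero_or_pos f with h0 | h0
        · subst h0; simp at hf; omega
        · exact h0
      have hdf : d / e = f := by rw [hf]; exact Nat.mul_div_cancel_left f he0
      have hfd : f < d := by rw [hf]; nlinarith
      have hΩ' : cardFactors d = cardFactors e + cardFactors f := by
        rw [hf]; exact cardFactors_mul he0.ne' hf0.ne'
      have hWf := ih f hfd hf0 (by
        have : (cardFactors f : ℝ) ≤ cardFactors d := by
          rw [hΩ']; push_cast; linarith [Nat.cast_nonneg (α := ℝ) (cardFactors e)]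
        linarith) (fun e' he' => hV e' (he'.trans ⟨e, by rw [hf]; ring⟩))
      rw [hdf]
      have her : (0 : ℝ) < e := by exact_mod_cast he0
      have hfr : (0 : ℝ) < f := by exact_mod_cast hf0
      have h2 := hV e ⟨f, hf⟩
      have h3 : (d : ℝ) ^ (-(1 / 3) : ℝ) = (e : ℝ) ^ (-(1 / 3) : ℝ) * (f : ℝ) ^ (-(1 / 3) : ℝ) := by
        rw [hf]; push_cast
        exact Real.mul_rpow her.le hfr.le
      have he3 := Real.rpow_nonneg her.le (-(1 / 3) : ℝ)
      have hf3 := Real.rpow_nonneg hfr.le (-(1 / 3) : ℝ)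
      calc (∑ r ∈ P.filter (fun r => e ∣ r ^ 3 + 1), (1 : ℝ) / r) * WW P f
          ≤ (C * 3 ^ (cardFactors e) * (e : ℝ) ^ (-(1 / 3) : ℝ)) *
            ((∏ r ∈ P, (1 + (1 : ℝ) / r)) * F ^ (cardFactors f) * (f : ℝ) ^ (-(1 / 3) : ℝ)) := by
            apply mul_le_mul h2 hWf (WW_nonneg _ _)
            positivity
        _ = K * (C * (3 / F) ^ (cardFactors e)) := by
            rw [hK, h3, hΩ', pow_add, div_pow]
            have hFp : F ^ (cardFactors e) ≠ 0 := by positivity
            field_simp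
    refine (sum_le_sum hterm).trans ?_
    rw [← mul_sum, ← mul_sum]
    have hdiv : d.divisors.filter (fun e => p ∣ e) = m.divisors.image (fun e => p * e) := by
      ext e
      rw [mem_filter, Nat.mem_divisors, mem_image]
      constructor
      · rintro ⟨⟨h2, _⟩, ⟨e', rfl⟩⟩
        refine ⟨e', Nat.mem_divisors.mpr ⟨?_, hm0.ne'⟩, rfl⟩
        rw [hm] at h2
        exact Nat.dvd_of_mul_dvd_mul_left hp.pos h2
      · rintro ⟨e', he', rfl⟩
        rw [Nat.mem_divisors] at he'
        refine ⟨⟨?_, hd.ne'⟩, Dvd.intro _ rfl⟩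
        rw [hm]
        exact Nat.mul_dvd_mul_left p he'.1
    have hsum : ∑ e ∈ d.divisors.filter (fun e => p ∣ e), (3 / F) ^ (cardFactors e)
        = (3 / F) * ∑ e ∈ m.divisors, (3 / F) ^ (cardFactors e) := by
      rw [hdiv, sum_image, mul_sum]
      · apply sum_congr rfl
        intro e he
        have he0 : e ≠ 0 := (Nat.pos_of_mem_divisors he).ne'
        rw [cardFactors_mul hp.ne_zero he0, cardFactors_apply_prime hp, pow_add, pow_one]
      · intro a _ b _ hab
        exact Nat.eq_of_mul_eq_mul_left hp.pos hab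
    rw [hsum]
    have h4 := sum_pow_cardFactors_le (3 / F) (by positivity) m hm0
    have hΩm : cardFactors d = 1 + cardFactors m := by
      rw [hm, cardFactors_mul hp.ne_zero hm0.ne', cardFactors_apply_prime hp]
    have h5 : (1 + 3 / F) ^ (cardFactors m) ≤ 3 := by
      have h6 : (1 + 3 / F) ≤ Real.exp (3 / F) := by
        rw [add_comm]; exact Real.add_one_le_exp _
      calc (1 + 3 / F) ^ (cardFactors m) ≤ (Real.exp (3 / F)) ^ (cardFactors m) :=
            pow_le_pow_left₀ (by positivity) h6 _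
        _ = Real.exp ((cardFactors m : ℝ) * (3 / F)) := by rw [← Real.exp_nat_mul]
        _ ≤ Real.exp 1 := by
            apply Real.exp_le_exp.mpr
            rw [← mul_div_assoc, div_le_one hF]
            have : (cardFactors d : ℝ) = 1 + cardFactors m := by exact_mod_cast hΩm
            linarith
        _ ≤ 3 := by linarith [Real.exp_one_lt_d9]
    have h7 : C * ((3 / F) * ∑ e ∈ m.divisors, (3 / F) ^ (cardFactors e)) ≤ 1 := by
      calc C * ((3 / F) * ∑ e ∈ m.divisors, (3 / F) ^ (cardFactors e))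
          ≤ C * ((3 / F) * 3) := by
            apply mul_le_mul_of_nonneg_left _ hC
            apply mul_le_mul_of_nonneg_left (h4.trans h5) (by positivity)
        _ = 9 * C / F := by ring
        _ ≤ 1 := by rw [div_le_one hF]; exact hCF
    calc K * (C * ((3 / F) * ∑ e ∈ m.divisors, (3 / F) ^ (cardFactors e))) ≤ K * 1 :=
          mul_le_mul_of_nonneg_left h7 hK0
      _ = K := mul_one K

end Pool.Agent.Sig3
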