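import Pool.Agent.Helper46_Sig3.Dec
import Pool.Agent.Helper46_Sig3.WBound

/-!
# Pairs with a large common rough divisor of `σ₃(a)` and `σ₃(b)`
-/

open Finset ArithmeticFunction

namespace Pool.Agent.Sig3

/-- `u` and `v` are at distance two. -/
def Adj (u v : ℕ) : Prop := v = u + 2 ∨ u = v + 2

instance : DecidableRel Adj := fun _ _ => inferInstanceAs (Decidable (_ ∨ _))

lemma Adj.symm {u v : ℕ} (h : Adj u v) : Adj v u := Or.symm h

/-- The pairs `u, v ≤ X`. -/
def prs (X : ℕ) : Finset (ℕ × ℕ) := (Icc 1 X) ×ˢ (Icc 1 X)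

lemma card_crt {a b X : ℕ} (ha : 0 < a) (hb : 0 < b) (hab : Nat.Coprime a b) :
    ((prs X).filter (fun w => Adj w.1 w.2 ∧ a ∣ w.1 ∧ b ∣ w.2)).card ≤ 2 * (X / (a * b) + 1) := by
  have hab0 : 0 < a * b := Nat.mul_pos ha hb
  set S := (prs X).filter (fun w => Adj w.1 w.2 ∧ a ∣ w.1 ∧ b ∣ w.2) with hS
  have hsplit : S ⊆ S.filter (fun w => w.2 = w.1 + 2) ∪ S.filter (fun w => w.1 = w.2 + 2) := by
    intro w hw
    have h1 : w ∈ S := hw
    rw [hS, mem_filter] at h1
    rcases h1.2.1 with h | h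
    · exact mem_union_left _ (mem_filter.mpr ⟨hw, h⟩)
    · exact mem_union_right _ (mem_filter.mpr ⟨hw, h⟩)
  have hone : ∀ S' : Finset (ℕ × ℕ), S' ⊆ S →
      ((∀ w ∈ S', w.2 = w.1 + 2) ∨ (∀ w ∈ S', w.1 = w.2 + 2)) → S'.card ≤ X / (a * b) + 1 := by
    intro S' hS' hcase
    rw [← card_range (X / (a * b) + 1)]
    apply card_le_card_of_injOn (fun w => w.1 / (a * b))
    · intro w hw
      have h1 := hS' hw
      rw [hS, mem_filter, prs, mem_product, mem_Icc, mem_Icc] at h1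
      rw [Finset.mem_coe, mem_range]
      have : w.1 / (a * b) ≤ X / (a * b) := Nat.div_le_div_right h1.1.1.2
      simp only
      omega
    · intro w hw w' hw' hww
      simp only at hww
      have h1 := hS' hw
      have h2 := hS' hw'
      rw [hS, mem_filter] at h1 h2
      have h3 : w.1 ≡ w'.1 [MOD a] :=
        (Nat.modEq_zero_iff_dvd.mpr h1.2.2.1).trans (Nat.modEq_zero_iff_dvd.mpr h2.2.2.1).symm
      have h4 : w.2 ≡ w'.2 [MOD b] :=
        (Nat.modEq_zero_iff_dvd.mpr h1.2.2.2).trans (Nat.modEq_zero_iff_dvd.mpr h2.2.2.2).symm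
      have h5 : w.1 ≡ w'.1 [MOD b] := by
        rcases hcase with hc | hc
        · rw [hc w hw, hc w' hw'] at h4
          exact Nat.ModEq.add_right_cancel' 2 h4
        · rw [hc w hw, hc w' hw']
          exact h4.add_right 2
      have h6 : w.1 ≡ w'.1 [MOD a * b] := (Nat.modEq_and_modEq_iff_modEq_mul hab).mp ⟨h3, h5⟩
      have h7 : w.1 = w'.1 := by
        rw [← Nat.mod_add_div w.1 (a * b), ← Nat.mod_add_div w'.1 (a * b), hww]
        rw [show w.1 % (a * b) = w'.1 % (a * b) from h6]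
      have h8 : w.2 = w'.2 := by
        rcases hcase with hc | hc
        · rw [hc w hw, hc w' hw', h7]
        · have := hc w hw
          have := hc w' hw'
          omega
      exact Prod.ext h7 h8
  calc S.card ≤ (S.filter (fun w => w.2 = w.1 + 2) ∪ S.filter (fun w => w.1 = w.2 + 2)).card :=
        card_le_card hsplit
    _ ≤ (S.filter (fun w => w.2 = w.1 + 2)).card + (S.filter (fun w => w.1 = w.2 + 2)).card :=
        card_union_le _ _
    _ ≤ (X / (a * b) + 1) + (X / (a * b) + 1) := by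
        apply add_le_add
        · exact hone _ (filter_subset _ _) (Or.inl fun w hw => (mem_filter.mp hw).2)
        · exact hone _ (filter_subset _ _) (Or.inr fun w hw => (mem_filter.mp hw).2)
    _ = 2 * (X / (a * b) + 1) := by ring

lemma card_crt_real {a b X : ℕ} (ha : 0 < a) (hb : 0 < b) (hab : Nat.Coprime a b)
    (habX : a * b ≤ X) :
    (((prs X).filter (fun w => Adj w.1 w.2 ∧ a ∣ w.1 ∧ b ∣ w.2)).card : ℝ)
      ≤ (4 * X / a) * ((1 : ℝ) / b) := by
  have har : (0 : ℝ) < a := by exact_mod_cast ha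
  have hbr : (0 : ℝ) < b := by exact_mod_cast hb
  have h1 : (((prs X).filter (fun w => Adj w.1 w.2 ∧ a ∣ w.1 ∧ b ∣ w.2)).card : ℝ)
      ≤ 2 * (((X / (a * b) : ℕ) : ℝ) + 1) := by exact_mod_cast card_crt (X := X) ha hb hab
  have h2 : ((X / (a * b) : ℕ) : ℝ) ≤ (X : ℝ) / ((a * b : ℕ) : ℝ) := Nat.cast_div_le
  push_cast at h2
  have h3 : (1 : ℝ) ≤ (X : ℝ) / ((a : ℝ) * b) := by
    rw [one_le_div (by positivity)]
    exact_mod_cast habX
  have h4 : (4 * X / a) * ((1 : ℝ) / b) = 4 * ((X : ℝ) / ((a : ℝ) * b)) := by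
    field_simp
  rw [h4]
  linarith

/-- The primes up to `X`. -/
def PP (X : ℕ) : Finset ℕ := (Icc 1 X).filter Nat.Prime

lemma sum_sqf_le (X d : ℕ) (S : Finset ℕ)
    (hS : ∀ b ∈ S, 0 < b ∧ b ≤ X ∧ Squarefree b ∧ d ∣ sigma 3 b) :
    ∑ b ∈ S, (1 : ℝ) / b ≤ WW (PP X) d := by
  classical
  have hinj : ∀ b ∈ S, ∀ b' ∈ S, b.primeFactors = b'.primeFactors → b = b' := by
    intro b hb b' hb' h
    rw [← Nat.prod_primeFactors_of_squarefree (hS b hb).2.2.1,
      ← Nat.prod_primeFactors_of_squarefree (hS b' hb').2.2.1, h]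
  calc ∑ b ∈ S, (1 : ℝ) / b = ∑ b ∈ S, ∏ r ∈ b.primeFactors, (1 : ℝ) / r := by
        apply sum_congr rfl
        intro b hb
        conv_lhs => rw [← Nat.prod_primeFactors_of_squarefree (hS b hb).2.2.1]
        push_cast
        rw [prod_div_distrib, prod_const_one]
    _ = ∑ T ∈ S.image Nat.primeFactors, ∏ r ∈ T, (1 : ℝ) / r := by
        rw [sum_image]
        intro b hb b' hb' h
        exact hinj b hb b' hb' h
    _ ≤ WW (PP X) d := by
        rw [WW]
        apply sum_le_sum_of_subset_of_nonneg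
        · intro T hT
          rw [mem_image] at hT
          obtain ⟨b, hb, rfl⟩ := hT
          have hb' := hS b hb
          rw [mem_filter, mem_powerset]
          refine ⟨?_, ?_⟩
          · intro p hp
            have hpp := Nat.prime_of_mem_primeFactors hp
            rw [PP, mem_filter, mem_Icc]
            exact ⟨⟨hpp.one_le, (Nat.le_of_dvd hb'.1 (Nat.dvd_of_mem_primeFactors hp)).trans
              hb'.2.1⟩, hpp⟩
          · rw [← sigma_three_squarefree hb'.2.2.1]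
            exact hb'.2.2.2
        · intro T _ _
          exact prod_nonneg (fun _ _ => by positivity)

/-- `WW` for the primes up to `X`. -/
lemma WW_PP_le {X d : ℕ} (hX : 1 ≤ X) (hd : 0 < d) (F : ℝ)
    (hF : F = 18 * (3 + Real.log X)) (hΩ : 3 * (cardFactors d : ℝ) ≤ F) :
    WW (PP X) d ≤ (∏ r ∈ PP X, (1 + (1 : ℝ) / r)) * F ^ (cardFactors d)
      * (d : ℝ) ^ (-(1 / 3) : ℝ) := by
  have hlog : 0 ≤ Real.log X := Real.log_nonneg (by exact_mod_cast hX)
  apply WW_le (PP X) (3 + Real.log X) F (by rw [hF]; linarith) (by rw [hF]; linarith)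
    (by linarith) d hd hΩ
  intro e hed
  have he0 : 0 < e := Nat.pos_of_dvd_of_pos hed hd
  have h1 := sum_cube_le he0 X
  have h2 : ∑ r ∈ (PP X).filter (fun r => e ∣ r ^ 3 + 1), (1 : ℝ) / r
      ≤ ∑ r ∈ (Icc 1 X).filter (fun r => e ∣ r ^ 3 + 1), (1 : ℝ) / r := by
    apply sum_le_sum_of_subset_of_nonneg
    · apply filter_subset_filter
      exact filter_subset _ _
    · intro _ _ _
      positivity
  have h3 : ((rts e).card : ℝ) ≤ 3 ^ (cardFactors e) := by exact_mod_cast card_rts_le' he0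
  have h4 : 0 ≤ (e : ℝ) ^ (-(1 / 3) : ℝ) := Real.rpow_nonneg (Nat.cast_nonneg e) _
  calc ∑ r ∈ (PP X).filter (fun r => e ∣ r ^ 3 + 1), (1 : ℝ) / r
      ≤ (rts e).card * ((3 + Real.log X) * (e : ℝ) ^ (-(1 / 3) : ℝ)) := h2.trans h1
    _ ≤ 3 ^ (cardFactors e) * ((3 + Real.log X) * (e : ℝ) ^ (-(1 / 3) : ℝ)) := by
        apply mul_le_mul_of_nonneg_right h3
        have : 0 ≤ 3 + Real.log X := by linarith
        positivity
    _ = _ := by ring

/-- Type one pairs. -/
def TypeOne (z X : ℕ) (A δ : ℝ) (u v : ℕ) : Prop :=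
  ∃ a b d : ℕ, GoodSq z a ∧ A ≤ (a : ℝ) ∧ a ∣ u ∧ Squarefree b ∧ b ∣ v ∧ Nat.Coprime a b ∧
    a * b ≤ X ∧ d ∣ DD z a ∧ d ∣ sigma 3 b ∧ (a : ℝ) ^ δ ≤ d

lemma cardFactors_le_log {d X : ℕ} (hd : 0 < d) (h : d ≤ X ^ 4) :
    (cardFactors d : ℝ) ≤ 6 * Real.log X := by
  have h1 := two_pow_cardFactors_le d hd
  have h2 : (2 : ℝ) ^ (cardFactors d) ≤ (X : ℝ) ^ 4 := by exact_mod_cast h1.trans h
  have h3 := Real.log_le_log (by positivity) h2
  rw [Real.log_pow, Real.log_pow] at h3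
  have h4 := Real.log_two_gt_d9
  have h5 : 0 ≤ (cardFactors d : ℝ) := Nat.cast_nonneg _
  push_cast at h3
  nlinarith

/-- The sum over the rough divisors. -/
lemma sum_divisors_le {z X a : ℕ} (hX : 2 ≤ X) (F Y : ℝ) (hF : F = 18 * (3 + Real.log X))
    (hY : Y = 6 * Real.log X) (hz : (F * Y) ^ 12 ≤ (z : ℝ)) (ha : GoodSq z a) (haX : a ≤ X)
    {δ : ℝ} :
    ∑ d ∈ (DD z a).divisors.filter (fun d : ℕ => (a : ℝ) ^ δ ≤ d), WW (PP X) d
      ≤ 3 * (∏ r ∈ PP X, (1 + (1 : ℝ) / r)) * (a : ℝ) ^ (-(δ / 4)) := by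
  have hX1 : 1 ≤ X := by omega
  have hXr : (2 : ℝ) ≤ X := by exact_mod_cast hX
  have hlog2 : Real.log 2 ≤ Real.log X := Real.log_le_log (by norm_num) hXr
  have hl2 := Real.log_two_gt_d9
  have hlog : 0 < Real.log X := by linarith
  have hF0 : 0 < F := by rw [hF]; linarith
  have hY0 : 0 < Y := by rw [hY]; linarith
  have har : (0 : ℝ) < a := by exact_mod_cast ha.pos
  have hDD0 := DD_pos z a
  have hDDle : DD z a ≤ X ^ 4 := (DD_le ha.1).trans (Nat.pow_le_pow_left haX 4)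
  set Pr : ℝ := ∏ r ∈ PP X, (1 + (1 : ℝ) / r) with hPr
  have hPr0 : 0 ≤ Pr := prod_nonneg (fun _ _ => by positivity)
  have hterm : ∀ d ∈ (DD z a).divisors.filter (fun d : ℕ => (a : ℝ) ^ δ ≤ d),
      WW (PP X) d ≤ Pr * (a : ℝ) ^ (-(δ / 4)) * (1 / Y) ^ (cardFactors d) := by
    intro d hd
    rw [mem_filter, Nat.mem_divisors] at hd
    have hd0 : 0 < d := Nat.pos_of_dvd_of_pos hd.1.1 hDD0
    have hdr : (0 : ℝ) < d := by exact_mod_cast hd0
    have hdX : d ≤ X ^ 4 := (Nat.le_of_dvd hDD0 hd.1.1).trans hDDle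
    have hΩ := cardFactors_le_log hd0 hdX
    refine (WW_PP_le hX1 hd0 F hF (by rw [hF]; linarith)).trans ?_
    have hrough := pow_cardFactors_le (z := z) d hd0
      (fun q hq hqd => lt_of_dvd_DD hq (hqd.trans hd.1.1))
    have h1 : (F * Y) ^ (cardFactors d) ≤ (d : ℝ) ^ ((1 / 12 : ℝ)) := by
      have h2 : ((F * Y) ^ (cardFactors d)) ^ 12 ≤ (d : ℝ) := by
        calc ((F * Y) ^ (cardFactors d)) ^ 12 = ((F * Y) ^ 12) ^ (cardFactors d) := by
              rw [← pow_mul, ← pow_mul, Nat.mul_comm]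
          _ ≤ (z : ℝ) ^ (cardFactors d) := pow_le_pow_left₀ (by positivity) hz _
          _ ≤ d := by exact_mod_cast hrough
      have h3 := Real.rpow_le_rpow (by positivity) h2 (show (0 : ℝ) ≤ 1 / 12 by norm_num)
      rw [← Real.rpow_natCast _ 12, ← Real.rpow_mul (by positivity)] at h3
      norm_num at h3
      convert h3 using 2
    have h4 : F ^ (cardFactors d) ≤ (d : ℝ) ^ ((1 / 12 : ℝ)) * (1 / Y) ^ (cardFactors d) := by
      rw [mul_pow] at h1
      rw [one_div_pow, mul_one_div, le_div_iff₀ (by positivity)]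
      exact h1
    have h5 : (d : ℝ) ^ ((1 / 12 : ℝ)) * (d : ℝ) ^ (-(1 / 3) : ℝ) ≤ (a : ℝ) ^ (-(δ / 4)) := by
      rw [← Real.rpow_add hdr]
      norm_num
      have h6 : (a : ℝ) ^ (-(δ / 4)) = ((a : ℝ) ^ δ) ^ (-(1 / 4) : ℝ) := by
        rw [← Real.rpow_mul har.le]
        congr 1
        ring
      rw [h6]
      exact Real.rpow_le_rpow_of_nonpos (Real.rpow_pos_of_pos har _) hd.2 (by norm_num)
    have h7 : 0 ≤ (d : ℝ) ^ (-(1 / 3) : ℝ) := Real.rpow_nonneg hdr.le _
    have h8 : 0 ≤ (1 / Y) ^ (cardFactors d) := by positivity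
    calc Pr * F ^ (cardFactors d) * (d : ℝ) ^ (-(1 / 3) : ℝ)
        ≤ Pr * ((d : ℝ) ^ ((1 / 12 : ℝ)) * (1 / Y) ^ (cardFactors d)) *
            (d : ℝ) ^ (-(1 / 3) : ℝ) := by
          apply mul_le_mul_of_nonneg_right _ h7
          exact mul_le_mul_of_nonneg_left h4 hPr0
      _ = Pr * ((d : ℝ) ^ ((1 / 12 : ℝ)) * (d : ℝ) ^ (-(1 / 3) : ℝ)) *
            (1 / Y) ^ (cardFactors d) := by ring
      _ ≤ Pr * (a : ℝ) ^ (-(δ / 4)) * (1 / Y) ^ (cardFactors d) := by
          apply mul_le_mul_of_nonneg_right _ h8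
          exact mul_le_mul_of_nonneg_left h5 hPr0
  refine (sum_le_sum hterm).trans ?_
  rw [← mul_sum]
  have ha4 : 0 ≤ (a : ℝ) ^ (-(δ / 4)) := Real.rpow_nonneg har.le _
  have hfin : ∑ d ∈ (DD z a).divisors.filter (fun d : ℕ => (a : ℝ) ^ δ ≤ d),
      (1 / Y) ^ (cardFactors d) ≤ 3 := by
    calc ∑ d ∈ (DD z a).divisors.filter (fun d : ℕ => (a : ℝ) ^ δ ≤ d), (1 / Y) ^ (cardFactors d)
        ≤ ∑ d ∈ (DD z a).divisors, (1 / Y) ^ (cardFactors d) := by
          apply sum_le_sum_of_subset_of_nonneg (filter_subset _ _)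
          intro _ _ _
          positivity
      _ ≤ (1 + 1 / Y) ^ (cardFactors (DD z a)) :=
          sum_pow_cardFactors_le (1 / Y) (by positivity) _ hDD0
      _ ≤ (Real.exp (1 / Y)) ^ (cardFactors (DD z a)) := by
          apply pow_le_pow_left₀ (by positivity)
          rw [add_comm]; exact Real.add_one_le_exp _
      _ = Real.exp ((cardFactors (DD z a) : ℝ) * (1 / Y)) := by rw [← Real.exp_nat_mul]
      _ ≤ Real.exp 1 := by
          apply Real.exp_le_exp.mpr
          rw [mul_one_div, div_le_one hY0, hY]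
          exact cardFactors_le_log hDD0 hDDle
      _ ≤ 3 := by linarith [Real.exp_one_lt_d9]
  calc Pr * (a : ℝ) ^ (-(δ / 4)) *
        ∑ d ∈ (DD z a).divisors.filter (fun d : ℕ => (a : ℝ) ^ δ ≤ d), (1 / Y) ^ (cardFactors d)
      ≤ Pr * (a : ℝ) ^ (-(δ / 4)) * 3 := by
        apply mul_le_mul_of_nonneg_left hfin
        positivity
    _ = _ := by ring

open Classical in
theorem typeOne_card {z X : ℕ} (hX : 2 ≤ X) (F Y : ℝ) (hF : F = 18 * (3 + Real.log X))
    (hY : Y = 6 * Real.log X) (hz : (F * Y) ^ 12 ≤ (z : ℝ)) (A δ : ℝ) (hA : 0 < A)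
    (hδ : 0 ≤ δ) :
    (((prs X).filter (fun w => Adj w.1 w.2 ∧ TypeOne z X A δ w.1 w.2)).card : ℝ)
      ≤ 12 * X * (∏ r ∈ PP X, (1 + (1 : ℝ) / r)) * A ^ (-(δ / 4)) * (1 + Real.log X) := by
  have hX1 : 1 ≤ X := by omega
  set Pr : ℝ := ∏ r ∈ PP X, (1 + (1 : ℝ) / r) with hPr
  have hPr0 : 0 ≤ Pr := prod_nonneg (fun _ _ => by positivity)
  set AA := (Icc 1 X).filter (fun a : ℕ => GoodSq z a ∧ A ≤ (a : ℝ)) with hAA
  set Dv : ℕ → Finset ℕ := fun a => (DD z a).divisors.filter (fun d : ℕ => (a : ℝ) ^ δ ≤ d)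
    with hDv
  set BB : ℕ → ℕ → Finset ℕ := fun a d => (Icc 1 X).filter
    (fun b => Squarefree b ∧ Nat.Coprime a b ∧ a * b ≤ X ∧ d ∣ sigma 3 b) with hBB
  set CC : ℕ → ℕ → Finset (ℕ × ℕ) := fun a b =>
    (prs X).filter (fun w => Adj w.1 w.2 ∧ a ∣ w.1 ∧ b ∣ w.2) with hCC
  have hsub : (prs X).filter (fun w => Adj w.1 w.2 ∧ TypeOne z X A δ w.1 w.2)
      ⊆ AA.biUnion (fun a => (Dv a).biUnion (fun d => (BB a d).biUnion (fun b => CC a b))) := by
    intro w hw
    rw [mem_filter] at hw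
    obtain ⟨hwp, hadj, a, b, d, ha, hAa, hau, hb, hbv, hab, habX, hda, hdb, had⟩ := hw
    have hwp' := hwp
    rw [prs, mem_product, mem_Icc, mem_Icc] at hwp'
    have hb0 : 0 < b := Nat.pos_of_ne_zero hb.ne_zero
    rw [mem_biUnion]
    refine ⟨a, ?_, ?_⟩
    · rw [hAA, mem_filter, mem_Icc]
      exact ⟨⟨ha.pos, (Nat.le_of_dvd (by omega) hau).trans hwp'.1.2⟩, ha, hAa⟩
    rw [mem_biUnion]
    refine ⟨d, ?_, ?_⟩
    · rw [hDv]
      simp only
      rw [mem_filter, Nat.mem_divisors]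
      exact ⟨⟨hda, (DD_pos z a).ne'⟩, had⟩
    rw [mem_biUnion]
    refine ⟨b, ?_, ?_⟩
    · rw [hBB]
      simp only
      rw [mem_filter, mem_Icc]
      exact ⟨⟨hb0, (Nat.le_of_dvd (by omega) hbv).trans hwp'.2.2⟩, hb, hab, habX, hdb⟩
    · rw [hCC]
      simp only
      rw [mem_filter]
      exact ⟨hwp, hadj, hau, hbv⟩
  have hstep : ∀ a ∈ AA, (((Dv a).biUnion (fun d => (BB a d).biUnion
      (fun b => CC a b))).card : ℝ) ≤ 12 * X * Pr * A ^ (-(δ / 4)) * (1 / a) := by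
    intro a ha
    rw [hAA, mem_filter, mem_Icc] at ha
    have ha0 : 0 < a := ha.1.1
    have har : (0 : ℝ) < a := by exact_mod_cast ha0
    calc (((Dv a).biUnion (fun d => (BB a d).biUnion (fun b => CC a b))).card : ℝ)
        ≤ ∑ d ∈ Dv a, (((BB a d).biUnion (fun b => CC a b)).card : ℝ) := by
          exact_mod_cast card_biUnion_le
      _ ≤ ∑ d ∈ Dv a, (4 * X / a) * WW (PP X) d := by
          apply sum_le_sum
          intro d _
          calc (((BB a d).biUnion (fun b => CC a b)).card : ℝ)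
              ≤ ∑ b ∈ BB a d, ((CC a b).card : ℝ) := by exact_mod_cast card_biUnion_le
            _ ≤ ∑ b ∈ BB a d, (4 * X / a) * ((1 : ℝ) / b) := by
                apply sum_le_sum
                intro b hb
                rw [hBB] at hb
                simp only at hb
                rw [mem_filter, mem_Icc] at hb
                exact card_crt_real ha0 hb.1.1 hb.2.2.1 hb.2.2.2.1
            _ = (4 * X / a) * ∑ b ∈ BB a d, (1 : ℝ) / b := by rw [mul_sum]
            _ ≤ (4 * X / a) * WW (PP X) d := by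
                apply mul_le_mul_of_nonneg_left _ (by positivity)
                apply sum_sqf_le
                intro b hb
                rw [hBB] at hb
                simp only at hb
                rw [mem_filter, mem_Icc] at hb
                exact ⟨hb.1.1, hb.1.2, hb.2.1, hb.2.2.2.2⟩
      _ = (4 * X / a) * ∑ d ∈ Dv a, WW (PP X) d := by rw [mul_sum]
      _ ≤ (4 * X / a) * (3 * Pr * (a : ℝ) ^ (-(δ / 4))) := by
          apply mul_le_mul_of_nonneg_left _ (by positivity)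
          exact sum_divisors_le hX F Y hF hY hz ha.2.1 ha.1.2
      _ ≤ (4 * X / a) * (3 * Pr * A ^ (-(δ / 4))) := by
          apply mul_le_mul_of_nonneg_left _ (by positivity)
          apply mul_le_mul_of_nonneg_left _ (by positivity)
          exact Real.rpow_le_rpow_of_nonpos hA ha.2.2 (by linarith)
      _ = _ := by ring
  calc (((prs X).filter (fun w => Adj w.1 w.2 ∧ TypeOne z X A δ w.1 w.2)).card : ℝ)
      ≤ ((AA.biUnion (fun a => (Dv a).biUnion (fun d => (BB a d).biUnion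
          (fun b => CC a b)))).card : ℝ) := by exact_mod_cast card_le_card hsub
    _ ≤ ∑ a ∈ AA, (((Dv a).biUnion (fun d => (BB a d).biUnion (fun b => CC a b))).card : ℝ) := by
        exact_mod_cast card_biUnion_le
    _ ≤ ∑ a ∈ AA, 12 * X * Pr * A ^ (-(δ / 4)) * (1 / (a : ℝ)) := sum_le_sum hstep
    _ ≤ ∑ a ∈ Icc 1 X, 12 * X * Pr * A ^ (-(δ / 4)) * (1 / (a : ℝ)) := by
        apply sum_le_sum_of_subset_of_nonneg (filter_subset _ _)
        intro a _ _
        have := Real.rpow_nonneg hA.le (-(δ / 4))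
        positivity
    _ = 12 * X * Pr * A ^ (-(δ / 4)) * ∑ a ∈ Icc 1 X, (1 / (a : ℝ)) := by rw [mul_sum]
    _ ≤ 12 * X * Pr * A ^ (-(δ / 4)) * (1 + Real.log X) := by
        apply mul_le_mul_of_nonneg_left
        · have h1 : ∑ a ∈ Icc 1 X, (1 / (a : ℝ)) = ((harmonic X : ℚ) : ℝ) := by
            rw [harmonic_eq_sum_Icc]
            push_cast
            apply sum_congr rfl
            intro a _
            rw [one_div]
          rw [h1]
          exact harmonic_le_one_add_log X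
        · have := Real.rpow_nonneg hA.le (-(δ / 4))
          positivity

end Pool.Agent.Sig3
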