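import Pool.Agent.Helper46_Sig3.TypeOne

/-!
# Pairs with large prime factors
-/

open Finset ArithmeticFunction

namespace Pool.Agent.Sig3

/-- Type two pairs: `v = q m` with `m` small, and a rough number divides `q ^ 3 + 1`. -/
def TypeTwo (z : ℕ) (A B M : ℝ) (v : ℕ) : Prop :=
  ∃ a q m : ℕ, GoodSq z a ∧ A ≤ (a : ℝ) ∧ (a : ℝ) ≤ B ∧ q.Prime ∧ v = q * m ∧ (m : ℝ) ≤ M ∧
    DD z a / Nat.gcd (DD z a) (sigma 3 m) ∣ q ^ 3 + 1

lemma quot_ge {z a m : ℕ} {A M : ℝ} (ha : GoodSq z a) (hAa : A ≤ (a : ℝ)) (hm0 : 0 < m)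
    (hm : (m : ℝ) ≤ M) (hMA : M ^ 8 ≤ A) :
    (a : ℝ) ^ (3 / 2 : ℝ) ≤ ((DD z a / Nat.gcd (DD z a) (sigma 3 m) : ℕ) : ℝ) := by
  have har : (0 : ℝ) < a := by exact_mod_cast ha.pos
  set g := Nat.gcd (DD z a) (sigma 3 m) with hg
  have hg0 : 0 < g := Nat.gcd_pos_of_pos_left _ (DD_pos z a)
  have hgr : (0 : ℝ) < g := by exact_mod_cast hg0
  have hmr : (0 : ℝ) < m := by exact_mod_cast hm0
  have hdiv : (DD z a / g) * g = DD z a := Nat.div_mul_cancel (Nat.gcd_dvd_left _ _)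
  have h1 : ((DD z a / g : ℕ) : ℝ) * g = (DD z a : ℝ) := by exact_mod_cast hdiv
  have h2 : (a : ℝ) ^ 2 ≤ (DD z a : ℝ) := by exact_mod_cast sq_le_DD ha
  have h3 : (g : ℝ) ≤ (a : ℝ) ^ (1 / 2 : ℝ) := by
    have h4 : g ≤ m ^ 4 := (Nat.le_of_dvd (sigma_pos 3 m hm0.ne') (Nat.gcd_dvd_right _ _)).trans
      (sigma_le_pow_succ 3 m)
    have h5 : (g : ℝ) ≤ (m : ℝ) ^ 4 := by exact_mod_cast h4
    have h6 : (g : ℝ) ^ 2 ≤ a := by
      calc (g : ℝ) ^ 2 ≤ ((m : ℝ) ^ 4) ^ 2 := pow_le_pow_left₀ hgr.le h5 2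
        _ = (m : ℝ) ^ 8 := by ring
        _ ≤ M ^ 8 := pow_le_pow_left₀ hmr.le hm 8
        _ ≤ a := hMA.trans hAa
    rw [← Real.sqrt_eq_rpow]
    exact Real.le_sqrt_of_sq_le h6
  have h7 : (a : ℝ) ^ (3 / 2 : ℝ) * (a : ℝ) ^ (1 / 2 : ℝ) = (a : ℝ) ^ 2 := by
    rw [← Real.rpow_add har, ← Real.rpow_natCast]
    norm_num
  have h8 : 0 < (a : ℝ) ^ (3 / 2 : ℝ) := Real.rpow_pos_of_pos har _
  have h9 : (a : ℝ) ^ (3 / 2 : ℝ) * g ≤ ((DD z a / g : ℕ) : ℝ) * g := by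
    rw [h1]
    calc (a : ℝ) ^ (3 / 2 : ℝ) * g ≤ (a : ℝ) ^ (3 / 2 : ℝ) * (a : ℝ) ^ (1 / 2 : ℝ) :=
          mul_le_mul_of_nonneg_left h3 h8.le
      _ = (a : ℝ) ^ 2 := h7
      _ ≤ _ := h2
  exact le_of_mul_le_mul_right h9 hgr

open Classical in
lemma typeTwo_fibre (X e m : ℕ) (hm : 0 < m) (he : 0 < e) :
    ((prs X).filter (fun w => Adj w.1 w.2 ∧ ∃ q : ℕ, w.2 = q * m ∧ e ∣ q ^ 3 + 1)).card
      ≤ 2 * ((rts e).card * (X / m / e + 1)) := by
  set Q := (range (X / m + 1)).filter (fun q => e ∣ q ^ 3 + 1) with hQ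
  have hsub : (prs X).filter (fun w => Adj w.1 w.2 ∧ ∃ q : ℕ, w.2 = q * m ∧ e ∣ q ^ 3 + 1)
      ⊆ Q.image (fun q => (q * m + 2, q * m)) ∪ Q.image (fun q => (q * m - 2, q * m)) := by
    intro w hw
    rw [mem_filter, prs, mem_product, mem_Icc, mem_Icc] at hw
    obtain ⟨⟨⟨h1, h2⟩, h3, h4⟩, hadj, q, hq, heq⟩ := hw
    have hqX : q ≤ X / m := by
      rw [Nat.le_div_iff_mul_le hm]
      omega
    have hqQ : q ∈ Q := by
      rw [hQ, mem_filter, mem_range]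
      exact ⟨by omega, heq⟩
    rcases hadj with h | h
    · apply mem_union_right
      rw [mem_image]
      refine ⟨q, hqQ, ?_⟩
      apply Prod.ext
      · simp only
        omega
      · simp only
        omega
    · apply mem_union_left
      rw [mem_image]
      refine ⟨q, hqQ, ?_⟩
      apply Prod.ext
      · simp only
        omega
      · simp only
        omega
  calc _ ≤ (Q.image (fun q => (q * m + 2, q * m)) ∪ Q.image (fun q => (q * m - 2, q * m))).card :=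
        card_le_card hsub
    _ ≤ (Q.image (fun q => (q * m + 2, q * m))).card
        + (Q.image (fun q => (q * m - 2, q * m))).card := card_union_le _ _
    _ ≤ Q.card + Q.card := add_le_add card_image_le card_image_le
    _ = 2 * Q.card := by ring
    _ ≤ _ := Nat.mul_le_mul_left 2 (card_cube_le he (X / m))

open Classical in
theorem typeTwo_card {z X : ℕ} (hX : 1 ≤ X) (A B M R : ℝ) (hA : 1 ≤ A) (hB : 0 ≤ B) (hM : 0 ≤ M)
    (hMA : M ^ 8 ≤ A) (hBX : B ≤ X)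
    (hR : ∀ e : ℕ, 0 < e → (∀ q : ℕ, q.Prime → q ∣ e → z < q) → e ≤ X ^ 4 →
      (3 : ℝ) ^ (cardFactors e) ≤ R) :
    (((prs X).filter (fun w => Adj w.1 w.2 ∧ TypeTwo z A B M w.2)).card : ℝ)
      ≤ 2 * R * (5 * X * (1 + Real.log X) * A ^ (-(1 / 4) : ℝ) + B * M) := by
  have hR0 : 0 ≤ R := by
    have := hR 1 one_pos (fun q hq h => absurd h (hq.one_lt.ne' ∘ Nat.dvd_one.mp))
      (Nat.one_le_pow _ _ hX)
    have h2 : (0 : ℝ) ≤ (3 : ℝ) ^ (cardFactors 1) := by positivity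
    linarith
  set AA := (Icc 1 ⌊B⌋₊).filter (fun a : ℕ => GoodSq z a ∧ A ≤ (a : ℝ)) with hAA
  set ee : ℕ → ℕ → ℕ := fun a m => DD z a / Nat.gcd (DD z a) (sigma 3 m) with hee
  set CC : ℕ → ℕ → Finset (ℕ × ℕ) := fun a m => (prs X).filter
    (fun w => Adj w.1 w.2 ∧ ∃ q : ℕ, w.2 = q * m ∧ ee a m ∣ q ^ 3 + 1) with hCC
  set MM := (Icc 1 X).filter (fun m : ℕ => (m : ℝ) ≤ M) with hMM
  have hsub : (prs X).filter (fun w => Adj w.1 w.2 ∧ TypeTwo z A B M w.2)
      ⊆ AA.biUnion (fun a => MM.biUnion (fun m => CC a m)) := by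
    intro w hw
    rw [mem_filter] at hw
    obtain ⟨hwp, hadj, a, q, m, ha, hAa, haB, hq, hv, hmM, hdvd⟩ := hw
    have hwp' := hwp
    rw [prs, mem_product, mem_Icc, mem_Icc] at hwp'
    have hm0 : 0 < m := by
      rcases Nat.eq_zero_or_pos m with h0 | h0
      · rw [h0] at hv; omega
      · exact h0
    have hmX : m ≤ X := by
      have : m ∣ w.2 := Dvd.intro_left q hv.symm
      exact (Nat.le_of_dvd (by omega) this).trans hwp'.2.2
    rw [mem_biUnion]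
    refine ⟨a, ?_, ?_⟩
    · rw [hAA, mem_filter, mem_Icc]
      exact ⟨⟨ha.pos, Nat.le_floor haB⟩, ha, hAa⟩
    rw [mem_biUnion]
    refine ⟨m, ?_, ?_⟩
    · rw [hMM, mem_filter, mem_Icc]
      exact ⟨⟨hm0, hmX⟩, hmM⟩
    · rw [hCC]
      simp only
      rw [mem_filter]
      exact ⟨hwp, hadj, q, hv, hdvd⟩
  have hfib : ∀ a ∈ AA, ∀ m ∈ MM, ((CC a m).card : ℝ)
      ≤ 2 * R * ((X : ℝ) * (1 / (m : ℝ)) * (A ^ (-(1 / 4) : ℝ) * (a : ℝ) ^ (-1 - 1 / 4 : ℝ)) + 1) := by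
    intro a ha m hm
    rw [hAA, mem_filter, mem_Icc] at ha
    rw [hMM, mem_filter, mem_Icc] at hm
    have ha0 : 0 < a := ha.1.1
    have har : (0 : ℝ) < a := by exact_mod_cast ha0
    have hm0 : 0 < m := hm.1.1
    have hmr : (0 : ℝ) < m := by exact_mod_cast hm0
    have haX : a ≤ X := by
      have h1 : (a : ℝ) ≤ B := (Nat.le_floor_iff hB).mp ha.1.2
      exact_mod_cast h1.trans hBX
    have hge := quot_ge (m := m) ha.2.1 ha.2.2 hm0 hm.2 hMA
    have hepos : 0 < ee a m := by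
      have : (0 : ℝ) < ((ee a m : ℕ) : ℝ) := lt_of_lt_of_le (Real.rpow_pos_of_pos har _) hge
      exact_mod_cast this
    have her : (0 : ℝ) < (ee a m : ℝ) := by exact_mod_cast hepos
    have hdvdDD : ee a m ∣ DD z a := Nat.div_dvd_of_dvd (Nat.gcd_dvd_left _ _)
    have hRe := hR (ee a m) hepos (fun q hq h => lt_of_dvd_DD hq (h.trans hdvdDD))
      ((Nat.le_of_dvd (DD_pos z a) hdvdDD).trans ((DD_le ha.2.1.1).trans
        (Nat.pow_le_pow_left haX 4)))
    have h1 : ((CC a m).card : ℝ) ≤ 2 * (((rts (ee a m)).card : ℝ) *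
        (((X / m / ee a m : ℕ) : ℝ) + 1)) := by
      exact_mod_cast typeTwo_fibre X (ee a m) m hm0 hepos
    have h2 : ((rts (ee a m)).card : ℝ) ≤ R := by
      have : ((rts (ee a m)).card : ℝ) ≤ 3 ^ (cardFactors (ee a m)) := by
        exact_mod_cast card_rts_le' hepos
      exact this.trans hRe
    have h3 : ((X / m / ee a m : ℕ) : ℝ) ≤ (X : ℝ) * (1 / (m : ℝ)) *
        (A ^ (-(1 / 4) : ℝ) * (a : ℝ) ^ (-1 - 1 / 4 : ℝ)) := by
      rw [Nat.div_div_eq_div_mul]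
      have h4 : ((X / (m * ee a m) : ℕ) : ℝ) ≤ (X : ℝ) / ((m * ee a m : ℕ) : ℝ) := Nat.cast_div_le
      refine h4.trans ?_
      push_cast
      have h5 : (1 : ℝ) / (ee a m : ℝ) ≤ A ^ (-(1 / 4) : ℝ) * (a : ℝ) ^ (-1 - 1 / 4 : ℝ) := by
        calc (1 : ℝ) / (ee a m : ℝ) ≤ 1 / (a : ℝ) ^ (3 / 2 : ℝ) :=
              one_div_le_one_div_of_le (Real.rpow_pos_of_pos har _) hge
          _ = (a : ℝ) ^ (-(1 / 4) : ℝ) * (a : ℝ) ^ (-1 - 1 / 4 : ℝ) := by
              rw [← Real.rpow_add har, one_div, ← Real.rpow_neg har.le]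
              norm_num
          _ ≤ A ^ (-(1 / 4) : ℝ) * (a : ℝ) ^ (-1 - 1 / 4 : ℝ) := by
              apply mul_le_mul_of_nonneg_right _ (Real.rpow_nonneg har.le _)
              exact Real.rpow_le_rpow_of_nonpos (by linarith) ha.2.2 (by norm_num)
      calc (X : ℝ) / ((m : ℝ) * (ee a m : ℝ)) = (X : ℝ) * (1 / (m : ℝ)) * (1 / (ee a m : ℝ)) := by
            field_simp
        _ ≤ _ := by
            apply mul_le_mul_of_nonneg_left h5
            positivity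
    calc ((CC a m).card : ℝ) ≤ 2 * (((rts (ee a m)).card : ℝ) *
          (((X / m / ee a m : ℕ) : ℝ) + 1)) := h1
      _ ≤ 2 * (R * (((X / m / ee a m : ℕ) : ℝ) + 1)) := by
          apply mul_le_mul_of_nonneg_left _ (by norm_num)
          apply mul_le_mul_of_nonneg_right h2 (by positivity)
      _ ≤ 2 * (R * ((X : ℝ) * (1 / (m : ℝ)) *
          (A ^ (-(1 / 4) : ℝ) * (a : ℝ) ^ (-1 - 1 / 4 : ℝ)) + 1)) := by
          apply mul_le_mul_of_nonneg_left _ (by norm_num)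
          apply mul_le_mul_of_nonneg_left _ hR0
          linarith
      _ = _ := by ring
  have hlog : 0 ≤ Real.log X := Real.log_nonneg (by exact_mod_cast hX)
  have hA4 : 0 ≤ A ^ (-(1 / 4) : ℝ) := Real.rpow_nonneg (by linarith) _
  have hharm : ∑ m ∈ MM, 1 / (m : ℝ) ≤ 1 + Real.log X := by
    have h1 : ∑ a ∈ Icc 1 X, (1 / (a : ℝ)) = ((harmonic X : ℚ) : ℝ) := by
      rw [harmonic_eq_sum_Icc]
      push_cast
      apply sum_congr rfl
      intro a _
      rw [one_div]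
    calc ∑ m ∈ MM, 1 / (m : ℝ) ≤ ∑ m ∈ Icc 1 X, 1 / (m : ℝ) := by
          apply sum_le_sum_of_subset_of_nonneg (filter_subset _ _)
          intro _ _ _
          positivity
      _ ≤ _ := by rw [h1]; exact harmonic_le_one_add_log X
  have hMMc : (MM.card : ℝ) ≤ M := by
    have h1 : MM ⊆ Icc 1 ⌊M⌋₊ := by
      intro m hm
      rw [hMM, mem_filter, mem_Icc] at hm
      rw [mem_Icc]
      exact ⟨hm.1.1, Nat.le_floor hm.2⟩
    have h2 : MM.card ≤ ⌊M⌋₊ := by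
      have := card_le_card h1
      simpa using this
    calc (MM.card : ℝ) ≤ (⌊M⌋₊ : ℝ) := by exact_mod_cast h2
      _ ≤ M := Nat.floor_le hM
  have hAAc : (AA.card : ℝ) ≤ B := by
    have h2 : AA.card ≤ ⌊B⌋₊ := by
      have := card_filter_le (Icc 1 ⌊B⌋₊) (fun a : ℕ => GoodSq z a ∧ A ≤ (a : ℝ))
      simpa using this
    calc (AA.card : ℝ) ≤ (⌊B⌋₊ : ℝ) := by exact_mod_cast h2
      _ ≤ B := Nat.floor_le hB
  have hzeta : ∑ a ∈ AA, (a : ℝ) ^ (-1 - 1 / 4 : ℝ) ≤ 5 := by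
    calc ∑ a ∈ AA, (a : ℝ) ^ (-1 - 1 / 4 : ℝ) ≤ ∑ a ∈ Icc 1 ⌊B⌋₊, (a : ℝ) ^ (-1 - 1 / 4 : ℝ) := by
          apply sum_le_sum_of_subset_of_nonneg (filter_subset _ _)
          intro _ _ _
          exact Real.rpow_nonneg (Nat.cast_nonneg _) _
      _ ≤ 1 + 1 / (1 / 4) := zeta_sum_le (by norm_num) _
      _ = 5 := by norm_num
  calc (((prs X).filter (fun w => Adj w.1 w.2 ∧ TypeTwo z A B M w.2)).card : ℝ)
      ≤ ((AA.biUnion (fun a => MM.biUnion (fun m => CC a m))).card : ℝ) := by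
        exact_mod_cast card_le_card hsub
    _ ≤ ∑ a ∈ AA, ((MM.biUnion (fun m => CC a m)).card : ℝ) := by
        exact_mod_cast card_biUnion_le
    _ ≤ ∑ a ∈ AA, ∑ m ∈ MM, ((CC a m).card : ℝ) := by
        apply sum_le_sum
        intro a _
        exact_mod_cast card_biUnion_le
    _ ≤ ∑ a ∈ AA, ∑ m ∈ MM, 2 * R * ((X : ℝ) * (1 / (m : ℝ)) *
          (A ^ (-(1 / 4) : ℝ) * (a : ℝ) ^ (-1 - 1 / 4 : ℝ)) + 1) := by
        apply sum_le_sum
        intro a ha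
        apply sum_le_sum
        intro m hm
        exact hfib a ha m hm
    _ = 2 * R * (X * (∑ m ∈ MM, 1 / (m : ℝ)) * (A ^ (-(1 / 4) : ℝ) *
          ∑ a ∈ AA, (a : ℝ) ^ (-1 - 1 / 4 : ℝ)) + AA.card * MM.card) := by
        have e1 : ∀ a ∈ AA, ∑ m ∈ MM, 2 * R * ((X : ℝ) * (1 / (m : ℝ)) *
            (A ^ (-(1 / 4) : ℝ) * (a : ℝ) ^ (-1 - 1 / 4 : ℝ)) + 1)
            = 2 * R * (X * (∑ m ∈ MM, 1 / (m : ℝ)) * A ^ (-(1 / 4) : ℝ)) *
              (a : ℝ) ^ (-1 - 1 / 4 : ℝ) + 2 * R * MM.card := by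
          intro a _
          rw [← mul_sum, sum_add_distrib, sum_const, nsmul_eq_mul, mul_one]
          have e2 : ∑ m ∈ MM, (X : ℝ) * (1 / (m : ℝ)) *
              (A ^ (-(1 / 4) : ℝ) * (a : ℝ) ^ (-1 - 1 / 4 : ℝ))
              = X * (∑ m ∈ MM, 1 / (m : ℝ)) *
                (A ^ (-(1 / 4) : ℝ) * (a : ℝ) ^ (-1 - 1 / 4 : ℝ)) := by
            rw [mul_sum, sum_mul]
          rw [e2]
          ring
        rw [sum_congr rfl e1, sum_add_distrib, ← mul_sum, sum_const, nsmul_eq_mul]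
        ring
    _ ≤ 2 * R * (X * (1 + Real.log X) * (A ^ (-(1 / 4) : ℝ) * 5) + B * M) := by
        apply mul_le_mul_of_nonneg_left _ (by positivity)
        apply add_le_add
        · apply mul_le_mul
          · exact mul_le_mul_of_nonneg_left hharm (Nat.cast_nonneg X)
          · exact mul_le_mul_of_nonneg_left hzeta hA4
          · apply mul_nonneg hA4
            exact sum_nonneg (fun _ _ => Real.rpow_nonneg (Nat.cast_nonneg _) _)
          · positivity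
        · exact mul_le_mul hAAc hMMc (Nat.cast_nonneg _) hB
    _ = _ := by ring

/-- A cubic equation has at most three solutions. -/
lemma cubic_card (a3 a2 a1 a0 : ℤ) (h2 : a2 ≠ 0) (S : Finset ℕ)
    (hS : ∀ p ∈ S, a3 * (p : ℤ) ^ 3 + a2 * (p : ℤ) ^ 2 + a1 * p + a0 = 0) : S.card ≤ 3 := by
  classical
  set f : Polynomial ℤ := Polynomial.C a3 * Polynomial.X ^ 3 + Polynomial.C a2 * Polynomial.X ^ 2
    + Polynomial.C a1 * Polynomial.X + Polynomial.C a0 with hf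
  have hcoeff : f.coeff 2 = a2 := by
    rw [hf]
    simp only [Polynomial.coeff_add, Polynomial.coeff_C_mul, Polynomial.coeff_X_pow,
      Polynomial.coeff_X, Polynomial.coeff_C]
    norm_num
  have hf0 : f ≠ 0 := by
    intro h
    rw [h] at hcoeff
    exact h2 (by simpa using hcoeff.symm)
  have hdeg : f.natDegree ≤ 3 := by
    rw [hf]
    compute_degree
  have h1 : S.card ≤ f.roots.toFinset.card := by
    apply card_le_card_of_injOn (fun p : ℕ => (p : ℤ))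
    · intro p hp
      rw [Finset.mem_coe] at hp
      rw [Finset.mem_coe, Multiset.mem_toFinset, Polynomial.mem_roots hf0, Polynomial.IsRoot.def]
      rw [hf]
      simpa using hS p hp
    · intro p _ q _ h
      simp only at h
      exact_mod_cast h
  exact h1.trans ((Multiset.toFinset_card_le _).trans ((Polynomial.card_roots' f).trans hdeg))

/-- Type zero pairs: both numbers have a very large prime factor. -/
def TypeZero (M : ℝ) (u v : ℕ) : Prop :=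
  ∃ p m q m' : ℕ, p.Prime ∧ q.Prime ∧ u = p * m ∧ v = q * m' ∧ Nat.Coprime p m ∧
    Nat.Coprime q m' ∧ (m : ℝ) ≤ M ∧ (m' : ℝ) ≤ M

open Classical in
lemma typeZero_fibre (X m m' : ℕ) (hm : 0 < m) (hm' : 0 < m') :
    ((prs X).filter (fun w => Adj w.1 w.2 ∧ sigma 3 w.1 = sigma 3 w.2 ∧ ∃ p q : ℕ, p.Prime ∧
      q.Prime ∧ w.1 = p * m ∧ w.2 = q * m' ∧ Nat.Coprime p m ∧ Nat.Coprime q m')).card ≤ 6 := by
  set S := (prs X).filter (fun w => Adj w.1 w.2 ∧ sigma 3 w.1 = sigma 3 w.2 ∧ ∃ p q : ℕ,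
    p.Prime ∧ q.Prime ∧ w.1 = p * m ∧ w.2 = q * m' ∧ Nat.Coprime p m ∧ Nat.Coprime q m') with hS
  have hsplit : S ⊆ S.filter (fun w => w.2 = w.1 + 2) ∪ S.filter (fun w => w.1 = w.2 + 2) := by
    intro w hw
    have h1 : w ∈ S := hw
    rw [hS, mem_filter] at h1
    rcases h1.2.1 with h | h
    · exact mem_union_left _ (mem_filter.mpr ⟨hw, h⟩)
    · exact mem_union_right _ (mem_filter.mpr ⟨hw, h⟩)
  have hone : ∀ (c : ℤ), c ≠ 0 → ∀ S' : Finset (ℕ × ℕ), S' ⊆ S →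
      (∀ w ∈ S', (w.2 : ℤ) = w.1 + c) → S'.card ≤ 3 := by
    intro c hc S' hS' hcase
    have hinj : Set.InjOn (fun w : ℕ × ℕ => w.1 / m) S' := by
      intro w hw w' hw' hww
      have h1 := hS' hw
      have h2 := hS' hw'
      rw [hS, mem_filter] at h1 h2
      obtain ⟨p, q, _, _, h3, _⟩ := h1.2.2.2
      obtain ⟨p', q', _, _, h3', _⟩ := h2.2.2.2
      simp only at hww
      rw [h3, h3', Nat.mul_div_cancel _ hm, Nat.mul_div_cancel _ hm] at hww
      have h4 : w.1 = w'.1 := by rw [h3, h3', hww]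
      have h5 := hcase w hw
      have h6 := hcase w' hw'
      rw [h4] at h5
      have h7 : w.2 = w'.2 := by
        have : (w.2 : ℤ) = w'.2 := by rw [h5, h6]
        exact_mod_cast this
      exact Prod.ext h4 h7
    rw [← card_image_of_injOn hinj]
    have hσ : (sigma 3 m' : ℤ) ≠ 0 := by exact_mod_cast (sigma_pos 3 m' hm'.ne').ne'
    have hmz : (m : ℤ) ≠ 0 := by exact_mod_cast hm.ne'
    apply cubic_card ((sigma 3 m : ℤ) * m' ^ 3 - (sigma 3 m' : ℤ) * m ^ 3)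
      (-(3 * (sigma 3 m' : ℤ) * m ^ 2 * c)) (-(3 * (sigma 3 m' : ℤ) * m * c ^ 2))
      ((sigma 3 m : ℤ) * m' ^ 3 - (sigma 3 m' : ℤ) * (c ^ 3 + m' ^ 3))
    · have : 3 * (sigma 3 m' : ℤ) * m ^ 2 * c ≠ 0 := by positivity
      exact neg_ne_zero.mpr this
    · intro p hp
      rw [mem_image] at hp
      obtain ⟨w, hw, rfl⟩ := hp
      have h1 := hS' hw
      rw [hS, mem_filter] at h1
      obtain ⟨p, q, hp, hq, h3, h4, hpm, hqm⟩ := h1.2.2.2
      have h5 := h1.2.2.1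
      rw [h3, h4, isMultiplicative_sigma.map_mul_of_coprime hpm,
        isMultiplicative_sigma.map_mul_of_coprime hqm, sigma_three_prime hp,
        sigma_three_prime hq] at h5
      rw [h3, Nat.mul_div_cancel _ hm]
      have h6 := hcase w hw
      rw [h3, h4] at h6
      push_cast at h6
      have h7 : (((p ^ 3 + 1) * sigma 3 m : ℕ) : ℤ) = (((q ^ 3 + 1) * sigma 3 m' : ℕ) : ℤ) := by
        exact_mod_cast h5
      push_cast at h7
      have h8 : (q : ℤ) ^ 3 * (m' : ℤ) ^ 3 = ((p : ℤ) * m + c) ^ 3 := by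
        rw [← h6]; ring
      linear_combination (m' : ℤ) ^ 3 * h7 + (sigma 3 m' : ℤ) * h8
  calc S.card ≤ (S.filter (fun w => w.2 = w.1 + 2) ∪ S.filter (fun w => w.1 = w.2 + 2)).card :=
        card_le_card hsplit
    _ ≤ (S.filter (fun w => w.2 = w.1 + 2)).card + (S.filter (fun w => w.1 = w.2 + 2)).card :=
        card_union_le _ _
    _ ≤ 3 + 3 := by
        apply add_le_add
        · apply hone 2 (by norm_num) _ (filter_subset _ _)
          intro w hw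
          have := (mem_filter.mp hw).2
          rw [this]
          push_cast
          ring
        · apply hone (-2) (by norm_num) _ (filter_subset _ _)
          intro w hw
          have := (mem_filter.mp hw).2
          rw [this]
          push_cast
          ring
    _ = 6 := by norm_num

open Classical in
theorem typeZero_card (X : ℕ) (M : ℝ) (hM : 0 ≤ M) :
    (((prs X).filter (fun w => Adj w.1 w.2 ∧ sigma 3 w.1 = sigma 3 w.2 ∧
      TypeZero M w.1 w.2)).card : ℝ) ≤ 6 * M ^ 2 := by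
  set CC : ℕ × ℕ → Finset (ℕ × ℕ) := fun k => (prs X).filter (fun w => Adj w.1 w.2 ∧
    sigma 3 w.1 = sigma 3 w.2 ∧ ∃ p q : ℕ, p.Prime ∧
      q.Prime ∧ w.1 = p * k.1 ∧ w.2 = q * k.2 ∧ Nat.Coprime p k.1 ∧ Nat.Coprime q k.2) with hCC
  set KK := (Icc 1 ⌊M⌋₊) ×ˢ (Icc 1 ⌊M⌋₊) with hKK
  have hsub : (prs X).filter (fun w => Adj w.1 w.2 ∧ sigma 3 w.1 = sigma 3 w.2 ∧
      TypeZero M w.1 w.2) ⊆ KK.biUnion CC := by
    intro w hw
    rw [mem_filter] at hw
    obtain ⟨hwp, hadj, hσ, p, m, q, m', hp, hq, h1, h2, h3, h4, h5, h6⟩ := hw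
    have hwp' := hwp
    rw [prs, mem_product, mem_Icc, mem_Icc] at hwp'
    have hm0 : 0 < m := by
      rcases Nat.eq_zero_or_pos m with h0 | h0
      · rw [h0] at h1; omega
      · exact h0
    have hm0' : 0 < m' := by
      rcases Nat.eq_zero_or_pos m' with h0 | h0
      · rw [h0] at h2; omega
      · exact h0
    rw [mem_biUnion]
    refine ⟨(m, m'), ?_, ?_⟩
    · rw [hKK, mem_product, mem_Icc, mem_Icc]
      exact ⟨⟨hm0, Nat.le_floor h5⟩, hm0', Nat.le_floor h6⟩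
    · rw [hCC]
      simp only
      rw [mem_filter]
      exact ⟨hwp, hadj, hσ, p, q, hp, hq, h1, h2, h3, h4⟩
  calc (((prs X).filter (fun w => Adj w.1 w.2 ∧ sigma 3 w.1 = sigma 3 w.2 ∧
        TypeZero M w.1 w.2)).card : ℝ) ≤ ((KK.biUnion CC).card : ℝ) := by
        exact_mod_cast card_le_card hsub
    _ ≤ ∑ k ∈ KK, ((CC k).card : ℝ) := by exact_mod_cast card_biUnion_le
    _ ≤ ∑ k ∈ KK, (6 : ℝ) := by
        apply sum_le_sum
        intro k hk
        rw [hKK, mem_product, mem_Icc, mem_Icc] at hk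
        exact_mod_cast typeZero_fibre X k.1 k.2 hk.1.1 hk.2.1
    _ = 6 * (⌊M⌋₊ : ℝ) ^ 2 := by
        rw [sum_const, nsmul_eq_mul, hKK, card_product, Nat.card_Icc]
        rw [Nat.add_sub_cancel]
        push_cast
        ring
    _ ≤ 6 * M ^ 2 := by
        apply mul_le_mul_of_nonneg_left _ (by norm_num)
        exact pow_le_pow_left₀ (Nat.cast_nonneg _) (Nat.floor_le hM) 2

end Pool.Agent.Sig3
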